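import Pool.Agent.Lib.SubBisK.FacCut2

/-!
# The kernel has a subgraph with left degrees `S - 1` and right degrees at most `S - 1`
-/

set_option autoImplicit false

namespace Pool.Agent.Lib.SubBisK

open Finset

variable {α β : Type} [Fintype α] [Fintype β] [DecidableEq α] [DecidableEq β]

theorem exists_fac_kept {H0 Γ : α → β → Bool} {d : ℕ} (hH : Reg H0 d)
    (hle : ∀ v b, H0 v b = true → Γ v b = true)
    {r : ℕ} {P : Fin r → Finset α} {Q : Fin r → Finset β} {T Λ S : ℕ} (hB : Blk Γ P Q T Λ)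
    (hST : S ≤ T) (hS : 2 * Λ + 2 ≤ S) (hSd : S ≤ d)
    {X : Finset α} {Y : Finset β} (hK : Kept P Q S X Y) :
    ∃ H : α → β → Bool, (∀ v b, H v b = true → Γ v b = true ∧ v ∈ X ∧ b ∈ Y) ∧
      (∀ v ∈ X, (univ.filter fun b => H v b = true).card = S - 1) ∧
      ∀ b, (univ.filter fun v => H v b = true).card ≤ S - 1 := by
  classical
  have hcut := cut_kept hH hle hB hST hS hSd hK
  obtain ⟨F, hF1, hF2, hF3⟩ := Pa7c826r.exists_fac
    (fun (v : {v // v ∈ X}) (b : {b // b ∈ Y}) => Γ v.1 b.1) (D := S - 1) (q := S - 1) (by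
      intro A B
      have h1 := hcut (A.map (Function.Embedding.subtype _)) (by
        intro v hv
        obtain ⟨w, _, rfl⟩ := mem_map.mp hv
        exact w.2) (B.map (Function.Embedding.subtype _)) (by
        intro b hb
        obtain ⟨w, _, rfl⟩ := mem_map.mp hb
        exact w.2)
      rw [card_map, card_map] at h1
      refine h1.trans (Nat.add_le_add_right ?_ _)
      unfold eS Pa7c826r.eAB
      rw [card_filter, sum_product, sum_map]
      refine sum_le_sum fun v _ => ?_
      rw [← card_filter]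
      have h2 : (Y \ B.map (Function.Embedding.subtype _)).filter (fun b => Γ v.1 b = true) ⊆
          (Bᶜ.filter fun b : {b // b ∈ Y} => Γ v.1 b.1 = true).map
            (Function.Embedding.subtype _) := by
        intro b hb
        obtain ⟨hb1, hb2⟩ := mem_filter.mp hb
        obtain ⟨hbY, hbB⟩ := mem_sdiff.mp hb1
        refine mem_map.mpr ⟨⟨b, hbY⟩, mem_filter.mpr ⟨?_, hb2⟩, rfl⟩
        rw [mem_compl]
        exact fun h => hbB (mem_map.mpr ⟨_, h, rfl⟩)
      refine (card_le_card h2).trans ?_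
      rw [card_map])
  have hch : ∀ v : {v // v ∈ X}, ∃ c : Finset {b // b ∈ Y},
      c ⊆ (univ.filter fun b => F v b = true) ∧ c.card = S - 1 :=
    fun v => exists_subset_card_eq (hF2 v)
  choose c hc1 hc2 using hch
  refine ⟨fun v b => decide (∃ (hv : v ∈ X) (hb : b ∈ Y), (⟨b, hb⟩ : {b // b ∈ Y}) ∈ c ⟨v, hv⟩),
    ?_, ?_, ?_⟩
  · intro v b h
    obtain ⟨hv, hb, hm⟩ := of_decide_eq_true h
    have h1 := (mem_filter.mp (hc1 _ hm)).2
    exact ⟨hF1 _ _ h1, hv, hb⟩
  · intro v hv
    have h1 : (univ.filter fun b => decide (∃ (hv : v ∈ X) (hb : b ∈ Y),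
        (⟨b, hb⟩ : {b // b ∈ Y}) ∈ c ⟨v, hv⟩) = true) =
        (c ⟨v, hv⟩).map (Function.Embedding.subtype _) := by
      ext b
      rw [mem_filter, mem_map, decide_eq_true_iff]
      constructor
      · rintro ⟨_, _, hb, hm⟩
        exact ⟨⟨b, hb⟩, hm, rfl⟩
      · rintro ⟨w, hw, rfl⟩
        exact ⟨mem_univ _, hv, w.2, hw⟩
    rw [h1, card_map]
    exact hc2 _
  · intro b
    by_cases hb : b ∈ Y
    · refine le_trans (card_le_card (t := (univ.filter fun v : {v // v ∈ X} =>
        F v ⟨b, hb⟩ = true).map (Function.Embedding.subtype _)) ?_) ?_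
      · intro v hv
        obtain ⟨hv', _, hm⟩ := of_decide_eq_true (mem_filter.mp hv).2
        exact mem_map.mpr ⟨⟨v, hv'⟩, mem_filter.mpr ⟨mem_univ _,
          (mem_filter.mp (hc1 _ hm)).2⟩, rfl⟩
      · rw [card_map]
        exact hF3 _
    · have h1 : (univ.filter fun v => decide (∃ (hv : v ∈ X) (hb : b ∈ Y),
          (⟨b, hb⟩ : {b // b ∈ Y}) ∈ c ⟨v, hv⟩) = true) = ∅ := by
        refine filter_eq_empty_iff.mpr fun v _ h => ?_
        obtain ⟨_, hb', _⟩ := of_decide_eq_true h
        exact hb hb'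
      rw [h1, card_empty]
      exact Nat.zero_le _

end Pool.Agent.Lib.SubBisK
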