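import Pool.Agent.Lib.SubBisK.GhK

/-!
# MODULE SubBisK.KeptK: the vertices that are kept (est. 1 h)

PROOF. `v ∈ P i`: `cls Γ v = P i` (`twL`), `bsc Γ v = Q i` (`bis`, `bis_iff_twinR`, `twR`; `Q i` is not empty
because `1 ≤ T`), `del = min |P i| |Q i| - S`, and `P i \ kept` are the `del` largest elements of `P i` (rank
`≥ |P i| - del`; the number of elements of rank `≥ m` in a finite linearly ordered set of size `p` is
`p - m`). `v` outside the blocks: its class is outside the blocks, so it has at most `Λ ≤ S` elements: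
`del = 0`, and the rank of `v` is less than the size of its class. The right side: `tr` (`bis_tr`,
`cls (tr Γ) b`, `bsc (tr Γ) b = P i`).
-/

set_option autoImplicit false

namespace Pool.Agent.Lib.SubBisK

open Finset

variable {α β : Type} [Fintype α] [Fintype β] [DecidableEq α] [DecidableEq β]

namespace KeptKAux

/-- the number of elements of rank at least `s.card - m` -/
theorem card_rank {γ : Type} [DecidableEq γ] [LinearOrder γ] (s : Finset γ) {m : ℕ}
    (hm : m ≤ s.card) :
    (s.filter fun v => ¬ (s.filter fun v' => v' < v).card + m < s.card).card = m := by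
  have hinj : Set.InjOn (fun v => (s.filter fun v' => v' < v).card) (s : Set γ) := by
    intro v hv w hw h
    have key : ∀ a b : γ, a ∈ s → a < b →
        (s.filter fun v' => v' < a).card < (s.filter fun v' => v' < b).card := by
      intro a b ha hab
      refine Finset.card_lt_card ⟨fun x hx => ?_, fun hsub => ?_⟩
      · rw [Finset.mem_filter] at hx ⊢
        exact ⟨hx.1, hx.2.trans hab⟩
      · have := hsub (Finset.mem_filter.2 ⟨ha, hab⟩)
        exact lt_irrefl _ (Finset.mem_filter.1 this).2
    rcases lt_trichotomy v w with hlt | heq | hlt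
    · exact absurd h (key v w hv hlt).ne
    · exact heq
    · exact absurd h (key w v hw hlt).ne'
  have himg : s.image (fun v => (s.filter fun v' => v' < v).card) = Finset.range s.card := by
    refine Finset.eq_of_subset_of_card_le (fun j hj => ?_) ?_
    · obtain ⟨v, hv, rfl⟩ := Finset.mem_image.1 hj
      rw [Finset.mem_range]
      refine Finset.card_lt_card ⟨Finset.filter_subset _ _, fun hsub => ?_⟩
      exact lt_irrefl _ (Finset.mem_filter.1 (hsub hv)).2
    · rw [Finset.card_range, Finset.card_image_of_injOn hinj]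
  have h1 : ((s.filter fun v => ¬ (s.filter fun v' => v' < v).card + m < s.card).image
      (fun v => (s.filter fun v' => v' < v).card)) =
        (Finset.range s.card).filter fun j => ¬ j + m < s.card := by
    rw [← himg]
    ext j
    simp only [Finset.mem_image, Finset.mem_filter]
    constructor
    · rintro ⟨v, ⟨hv, h⟩, rfl⟩
      exact ⟨⟨v, hv, rfl⟩, h⟩
    · rintro ⟨⟨v, hv, rfl⟩, h⟩
      exact ⟨v, ⟨hv, h⟩, rfl⟩
  rw [← Finset.card_image_of_injOn (hinj.mono fun x hx => (Finset.mem_filter.1 hx).1), h1]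
  have h2 : ((Finset.range s.card).filter fun j => ¬ j + m < s.card) =
      Finset.Ico (s.card - m) s.card := by
    ext j
    simp only [Finset.mem_filter, Finset.mem_range, Finset.mem_Ico]
    omega
  rw [h2, Nat.card_Ico]
  omega

theorem blk_tr {Γ : α → β → Bool} {r : ℕ} {P : Fin r → Finset α} {Q : Fin r → Finset β}
    {T Λ : ℕ} (hB : Blk Γ P Q T Λ) : Blk (tr Γ) Q P T Λ where
  twL := fun i b hb b' => hB.twR i b hb b'
  twR := fun i v hv v' => hB.twL i v hv v'
  bis := fun i b hb v hv => bis_tr.2 (hB.bis i v hv b hb)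
  disjL := hB.disjR
  disjR := hB.disjL
  bigL := hB.bigR
  bigR := hB.bigL
  outL := hB.outR
  outR := hB.outL
  balL := hB.balR
  balR := hB.balL

theorem kept_out [LinearOrder α] {Γ : α → β → Bool} {r : ℕ}
    {P : Fin r → Finset α} {Q : Fin r → Finset β} {T Λ S : ℕ} (hB : Blk Γ P Q T Λ)
    (hS : Λ ≤ S) {v : α} (hv : ∀ i, v ∉ P i) : v ∈ kept Γ S := by
  have hself : v ∈ cls Γ v := Finset.mem_filter.2 ⟨Finset.mem_univ _, fun b => rfl⟩
  have hsub : cls Γ v ⊆ univ \ univ.biUnion P := by
    intro v' hv'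
    rw [Finset.mem_sdiff]
    refine ⟨Finset.mem_univ _, fun h => ?_⟩
    obtain ⟨i, -, hi⟩ := Finset.mem_biUnion.1 h
    exact hv i ((hB.twL i v' hi v).2 fun b => ((Finset.mem_filter.1 hv').2 b).symm)
  have hcard : (cls Γ v).card ≤ S := ((Finset.card_le_card hsub).trans hB.outL).trans hS
  have hdel : del Γ S v = 0 := by
    unfold del
    have := min_le_left (cls Γ v).card (bsc Γ v).card
    omega
  unfold kept
  rw [Finset.mem_filter, hdel, add_zero]
  refine ⟨Finset.mem_univ _, Finset.card_lt_card ⟨Finset.filter_subset _ _, fun hsub => ?_⟩⟩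
  exact lt_irrefl _ (Finset.mem_filter.1 (hsub hself)).2

theorem kept_del [LinearOrder α] {Γ : α → β → Bool} {r : ℕ}
    {P : Fin r → Finset α} {Q : Fin r → Finset β} {T Λ S : ℕ} (hB : Blk Γ P Q T Λ)
    (hT : 1 ≤ T) (i : Fin r) : (P i \ kept Γ S).card = min (P i).card (Q i).card - S := by
  obtain ⟨b0, hb0⟩ : (Q i).Nonempty := Finset.card_pos.1 (by have := hB.bigR i; omega)
  have hcls : ∀ v ∈ P i, cls Γ v = P i := by
    intro v hv
    ext v'
    rw [hB.twL i v hv v']
    simp [cls]
  have hbsc : ∀ v ∈ P i, bsc Γ v = Q i := by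
    intro v hv
    ext b
    have h := hB.bis i v hv b0 hb0
    unfold bsc
    rw [Finset.mem_filter, bis_iff_twinR h, hB.twR i b0 hb0 b]
    simp
  have h1 : P i \ kept Γ S = (P i).filter fun v =>
      ¬ ((P i).filter fun v' => v' < v).card + (min (P i).card (Q i).card - S) < (P i).card := by
    ext v
    rw [Finset.mem_sdiff, Finset.mem_filter]
    refine and_congr_right fun hv => not_congr ?_
    unfold kept del
    rw [Finset.mem_filter, hcls v hv, hbsc v hv]
    simp
  rw [h1]
  exact card_rank _ (by have := min_le_left (P i).card (Q i).card; omega)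

theorem sdiff_eq {r : ℕ} {P : Fin r → Finset α} {X : Finset α}
    (hout : ∀ v, (∀ i, v ∉ P i) → v ∈ X) : univ \ X = univ.biUnion fun i => P i \ X := by
  ext v
  simp only [Finset.mem_sdiff, Finset.mem_univ, true_and, Finset.mem_biUnion]
  constructor
  · intro hv
    by_contra h
    push Not at h
    exact hv (hout v fun i hi => hv (h i hi))
  · rintro ⟨i, -, hv⟩
    exact hv

theorem card_sdiff {r : ℕ} {P : Fin r → Finset α} {X : Finset α}
    (hout : ∀ v, (∀ i, v ∉ P i) → v ∈ X) (hdisj : ∀ i j, i ≠ j → Disjoint (P i) (P j)) :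
    (univ \ X).card = ∑ i, (P i \ X).card := by
  rw [sdiff_eq hout, Finset.card_biUnion]
  intro i _ j _ hij
  exact (hdisj i j hij).mono Finset.sdiff_subset Finset.sdiff_subset

theorem card_le {Γ : α → β → Bool} {r : ℕ} {P : Fin r → Finset α} {Q : Fin r → Finset β}
    {T Λ S : ℕ} (hB : Blk Γ P Q T Λ) (hST : S ≤ T) {X : Finset α}
    (hdel : ∀ i, (P i \ X).card = min (P i).card (Q i).card - S) :
    X.card ≤ r * S + 2 * Λ := by
  have h1 : X ⊆ (univ \ univ.biUnion P) ∪ univ.biUnion fun i => P i ∩ X := by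
    intro v hv
    rw [Finset.mem_union]
    by_cases h : ∃ i, v ∈ P i
    · obtain ⟨i, hi⟩ := h
      exact Or.inr (Finset.mem_biUnion.2 ⟨i, Finset.mem_univ _, Finset.mem_inter.2 ⟨hi, hv⟩⟩)
    · refine Or.inl (Finset.mem_sdiff.2 ⟨Finset.mem_univ _, fun h' => h ?_⟩)
      obtain ⟨i, -, hi⟩ := Finset.mem_biUnion.1 h'
      exact ⟨i, hi⟩
  have h2 : ∀ i, (P i ∩ X).card = S + ((P i).card - (Q i).card) := by
    intro i
    have h3 := Finset.card_sdiff_add_card_inter (P i) X
    have h4 := hdel i
    have h5 := hB.bigL i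
    have h6 := hB.bigR i
    rcases le_total (P i).card (Q i).card with h | h
    · rw [min_eq_left h] at h4
      omega
    · rw [min_eq_right h] at h4
      omega
  have h3 : ∑ i, ((P i).card - (Q i).card) ≤ Λ := by
    have h4 := hB.balL (univ.filter fun i => (Q i).card < (P i).card)
    have h5 : ∑ i, ((P i).card - (Q i).card) =
        ∑ i ∈ univ.filter fun i => (Q i).card < (P i).card, ((P i).card - (Q i).card) := by
      refine (Finset.sum_subset (Finset.filter_subset _ _) fun i _ hi => ?_).symm
      have : ¬ (Q i).card < (P i).card := fun h => hi (Finset.mem_filter.2 ⟨Finset.mem_univ _, h⟩)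
      omega
    have h6 : ∑ i ∈ univ.filter fun i => (Q i).card < (P i).card, ((P i).card - (Q i).card) +
        ∑ i ∈ univ.filter fun i => (Q i).card < (P i).card, (Q i).card =
          ∑ i ∈ univ.filter fun i => (Q i).card < (P i).card, (P i).card := by
      rw [← Finset.sum_add_distrib]
      refine Finset.sum_congr rfl fun i hi => ?_
      have := (Finset.mem_filter.1 hi).2
      omega
    rw [h5]
    omega
  calc X.card ≤ ((univ \ univ.biUnion P) ∪ univ.biUnion fun i => P i ∩ X).card :=
        Finset.card_le_card h1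
    _ ≤ (univ \ univ.biUnion P).card + (univ.biUnion fun i => P i ∩ X).card :=
        Finset.card_union_le _ _
    _ ≤ Λ + ∑ i, (P i ∩ X).card := add_le_add hB.outL Finset.card_biUnion_le
    _ = Λ + (r * S + ∑ i, ((P i).card - (Q i).card)) := by
        simp only [h2]
        rw [Finset.sum_add_distrib, Finset.sum_const, Finset.card_univ, Fintype.card_fin,
          smul_eq_mul]
    _ ≤ r * S + 2 * Λ := by omega

theorem le_card {Γ : α → β → Bool} {r : ℕ} {P : Fin r → Finset α} {Q : Fin r → Finset β}
    {T Λ S : ℕ} (hB : Blk Γ P Q T Λ) (hST : S ≤ T) {X : Finset α} (i : Fin r)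
    (hdel : (P i \ X).card = min (P i).card (Q i).card - S) : S ≤ X.card := by
  have h3 := Finset.card_sdiff_add_card_inter (P i) X
  have h5 := hB.bigL i
  have h6 := hB.bigR i
  have h7 : (P i ∩ X).card ≤ X.card := Finset.card_le_card Finset.inter_subset_right
  rcases le_total (P i).card (Q i).card with h | h
  · rw [min_eq_left h] at hdel
    omega
  · rw [min_eq_right h] at hdel
    omega

end KeptKAux

open KeptKAux

theorem kept_kept [LinearOrder α] [LinearOrder β] {Γ : α → β → Bool} {r : ℕ}
    {P : Fin r → Finset α} {Q : Fin r → Finset β} {T Λ S : ℕ} (hB : Blk Γ P Q T Λ)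
    (hT : 1 ≤ T) (hS : Λ ≤ S) : Kept P Q S (kept Γ S) (kept (tr Γ) S) where
  outL := fun _ hv => kept_out hB hS hv
  outR := fun _ hb => kept_out (blk_tr hB) hS hb
  delL := fun i => kept_del hB hT i
  delR := fun i => by
    rw [min_comm]
    exact kept_del (blk_tr hB) hT i

/-- the number of vertices that are kept -/
theorem card_kept_le {Γ : α → β → Bool} {r : ℕ} {P : Fin r → Finset α} {Q : Fin r → Finset β}
    {T Λ S : ℕ} (hB : Blk Γ P Q T Λ) (hST : S ≤ T) {X : Finset α} {Y : Finset β}
    (hK : Kept P Q S X Y) :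
    X.card ≤ r * S + 2 * Λ ∧ Y.card ≤ r * S + 2 * Λ ∧ (univ \ X).card = (univ \ Y).card := by
  refine ⟨card_le hB hST hK.delL, card_le (blk_tr hB) hST fun i => ?_, ?_⟩
  · rw [min_comm]
    exact hK.delR i
  · rw [card_sdiff hK.outL hB.disjL, card_sdiff hK.outR hB.disjR]
    exact Finset.sum_congr rfl fun i _ => (hK.delL i).trans (hK.delR i).symm

/-- if there is a block, at least `S` vertices are kept on each side -/
theorem le_card_kept {Γ : α → β → Bool} {r : ℕ} {P : Fin r → Finset α} {Q : Fin r → Finset β}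
    {T Λ S : ℕ} (hB : Blk Γ P Q T Λ) (hST : S ≤ T) (hr : 1 ≤ r) {X : Finset α} {Y : Finset β}
    (hK : Kept P Q S X Y) : S ≤ X.card ∧ S ≤ Y.card := by
  refine ⟨le_card hB hST ⟨0, hr⟩ (hK.delL _), le_card (blk_tr hB) hST ⟨0, hr⟩ ?_⟩
  rw [min_comm]
  exact hK.delR _

end Pool.Agent.Lib.SubBisK
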