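import Pool.Agent.Lib.SubBisK.Defs

/-!
# MODULE SubBisK.KernK: the kernel lemma (section 3 of /team-store/a7c826_K.md)

PROOF (rule (4a) of helper36). Let `p ∉ X`, `q ∉ Y` and `Bis Γ p q`. Then
`ip (X + p) (Y + q) = 2 ip X Y + ip (X \ N(q)) (Y \ N(p))` (`ip_step`): every independent set of `X, Y`
misses `N(p)` or misses `N(q)`. The last term is at most `2 ^ (- #{twins of p in X}) ip X Y`
(`ip_ratio`). Induction on the number of the deleted pairs.
-/

set_option autoImplicit false

namespace Pool.Agent.Lib.SubBisK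

open Finset

variable {α β : Type} [Fintype α] [Fintype β] [DecidableEq α] [DecidableEq β]

namespace KernKAux

/-- The independent sets. -/
def ips (E : α → β → Bool) (X : Finset α) (Y : Finset β) : Finset (Finset α × Finset β) :=
  (X.powerset ×ˢ Y.powerset).filter fun x => ∀ v ∈ x.1, ∀ b ∈ x.2, E v b = false

theorem mem_ips (E : α → β → Bool) (X : Finset α) (Y : Finset β) (x : Finset α × Finset β) :
    x ∈ ips E X Y ↔ (x.1 ⊆ X ∧ x.2 ⊆ Y) ∧ ∀ v ∈ x.1, ∀ b ∈ x.2, E v b = false := by
  simp only [ips, mem_filter, mem_product, mem_powerset]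

theorem ip_eq (E : α → β → Bool) (X : Finset α) (Y : Finset β) : ip E X Y = (ips E X Y).card := rfl

/-- Adding a left vertex. -/
theorem ip_insertL (E : α → β → Bool) (X : Finset α) (Y : Finset β) {p : α} (hp : p ∉ X) :
    ip E (insert p X) Y = ip E X Y + ip E X (Y.filter fun b => E p b = false) := by
  rw [ip_eq, ip_eq, ip_eq]
  have h1 : ips E (insert p X) Y = ips E X Y ∪
      (ips E X (Y.filter fun b => E p b = false)).image fun x => (insert p x.1, x.2) := by
    ext x
    rw [mem_union, mem_image, mem_ips, mem_ips]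
    constructor
    · rintro ⟨⟨h1, h2⟩, h3⟩
      by_cases hpx : p ∈ x.1
      · right
        refine ⟨(x.1.erase p, x.2), ?_, ?_⟩
        · rw [mem_ips]
          refine ⟨⟨?_, ?_⟩, ?_⟩
          · intro v hv
            rw [mem_erase] at hv
            rcases mem_insert.1 (h1 hv.2) with h | h
            · exact absurd h hv.1
            · exact h
          · intro b hb
            exact mem_filter.2 ⟨h2 hb, h3 p hpx b hb⟩
          · intro v hv b hb
            exact h3 v (mem_of_mem_erase hv) b hb
        · simp only [insert_erase hpx]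
      · left
        refine ⟨⟨?_, h2⟩, h3⟩
        intro v hv
        rcases mem_insert.1 (h1 hv) with h | h
        · rw [h] at hv
          exact absurd hv hpx
        · exact h
    · rintro (⟨⟨h1, h2⟩, h3⟩ | ⟨y, hy, rfl⟩)
      · exact ⟨⟨h1.trans (subset_insert _ _), h2⟩, h3⟩
      · rw [mem_ips] at hy
        obtain ⟨⟨h1, h2⟩, h3⟩ := hy
        refine ⟨⟨insert_subset_insert _ h1, h2.trans (filter_subset _ _)⟩, ?_⟩
        intro v hv b hb
        rcases mem_insert.1 hv with h | h
        · rw [h]
          exact (mem_filter.1 (h2 hb)).2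
        · exact h3 v h b hb
  rw [h1, card_union_of_disjoint, card_image_of_injOn]
  · intro x hx y hy hxy
    rw [mem_coe, mem_ips] at hx hy
    simp only [Prod.mk.injEq] at hxy
    refine Prod.ext ?_ hxy.2
    have h2 : (insert p x.1).erase p = (insert p y.1).erase p := by rw [hxy.1]
    rwa [erase_insert fun h => hp (hx.1.1 h), erase_insert fun h => hp (hy.1.1 h)] at h2
  · rw [disjoint_left]
    intro x hx hx2
    rw [mem_image] at hx2
    obtain ⟨y, _, rfl⟩ := hx2
    rw [mem_ips] at hx
    exact hp (hx.1.1 (mem_insert_self _ _))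

/-- Adding a right vertex. -/
theorem ip_insertR (E : α → β → Bool) (X : Finset α) (Y : Finset β) {q : β} (hq : q ∉ Y) :
    ip E X (insert q Y) = ip E X Y + ip E (X.filter fun v => E v q = false) Y := by
  rw [ip_eq, ip_eq, ip_eq]
  have h1 : ips E X (insert q Y) = ips E X Y ∪
      (ips E (X.filter fun v => E v q = false) Y).image fun x => (x.1, insert q x.2) := by
    ext x
    rw [mem_union, mem_image, mem_ips, mem_ips]
    constructor
    · rintro ⟨⟨h1, h2⟩, h3⟩
      by_cases hpx : q ∈ x.2
      · right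
        refine ⟨(x.1, x.2.erase q), ?_, ?_⟩
        · rw [mem_ips]
          refine ⟨⟨?_, ?_⟩, ?_⟩
          · intro v hv
            exact mem_filter.2 ⟨h1 hv, h3 v hv q hpx⟩
          · intro b hb
            rw [mem_erase] at hb
            rcases mem_insert.1 (h2 hb.2) with h | h
            · exact absurd h hb.1
            · exact h
          · intro v hv b hb
            exact h3 v hv b (mem_of_mem_erase hb)
        · simp only [insert_erase hpx]
      · left
        refine ⟨⟨h1, ?_⟩, h3⟩
        intro b hb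
        rcases mem_insert.1 (h2 hb) with h | h
        · rw [h] at hb
          exact absurd hb hpx
        · exact h
    · rintro (⟨⟨h1, h2⟩, h3⟩ | ⟨y, hy, rfl⟩)
      · exact ⟨⟨h1, h2.trans (subset_insert _ _)⟩, h3⟩
      · rw [mem_ips] at hy
        obtain ⟨⟨h1, h2⟩, h3⟩ := hy
        refine ⟨⟨h1.trans (filter_subset _ _), insert_subset_insert _ h2⟩, ?_⟩
        intro v hv b hb
        rcases mem_insert.1 hb with h | h
        · rw [h]
          exact (mem_filter.1 (h1 hv)).2
        · exact h3 v hv b h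
  rw [h1, card_union_of_disjoint, card_image_of_injOn]
  · intro x hx y hy hxy
    rw [mem_coe, mem_ips] at hx hy
    simp only [Prod.mk.injEq] at hxy
    refine Prod.ext hxy.1 ?_
    have h2 : (insert q x.2).erase q = (insert q y.2).erase q := by rw [hxy.2]
    rwa [erase_insert fun h => hq (hx.1.2 h), erase_insert fun h => hq (hy.1.2 h)] at h2
  · rw [disjoint_left]
    intro x hx hx2
    rw [mem_image] at hx2
    obtain ⟨y, _, rfl⟩ := hx2
    rw [mem_ips] at hx
    exact hq (hx.1.2 (mem_insert_self _ _))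

/-- The two ways to extend an independent set. -/
theorem ip_inter (E : α → β → Bool) (X : Finset α) (Y : Finset β) {p : α} {q : β}
    (hb : ∀ w b', E w q = true → E p b' = true → E w b' = true) :
    ip E (X.filter fun v => E v q = false) Y + ip E X (Y.filter fun b => E p b = false) =
      ip E X Y + ip E (X.filter fun v => E v q = false) (Y.filter fun b => E p b = false) := by
  simp only [ip_eq]
  have h1 : ips E X Y = ips E (X.filter fun v => E v q = false) Y ∪
      ips E X (Y.filter fun b => E p b = false) := by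
    ext x
    simp only [mem_union, mem_ips]
    constructor
    · rintro ⟨⟨h1, h2⟩, h3⟩
      by_cases hx : ∀ v ∈ x.1, E v q = false
      · left
        exact ⟨⟨fun v hv => mem_filter.2 ⟨h1 hv, hx v hv⟩, h2⟩, h3⟩
      · right
        push Not at hx
        obtain ⟨w, hw, hwq⟩ := hx
        have hwq' : E w q = true := by simpa using hwq
        refine ⟨⟨h1, fun b hb' => mem_filter.2 ⟨h2 hb', ?_⟩⟩, h3⟩
        by_contra hpb
        have hpb' : E p b = true := by simpa using hpb
        have := hb w b hwq' hpb'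
        rw [h3 w hw b hb'] at this
        exact absurd this (by simp)
    · rintro (⟨⟨h1, h2⟩, h3⟩ | ⟨⟨h1, h2⟩, h3⟩)
      · exact ⟨⟨h1.trans (filter_subset _ _), h2⟩, h3⟩
      · exact ⟨⟨h1, h2.trans (filter_subset _ _)⟩, h3⟩
  have h2 : ips E (X.filter fun v => E v q = false) (Y.filter fun b => E p b = false) =
      ips E (X.filter fun v => E v q = false) Y ∩ ips E X (Y.filter fun b => E p b = false) := by
    ext x
    simp only [mem_inter, mem_ips]
    constructor
    · rintro ⟨⟨h1, h2⟩, h3⟩
      exact ⟨⟨⟨h1, h2.trans (filter_subset _ _)⟩, h3⟩, ⟨⟨h1.trans (filter_subset _ _), h2⟩, h3⟩⟩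
    · rintro ⟨⟨⟨h1, _⟩, h3⟩, ⟨⟨_, h2⟩, _⟩⟩
      exact ⟨⟨h1, h2⟩, h3⟩
  rw [h1, h2, card_union_add_card_inter]

/-- Adding a bisimplicial pair. -/
theorem ip_step (E : α → β → Bool) (X : Finset α) (Y : Finset β) {p : α} {q : β}
    (hp : p ∉ X) (hq : q ∉ Y) (hpq : E p q = true)
    (hb : ∀ w b', E w q = true → E p b' = true → E w b' = true) :
    ip E (insert p X) (insert q Y) = 2 * ip E X Y +
      ip E (X.filter fun v => E v q = false) (Y.filter fun b => E p b = false) := by
  rw [ip_insertL E X (insert q Y) hp, ip_insertR E X Y hq]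
  have h1 : ((insert q Y).filter fun b => E p b = false) = Y.filter fun b => E p b = false := by
    rw [filter_insert, if_neg (by rw [hpq]; simp)]
  rw [h1]
  have h2 := ip_inter E X Y hb
  omega

/-- Independent sets that miss `N(p)` and `N(q)` are few. -/
theorem ip_ratio (E : α → β → Bool) (X : Finset α) (Y : Finset β) {p : α} {q : β}
    (hpq : E p q = true) (C : Finset α) (hC : C ⊆ X) (htw : ∀ v ∈ C, ∀ b, E p b = E v b) :
    ip E (X.filter fun v => E v q = false) (Y.filter fun b => E p b = false) * 2 ^ C.card ≤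
      ip E X Y := by
  simp only [ip_eq]
  rw [← card_powerset, ← card_product]
  refine card_le_card_of_injOn (fun z => (z.1.1 ∪ z.2, z.1.2)) ?_ ?_
  · intro z hz
    simp only [coe_product, Set.mem_prod, mem_coe, mem_ips, mem_powerset] at hz
    simp only [mem_coe, mem_ips]
    obtain ⟨⟨⟨h1, h2⟩, h3⟩, h4⟩ := hz
    refine ⟨⟨union_subset (h1.trans (filter_subset _ _)) (h4.trans hC),
      h2.trans (filter_subset _ _)⟩, ?_⟩
    intro v hv b hb
    rcases mem_union.1 hv with hv | hv
    · exact h3 v hv b hb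
    · rw [← htw v (h4 hv) b]
      exact (mem_filter.1 (h2 hb)).2
  · intro z hz z' hz' hzz
    simp only [coe_product, Set.mem_prod, mem_coe, mem_ips, mem_powerset] at hz hz'
    simp only [Prod.mk.injEq] at hzz
    have key : ∀ w : (Finset α × Finset β) × Finset α,
        w.1.1 ⊆ X.filter (fun v => E v q = false) → w.2 ⊆ C →
        (w.1.1 ∪ w.2).filter (fun v => E v q = false) = w.1.1 ∧
        (w.1.1 ∪ w.2).filter (fun v => E v q = true) = w.2 := by
      intro w h1 h2
      constructor
      · ext v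
        rw [mem_filter, mem_union]
        constructor
        · rintro ⟨hv | hv, hvq⟩
          · exact hv
          · rw [← htw v (h2 hv) q, hpq] at hvq
            exact absurd hvq (by simp)
        · intro hv
          exact ⟨Or.inl hv, (mem_filter.1 (h1 hv)).2⟩
      · ext v
        rw [mem_filter, mem_union]
        constructor
        · rintro ⟨hv | hv, hvq⟩
          · rw [(mem_filter.1 (h1 hv)).2] at hvq
            exact absurd hvq (by simp)
          · exact hv
        · intro hv
          refine ⟨Or.inr hv, ?_⟩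
          rw [← htw v (h2 hv) q]
          exact hpq
    have k1 := key z hz.1.1.1 hz.2
    have k2 := key z' hz'.1.1.1 hz'.2
    refine Prod.ext (Prod.ext ?_ hzz.2) ?_
    · rw [← k1.1, ← k2.1, hzz.1]
    · rw [← k1.2, ← k2.2, hzz.1]

/-- The induction. -/
theorem main {Γ : α → β → Bool} {r : ℕ} {P : Fin r → Finset α} {Q : Fin r → Finset β}
    {T Λ S : ℕ} (hB : Blk Γ P Q T Λ) :
    ∀ (m : ℕ) (X : Finset α) (Y : Finset β), (univ \ X).card = m →
      (∀ v, (∀ i, v ∉ P i) → v ∈ X) → (∀ b, (∀ i, b ∉ Q i) → b ∈ Y) →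
      (∀ i, (P i \ X).card = (Q i \ Y).card) → (∀ i, S ≤ (P i ∩ X).card) →
      (2 : ℝ) ^ m * ip Γ X Y ≤ ip Γ univ univ ∧
      (ip Γ univ univ : ℝ) ≤ 2 ^ m * (1 + (1 / 2) ^ (S + 1)) ^ m * ip Γ X Y := by
  intro m
  induction m with
  | zero =>
    intro X Y hX hL hR hPQ hS
    have hXu : X = univ := by
      rw [card_eq_zero, sdiff_eq_empty_iff_subset] at hX
      exact univ_subset_iff.1 hX
    have hYu : Y = univ := by
      rw [← univ_subset_iff]
      intro b _
      by_cases hb : ∀ i, b ∉ Q i
      · exact hR b hb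
      · push Not at hb
        obtain ⟨i, hi⟩ := hb
        have h1 := hPQ i
        rw [hXu, sdiff_eq_empty_iff_subset.2 (subset_univ _), card_empty, eq_comm, card_eq_zero,
          sdiff_eq_empty_iff_subset] at h1
        exact h1 hi
    rw [hXu, hYu]
    simp
  | succ m ih =>
    intro X Y hX hL hR hPQ hS
    obtain ⟨p, hp⟩ : (univ \ X).Nonempty := card_pos.1 (by omega)
    rw [mem_sdiff] at hp
    have hpX := hp.2
    obtain ⟨k, hk⟩ : ∃ k, p ∈ P k := by
      by_contra hn
      push Not at hn
      exact hpX (hL p hn)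
    obtain ⟨q, hq⟩ : (Q k \ Y).Nonempty := by
      rw [← card_pos, ← hPQ k]
      exact card_pos.2 ⟨p, mem_sdiff.2 ⟨hk, hpX⟩⟩
    rw [mem_sdiff] at hq
    have hbis := hB.bis k p hk q hq.1
    have hstep := ip_step Γ X Y hpX hq.2 hbis.1 hbis.2
    have hrat := ip_ratio Γ X Y hbis.1 (P k ∩ X) inter_subset_right
      (fun v hv b => (hB.twL k p hk v).1 (mem_inter.1 hv).1 b)
    have hX1 : (univ \ insert p X).card = m := by
      have h1 : univ \ insert p X = (univ \ X).erase p := by
        ext v
        simp only [mem_sdiff, mem_univ, true_and, mem_insert, mem_erase, not_or]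
      rw [h1, card_erase_of_mem (mem_sdiff.2 ⟨mem_univ _, hpX⟩)]
      omega
    have hne : ∀ i, i ≠ k → (P i \ insert p X).card = (P i \ X).card ∧
        (Q i \ insert q Y).card = (Q i \ Y).card := by
      intro i hi
      constructor
      · congr 1
        ext v
        simp only [mem_sdiff, mem_insert, not_or]
        constructor
        · rintro ⟨h1, _, h2⟩
          exact ⟨h1, h2⟩
        · rintro ⟨h1, h2⟩
          refine ⟨h1, ?_, h2⟩
          rintro rfl
          exact disjoint_left.1 (hB.disjL i k hi) h1 hk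
      · congr 1
        ext v
        simp only [mem_sdiff, mem_insert, not_or]
        constructor
        · rintro ⟨h1, _, h2⟩
          exact ⟨h1, h2⟩
        · rintro ⟨h1, h2⟩
          refine ⟨h1, ?_, h2⟩
          rintro rfl
          exact disjoint_left.1 (hB.disjR i k hi) h1 hq.1
    have hk1 : (P k \ insert p X).card + 1 = (P k \ X).card := by
      have h1 : P k \ insert p X = (P k \ X).erase p := by
        ext v
        simp only [mem_sdiff, mem_insert, mem_erase, not_or]
        tauto
      rw [h1, card_erase_of_mem (mem_sdiff.2 ⟨hk, hpX⟩)]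
      have := card_pos.2 ⟨p, mem_sdiff.2 ⟨hk, hpX⟩⟩
      omega
    have hk2 : (Q k \ insert q Y).card + 1 = (Q k \ Y).card := by
      have h1 : Q k \ insert q Y = (Q k \ Y).erase q := by
        ext v
        simp only [mem_sdiff, mem_insert, mem_erase, not_or]
        tauto
      rw [h1, card_erase_of_mem (mem_sdiff.2 hq)]
      have := card_pos.2 ⟨q, mem_sdiff.2 hq⟩
      omega
    have hI := ih (insert p X) (insert q Y) hX1
      (fun v hv => mem_insert_of_mem (hL v hv)) (fun b hb => mem_insert_of_mem (hR b hb))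
      (fun i => by
        by_cases hi : i = k
        · rw [hi]
          have := hPQ k
          omega
        · rw [(hne i hi).1, (hne i hi).2]
          exact hPQ i)
      (fun i => (hS i).trans (card_le_card (inter_subset_inter_left (subset_insert _ _))))
    -- the two inequalities
    have h1 : (ip Γ (insert p X) (insert q Y) : ℝ) = 2 * ip Γ X Y +
        ip Γ (X.filter fun v => Γ v q = false) (Y.filter fun b => Γ p b = false) := by
      exact_mod_cast hstep
    have h2 : (ip Γ (X.filter fun v => Γ v q = false) (Y.filter fun b => Γ p b = false) : ℝ) ≤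
        (1 / 2) ^ S * ip Γ X Y := by
      have h3 : (ip Γ (X.filter fun v => Γ v q = false) (Y.filter fun b => Γ p b = false) : ℝ) *
          2 ^ S ≤ ip Γ X Y := by
        calc (ip Γ (X.filter fun v => Γ v q = false) (Y.filter fun b => Γ p b = false) : ℝ) *
            2 ^ S ≤ (ip Γ (X.filter fun v => Γ v q = false)
              (Y.filter fun b => Γ p b = false) : ℝ) * 2 ^ (P k ∩ X).card := by
              refine mul_le_mul_of_nonneg_left ?_ (by positivity)
              exact pow_le_pow_right₀ (by norm_num) (hS k)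
          _ ≤ ip Γ X Y := by exact_mod_cast hrat
      have h4 : (1 / 2 : ℝ) ^ S * 2 ^ S = 1 := by
        rw [← mul_pow]
        norm_num
      have h5 : (0 : ℝ) ≤ (1 / 2 : ℝ) ^ S := by positivity
      nlinarith [mul_le_mul_of_nonneg_left h3 h5]
    have hge : (2 : ℝ) * ip Γ X Y ≤ ip Γ (insert p X) (insert q Y) := by
      rw [h1]
      have : (0 : ℝ) ≤ ip Γ (X.filter fun v => Γ v q = false) (Y.filter fun b => Γ p b = false) := by
        positivity
      linarith
    have hle : (ip Γ (insert p X) (insert q Y) : ℝ) ≤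
        2 * (1 + (1 / 2) ^ (S + 1)) * ip Γ X Y := by
      rw [h1]
      have : (2 : ℝ) * (1 / 2) ^ (S + 1) = (1 / 2) ^ S := by
        rw [pow_succ]
        ring
      nlinarith
    constructor
    · calc (2 : ℝ) ^ (m + 1) * ip Γ X Y = 2 ^ m * (2 * ip Γ X Y) := by ring
        _ ≤ 2 ^ m * ip Γ (insert p X) (insert q Y) :=
          mul_le_mul_of_nonneg_left hge (by positivity)
        _ ≤ _ := hI.1
    · refine hI.2.trans ?_
      calc (2 : ℝ) ^ m * (1 + (1 / 2) ^ (S + 1)) ^ m * ip Γ (insert p X) (insert q Y)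
          ≤ (2 : ℝ) ^ m * (1 + (1 / 2) ^ (S + 1)) ^ m * (2 * (1 + (1 / 2) ^ (S + 1)) * ip Γ X Y) :=
            mul_le_mul_of_nonneg_left hle (by positivity)
        _ = _ := by ring

/-- `(1 + δ) ^ m ≤ 1 + 2 m δ` for `m δ ≤ 1`. -/
theorem one_add_pow_le {δ : ℝ} (hδ : 0 ≤ δ) (m : ℕ) (h : (m : ℝ) * δ ≤ 1) :
    (1 + δ) ^ m ≤ 1 + 2 * (m * δ) := by
  have h1 : (1 + δ) ^ m ≤ Real.exp (m * δ) := by
    rw [mul_comm, Real.exp_mul, Real.rpow_natCast]
    exact pow_le_pow_left₀ (by positivity) (by linarith [Real.add_one_le_exp δ]) m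
  have h0 : (0 : ℝ) ≤ m * δ := by positivity
  have h2 := Real.abs_exp_sub_one_le (x := m * δ) (by rw [abs_of_nonneg h0]; exact h)
  rw [abs_of_nonneg h0] at h2
  have h3 := abs_le.1 h2
  linarith

end KernKAux

/-- The kernel lemma without the term with `Λ`. -/
theorem kernel_count_strong {Γ : α → β → Bool} {r : ℕ} {P : Fin r → Finset α}
    {Q : Fin r → Finset β}
    {T Λ S N e : ℕ} (hN : Fintype.card α = N) (hB : Blk Γ P Q T Λ) (hST : S ≤ T)
    (hS : szK N + e ≤ S)
    {X : Finset α} {Y : Finset β} (hK : Kept P Q S X Y) :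
    (2 : ℝ) ^ (univ \ X).card * ip Γ X Y ≤ ip Γ univ univ ∧
    (ip Γ univ univ : ℝ) ≤ (1 + (1 / 2) ^ e) * (2 ^ (univ \ X).card * ip Γ X Y) := by
  set m := (univ \ X).card with hm
  have hmain := KernKAux.main (S := S) hB m X Y hm.symm hK.outL hK.outR
    (fun i => by rw [hK.delL i, hK.delR i])
    (fun i => by
      have h1 : (P i ∩ X).card + (P i \ X).card = (P i).card := card_inter_add_card_sdiff _ _
      have h3 := hK.delL i
      have h5 := hB.bigL i
      have h6 := hB.bigR i
      omega)
  refine ⟨hmain.1, hmain.2.trans ?_⟩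
  have hmN : m ≤ N := by
    rw [hm, ← hN]
    exact card_le_univ _
  have hmS : (m : ℝ) ≤ 2 ^ szK N := by
    have h1 : N + 1 < 2 ^ szK N := Nat.lt_size_self (N + 1)
    have h2 : m ≤ 2 ^ szK N := by omega
    exact_mod_cast h2
  have hδ : (m : ℝ) * (1 / 2) ^ (S + 1) ≤ (1 / 2) ^ (e + 1) := by
    calc (m : ℝ) * (1 / 2) ^ (S + 1) ≤ 2 ^ szK N * (1 / 2) ^ (szK N + (e + 1)) := by
          refine mul_le_mul hmS ?_ (by positivity) (by positivity)
          exact pow_le_pow_of_le_one (by norm_num) (by norm_num) (by omega)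
      _ = (1 / 2) ^ (e + 1) := by
          rw [pow_add, ← mul_assoc, ← mul_pow]
          norm_num
  have h1 := KernKAux.one_add_pow_le (δ := (1 / 2 : ℝ) ^ (S + 1)) (by positivity) m
    (hδ.trans (pow_le_one₀ (by norm_num) (by norm_num)))
  have h2 : (1 + (1 / 2 : ℝ) ^ (S + 1)) ^ m ≤ 1 + (1 / 2) ^ e := by
    refine h1.trans ?_
    have : (2 : ℝ) * (1 / 2) ^ (e + 1) = (1 / 2) ^ e := by
      rw [pow_succ]
      ring
    linarith
  calc (2 : ℝ) ^ m * (1 + (1 / 2) ^ (S + 1)) ^ m * ip Γ X Y
      = (1 + (1 / 2) ^ (S + 1)) ^ m * (2 ^ m * ip Γ X Y) := by ring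
    _ ≤ _ := mul_le_mul_of_nonneg_right h2 (by positivity)

/-- **The kernel lemma.** `e` = the binary logarithm of the inverse of the error. -/
theorem kernel_count {Γ : α → β → Bool} {r : ℕ} {P : Fin r → Finset α} {Q : Fin r → Finset β}
    {T Λ S N e : ℕ} (hN : Fintype.card α = N) (hB : Blk Γ P Q T Λ) (hST : S ≤ T) (hS1 : 1 ≤ S)
    (hS : (r + 2) * (Λ + 2) + szK N + e + 4 ≤ S)
    {X : Finset α} {Y : Finset β} (hK : Kept P Q S X Y) :
    |(ip Γ univ univ : ℝ) - 2 ^ (univ \ X).card * ip Γ X Y| ≤
      (1 / 2) ^ e * (2 ^ (univ \ X).card * ip Γ X Y) := by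
  obtain ⟨h1, h2⟩ := kernel_count_strong hN hB hST (e := e) (by omega) hK
  rw [abs_of_nonneg (by linarith)]
  linarith

end Pool.Agent.Lib.SubBisK
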