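import Pool.Agent.Lib.SubBisK.SubK

/-!
# MODULE SubBisK.CovK: small covers, the number of neighbourhoods ((1b), (1c); est. 1 h)

PROOF. Greedy: `Rem j` = the vertices of `N(S) \ few` not yet in `N(T)`. Each has at least `d / 16`
`H`-neighbours in `S` and `|S| ≤ N ≤ X d`, so some `v ∈ S` covers at least `|Rem| / (16 X)` of them; after `τ`
steps at most `N (1 - 1/(16 X))^τ < 1` are left (`(1 - 1/(16 X))^(16 X) ≤ 1/2`, `N < 2^(szK N)`). `card_nbs`:
`N(S) = N(T) ∪ E0`, `T` with at most `τ`, `E0` with at most `l` elements; a set with `N` elements has at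
most `(N + 1)^m` subsets of size `≤ m`.
-/

set_option autoImplicit false

namespace Pool.Agent.Lib.SubBisK

open Finset

variable {α β : Type} [Fintype α] [Fintype β] [DecidableEq α] [DecidableEq β]

namespace CovKAux

/-- the vertices which are not yet covered -/
def rem (E H : α → β → Bool) (d : ℕ) (S T : Finset α) : Finset β :=
  (nb E S \ nb E T) \ few E H d S

theorem step {E H : α → β → Bool} {d : ℕ} (hle : ∀ v b, H v b = true → E v b = true) (hd : 1 ≤ d)
    {N X : ℕ} (hN : Fintype.card α = N) (hX : N ≤ X * d) {S T : Finset α}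
    (hne : (rem E H d S T).Nonempty) :
    ∃ v ∈ S, 16 * X * (rem E H d S (insert v T)).card + (rem E H d S T).card ≤
      16 * X * (rem E H d S T).card := by
  by_contra hcon
  push Not at hcon
  -- the number of the covered vertices
  have h1 : ∀ v ∈ S, (rem E H d S (insert v T)).card +
      ((rem E H d S T).filter fun b => H v b = true).card ≤ (rem E H d S T).card := by
    intro v _
    have hsub : rem E H d S (insert v T) ⊆ (rem E H d S T).filter fun b => ¬ H v b = true := by
      intro b hb
      unfold rem at hb ⊢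
      rw [Finset.mem_sdiff, Finset.mem_sdiff] at hb
      rw [Finset.mem_filter, Finset.mem_sdiff, Finset.mem_sdiff]
      have h2 : b ∉ nb E T ∧ ¬ E v b = true := by
        refine ⟨fun h => hb.1.2 ?_, fun h => hb.1.2 ?_⟩
        · obtain ⟨w, hw, hwb⟩ := (Finset.mem_filter.1 h).2
          exact Finset.mem_filter.2 ⟨Finset.mem_univ _, w, Finset.mem_insert_of_mem hw, hwb⟩
        · exact Finset.mem_filter.2 ⟨Finset.mem_univ _, v, Finset.mem_insert_self _ _, h⟩
      exact ⟨⟨⟨hb.1.1, h2.1⟩, hb.2⟩, fun h => h2.2 (hle v b h)⟩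
    have h3 := Finset.card_le_card hsub
    have h4 := Finset.card_filter_add_card_filter_not (s := rem E H d S T) (fun b => H v b = true)
    omega
  have h2 : ∀ v ∈ S, 16 * X * ((rem E H d S T).filter fun b => H v b = true).card <
      (rem E H d S T).card := by
    intro v hv
    have h3 := hcon v hv
    have h4 := Nat.mul_le_mul_left (16 * X) (h1 v hv)
    rw [Nat.mul_add] at h4
    omega
  have h3 : ∑ b ∈ rem E H d S T, (S.filter fun v => H v b = true).card =
      ∑ v ∈ S, ((rem E H d S T).filter fun b => H v b = true).card := by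
    simp only [Finset.card_filter]
    exact Finset.sum_comm
  have h4 : (rem E H d S T).card * d ≤
      16 * ∑ b ∈ rem E H d S T, (S.filter fun v => H v b = true).card := by
    rw [Finset.mul_sum, ← smul_eq_mul, ← Finset.sum_const]
    refine Finset.sum_le_sum fun b hb => ?_
    by_contra hlt
    rw [not_le] at hlt
    unfold rem at hb
    rw [Finset.mem_sdiff, Finset.mem_sdiff] at hb
    exact hb.2 (Finset.mem_filter.2 ⟨hb.1.1, hlt⟩)
  have hS : S.card ≤ X * d := by
    refine le_trans ?_ hX
    rw [← hN]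
    exact Finset.card_le_univ S
  obtain ⟨b, hb⟩ := hne
  have hSne : S.Nonempty := by
    unfold rem at hb
    rw [Finset.mem_sdiff, Finset.mem_sdiff] at hb
    obtain ⟨w, hw, -⟩ := (Finset.mem_filter.1 hb.1.1).2
    exact ⟨w, hw⟩
  have h5 : 16 * X * ∑ v ∈ S, ((rem E H d S T).filter fun b => H v b = true).card <
      S.card * (rem E H d S T).card := by
    rw [Finset.mul_sum]
    calc ∑ v ∈ S, 16 * X * ((rem E H d S T).filter fun b => H v b = true).card <
          ∑ _v ∈ S, (rem E H d S T).card := Finset.sum_lt_sum_of_nonempty hSne fun v hv => h2 v hv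
      _ = S.card * (rem E H d S T).card := by rw [Finset.sum_const, smul_eq_mul]
  rw [h3] at h4
  have h6 := Nat.mul_le_mul_left X h4
  have h7 := Nat.mul_le_mul_right (rem E H d S T).card hS
  have h8 : X * ((rem E H d S T).card * d) = X * d * (rem E H d S T).card := by ring
  have h9 : X * (16 * ∑ v ∈ S, ((rem E H d S T).filter fun b => H v b = true).card) =
      16 * X * ∑ v ∈ S, ((rem E H d S T).filter fun b => H v b = true).card := by ring
  omega

theorem greedy {E H : α → β → Bool} {d : ℕ} (hle : ∀ v b, H v b = true → E v b = true)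
    (hd : 1 ≤ d) {N X : ℕ} (hN : Fintype.card α = N) (hNβ : Fintype.card β = N) (hX : N ≤ X * d)
    (S : Finset α) (j : ℕ) : ∃ T ⊆ S, T.card ≤ j ∧
      (rem E H d S T).card * (16 * X) ^ j ≤ N * (16 * X - 1) ^ j := by
  induction j with
  | zero =>
    refine ⟨∅, Finset.empty_subset _, by simp, ?_⟩
    rw [pow_zero, pow_zero, mul_one, mul_one, ← hNβ]
    exact Finset.card_le_univ _
  | succ j ih =>
    obtain ⟨T, hT, hTc, h⟩ := ih
    by_cases hne : (rem E H d S T).Nonempty
    · obtain ⟨v, hv, hstep⟩ := step hle hd hN hX hne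
      refine ⟨insert v T, Finset.insert_subset hv hT, (Finset.card_insert_le _ _).trans
        (by omega), ?_⟩
      have h1 : 16 * X * (rem E H d S (insert v T)).card ≤
          (16 * X - 1) * (rem E H d S T).card := by
        rw [Nat.sub_mul, one_mul]
        omega
      calc (rem E H d S (insert v T)).card * (16 * X) ^ (j + 1) =
            16 * X * (rem E H d S (insert v T)).card * (16 * X) ^ j := by ring
        _ ≤ (16 * X - 1) * (rem E H d S T).card * (16 * X) ^ j := Nat.mul_le_mul_right _ h1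
        _ = (16 * X - 1) * ((rem E H d S T).card * (16 * X) ^ j) := by ring
        _ ≤ (16 * X - 1) * (N * (16 * X - 1) ^ j) := Nat.mul_le_mul_left _ h
        _ = N * (16 * X - 1) ^ (j + 1) := by ring
    · rw [Finset.not_nonempty_iff_eq_empty] at hne
      refine ⟨T, hT, by omega, ?_⟩
      rw [hne]
      simp

theorem two_mul_pow_le {M : ℕ} (hM : 2 ≤ M) : 2 * (M - 1) ^ M ≤ M ^ M := by
  obtain ⟨m, rfl⟩ : ∃ m, M = m + 1 := ⟨M - 1, by omega⟩
  have h1 : (m + 1) ^ (m + 1) = ∑ i ∈ Finset.range (m + 2), m ^ i * (m + 1).choose i := by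
    rw [add_pow]
    simp
  rw [h1, Finset.sum_range_succ, Finset.sum_range_succ, Nat.choose_self, mul_one,
    Nat.add_sub_cancel]
  have h2 : (m + 1).choose m = m + 1 := by
    rw [Nat.choose_symm_of_eq_add (show m + 1 = m + 1 from rfl), Nat.choose_one_right]
  rw [h2]
  have h3 : m ^ m * (m + 1) = m ^ (m + 1) + m ^ m := by ring
  rw [h3]
  omega

theorem pow_lt {N M τ : ℕ} (hM : 2 ≤ M) (hτ : M * szK N ≤ τ) : N * (M - 1) ^ τ < M ^ τ := by
  obtain ⟨e, rfl⟩ : ∃ e, τ = M * szK N + e := ⟨τ - M * szK N, by omega⟩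
  have h1 : N < 2 ^ szK N := by
    have := Nat.lt_size_self (N + 1)
    unfold szK
    omega
  have h2 : 2 ^ szK N * (M - 1) ^ (M * szK N) ≤ M ^ (M * szK N) := by
    rw [pow_mul, pow_mul, ← mul_pow]
    exact Nat.pow_le_pow_left (two_mul_pow_le hM) _
  have hpos : 0 < (M - 1) ^ (M * szK N + e) := by
    have : 0 < M - 1 := by omega
    positivity
  calc N * (M - 1) ^ (M * szK N + e) < 2 ^ szK N * (M - 1) ^ (M * szK N + e) :=
        Nat.mul_lt_mul_of_pos_right h1 hpos
    _ = 2 ^ szK N * (M - 1) ^ (M * szK N) * (M - 1) ^ e := by rw [pow_add]; ring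
    _ ≤ M ^ (M * szK N) * M ^ e :=
        Nat.mul_le_mul h2 (Nat.pow_le_pow_left (by omega) _)
    _ = M ^ (M * szK N + e) := by rw [pow_add]

end CovKAux

open CovKAux

theorem exists_cover {E H : α → β → Bool} {d : ℕ} (hH : Reg H d)
    (hle : ∀ v b, H v b = true → E v b = true) (hd : 1 ≤ d) {N X τ : ℕ}
    (hN : Fintype.card α = N) (hX : N ≤ X * d) (hX1 : 1 ≤ X) (hτ : 16 * X * szK N ≤ τ)
    (S : Finset α) : ∃ T ⊆ S, T.card ≤ τ ∧ nb E S \ nb E T ⊆ few E H d S := by
  have hNβ : Fintype.card β = N := by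
    rw [← hN]
    exact (card_eq hH hd).symm
  obtain ⟨T, hT, hTc, h⟩ := greedy hle hd hN hNβ hX S τ
  refine ⟨T, hT, hTc, ?_⟩
  have h1 := pow_lt (N := N) (M := 16 * X) (by omega) hτ
  have h2 : (rem E H d S T).card = 0 := by
    by_contra h0
    have h3 : (16 * X) ^ τ ≤ (rem E H d S T).card * (16 * X) ^ τ :=
      Nat.le_mul_of_pos_left _ (Nat.pos_of_ne_zero h0)
    omega
  rw [Finset.card_eq_zero] at h2
  unfold rem at h2
  exact Finset.sdiff_eq_empty_iff_subset.1 h2

theorem card_small_subsets (γ : Type) [Fintype γ] [DecidableEq γ] (m : ℕ) :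
    ((univ : Finset (Finset γ)).filter fun T => T.card ≤ m).card ≤ (Fintype.card γ + 1) ^ m := by
  have hsub : ((univ : Finset (Finset γ)).filter fun T => T.card ≤ m) ⊆
      (univ : Finset (Fin m → Option γ)).image fun f => univ.filter fun x => ∃ i, f i = some x := by
    intro T hT
    have hT' := (Finset.mem_filter.1 hT).2
    refine Finset.mem_image.2 ⟨fun i => if h : (i : ℕ) < T.card then
      some (T.equivFin.symm ⟨i, h⟩ : γ) else none, Finset.mem_univ _, ?_⟩
    ext x
    rw [Finset.mem_filter]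
    constructor
    · rintro ⟨-, i, hi⟩
      dsimp only at hi
      split_ifs at hi with h
      rw [← Option.some_injective _ hi]
      exact Subtype.coe_prop _
    · intro hx
      refine ⟨Finset.mem_univ _, ⟨T.equivFin ⟨x, hx⟩, (T.equivFin ⟨x, hx⟩).2.trans_le hT'⟩, ?_⟩
      dsimp only
      rw [dif_pos (T.equivFin ⟨x, hx⟩).2]
      simp
  refine (Finset.card_le_card hsub).trans (Finset.card_image_le.trans ?_)
  rw [Finset.card_univ, Fintype.card_fun, Fintype.card_fin, Fintype.card_option]

theorem card_nbs {E H : α → β → Bool} {d : ℕ} (hH : Reg H d)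
    (hle : ∀ v b, H v b = true → E v b = true) (hd : 1 ≤ d) {N X τ l : ℕ}
    (hN : Fintype.card α = N) (hX : N ≤ X * d) (hX1 : 1 ≤ X) (hτ : 16 * X * szK N ≤ τ) :
    (((univ : Finset (Finset α)).filter fun S => (few E H d S).card ≤ l).image (nb E)).card ≤
      (N + 1) ^ (τ + l) := by
  have hNβ : Fintype.card β = N := by
    rw [← hN]
    exact (card_eq hH hd).symm
  have hsub : (((univ : Finset (Finset α)).filter fun S => (few E H d S).card ≤ l).image (nb E)) ⊆
      ((((univ : Finset (Finset α)).filter fun T => T.card ≤ τ) ×ˢ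
        ((univ : Finset (Finset β)).filter fun T => T.card ≤ l)).image
          fun x => nb E x.1 ∪ x.2) := by
    intro Y hY
    obtain ⟨S, hS, rfl⟩ := Finset.mem_image.1 hY
    obtain ⟨T, hTS, hTc, hT⟩ := exists_cover hH hle hd hN hX hX1 hτ S
    refine Finset.mem_image.2 ⟨(T, nb E S \ nb E T), ?_, ?_⟩
    · rw [Finset.mem_product]
      exact ⟨Finset.mem_filter.2 ⟨Finset.mem_univ _, hTc⟩, Finset.mem_filter.2
        ⟨Finset.mem_univ _, (Finset.card_le_card hT).trans (Finset.mem_filter.1 hS).2⟩⟩
    · refine Finset.union_sdiff_of_subset fun b hb => ?_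
      obtain ⟨w, hw, hwb⟩ := (Finset.mem_filter.1 hb).2
      exact Finset.mem_filter.2 ⟨Finset.mem_univ _, w, hTS hw, hwb⟩
  refine (Finset.card_le_card hsub).trans (Finset.card_image_le.trans ?_)
  rw [Finset.card_product, pow_add]
  refine Nat.mul_le_mul ?_ ?_
  · have := card_small_subsets α τ
    rwa [hN] at this
  · have := card_small_subsets β l
    rwa [hNβ] at this

end Pool.Agent.Lib.SubBisK
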