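import Pool.Agent.Lib.SubBisK.SubK

/-!
# SubBisK.GhK (MP_a7c826_lc, Theorem K): the completed graph
-/

set_option autoImplicit false

namespace Pool.Agent.Lib.SubBisK

open Finset

variable {α β : Type} [Fintype α] [Fintype β] [DecidableEq α] [DecidableEq β]

theorem gh_eq_true {E : α → β → Bool} {D : ℕ} {v : α} {b : β} :
    gh E D v b = true ↔ ∀ U : Finset α, df E U ≤ D → v ∈ U → b ∈ nb E U := by
  unfold gh
  simp only [decide_eq_true_eq]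
  constructor
  · intro h U h1 h2
    by_contra h3
    exact h ⟨U, h2, h3, h1⟩
  · rintro h ⟨U, h2, h3, h1⟩
    exact h3 (h U h1 h2)

theorem gh_iff {E : α → β → Bool} {D : ℕ} {v : α} {b : β} :
    gh E D v b = true ↔ ∀ U ∈ fam E D, v ∈ U → b ∈ nb E U := by
  rw [gh_eq_true]
  constructor
  · intro h U hU
    exact h U (mem_fam.1 hU).2
  · intro h U h1 h2
    rw [← nb_clo]
    exact h (clo E U) (mem_fam.2 ⟨clo_clo E U, (df_clo_le E U).trans h1⟩) (sub_clo E U h2)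

theorem gh_of_adj {E : α → β → Bool} {D : ℕ} {v : α} {b : β} (h : E v b = true) :
    gh E D v b = true :=
  gh_iff.2 fun _ _ hv => mem_nb.2 ⟨v, hv, h⟩

theorem reg_tr {E : α → β → Bool} {d : ℕ} (hE : Reg E d) : Reg (tr E) d := ⟨hE.2, hE.1⟩

theorem twin_of {E : α → β → Bool} {D : ℕ} {v v' : α}
    (h : ∀ U ∈ fam E D, (v ∈ U ↔ v' ∈ U)) (b : β) : gh E D v b = gh E D v' b := by
  rw [Bool.eq_iff_iff, gh_iff, gh_iff]
  exact ⟨fun h1 U hU hv => h1 U hU ((h U hU).2 hv), fun h1 U hU hv => h1 U hU ((h U hU).1 hv)⟩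

theorem twin_ofR {E : α → β → Bool} {D : ℕ} {b b' : β}
    (h : ∀ U ∈ fam E D, (b ∈ nb E U ↔ b' ∈ nb E U)) (v : α) : gh E D v b = gh E D v b' := by
  rw [Bool.eq_iff_iff, gh_iff, gh_iff]
  exact ⟨fun h1 U hU hv => (h U hU).1 (h1 U hU hv), fun h1 U hU hv => (h U hU).2 (h1 U hU hv)⟩

theorem not_twin {E : α → β → Bool} {D : ℕ} {U : Finset α} (hU : U ∈ fam E D) {v v' : α}
    (hv : v ∈ U) (hv' : v' ∉ U) : ∃ b, gh E D v b ≠ gh E D v' b := by
  rw [← (mem_fam.1 hU).1, mem_clo] at hv'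
  push Not at hv'
  obtain ⟨b, h1, h2⟩ := hv'
  refine ⟨b, fun h => h2 ?_⟩
  rw [gh_of_adj h1] at h
  exact gh_iff.1 h U hU hv

theorem not_twinR {E : α → β → Bool} {D : ℕ} {U : Finset α} (hU : U ∈ fam E D) {b b' : β}
    (hb : b ∈ nb E U) (hb' : b' ∉ nb E U) : ∃ v, gh E D v b ≠ gh E D v b' := by
  obtain ⟨v, hv, h1⟩ := mem_nb.1 hb
  refine ⟨v, fun h => hb' ?_⟩
  rw [gh_of_adj h1] at h
  exact gh_iff.1 h.symm U hU hv

theorem bis_of_tight {E : α → β → Bool} {D : ℕ} {v : α} {b : β}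
    (h : ∀ U ∈ fam E D, (v ∈ U ↔ b ∈ nb E U)) : Bis (gh E D) v b := by
  refine ⟨gh_iff.2 fun U hU hv => (h U hU).1 hv, fun w b' h1 h2 => gh_iff.2 fun U hU hw => ?_⟩
  exact gh_iff.1 h2 U hU ((h U hU).2 (gh_iff.1 h1 U hU hw))

/-- bisimplicial partners are twins -/
theorem bis_iff_twinR {Γ : α → β → Bool} {v : α} {b b' : β} (h : Bis Γ v b) :
    Bis Γ v b' ↔ ∀ w, Γ w b = Γ w b' := by
  constructor
  · intro h' w
    rw [Bool.eq_iff_iff]
    exact ⟨fun h1 => h.2 w b' h1 h'.1, fun h1 => h'.2 w b h1 h.1⟩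
  · intro h1
    refine ⟨by rw [← h1]; exact h.1, fun w c h2 h3 => h.2 w c (by rw [h1]; exact h2) h3⟩

theorem bis_iff_twinL {Γ : α → β → Bool} {v v' : α} {b : β} (h : Bis Γ v b) :
    Bis Γ v' b ↔ ∀ c, Γ v c = Γ v' c := by
  constructor
  · intro h' c
    rw [Bool.eq_iff_iff]
    exact ⟨fun h1 => h.2 v' c h'.1 h1, fun h1 => h'.2 v c h.1 h1⟩
  · intro h1
    refine ⟨by rw [← h1]; exact h.1, fun w c h2 h3 => h.2 w c h2 (by rw [h1]; exact h3)⟩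

theorem bis_tr {Γ : α → β → Bool} {v : α} {b : β} : Bis (tr Γ) b v ↔ Bis Γ v b :=
  ⟨fun h => ⟨h.1, fun w c h1 h2 => h.2 c w h2 h1⟩, fun h => ⟨h.1, fun w c h1 h2 => h.2 c w h2 h1⟩⟩

theorem ip_mono {Γ Γ' : α → β → Bool} (h : ∀ v b, Γ v b = true → Γ' v b = true)
    (X : Finset α) (Y : Finset β) : ip Γ' X Y ≤ ip Γ X Y := by
  unfold ip
  refine card_le_card fun x hx => ?_
  rw [mem_filter] at hx ⊢
  refine ⟨hx.1, fun v hv b hb => ?_⟩
  have h1 := hx.2 v hv b hb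
  cases h2 : Γ v b
  · rfl
  · rw [h v b h2] at h1
    exact h1

end Pool.Agent.Lib.SubBisK
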