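import Pool.Agent.Lib.SubBisK.FewK
import Pool.Agent.Lib.SubBisK.CovK
import Pool.Agent.Lib.SubBisK.GhK

/-!
# MODULE SubBisK.MassK: the completed graph has almost all independent sets ((1d), (1e), (2b); est. 1.3 h)

PROOF. `ip_eq`: sum over `S` of the number of `J ⊆ β \ N(S)`. An independent set `(S, J)` of `E` with
`df E (clo E S) ≤ D` is independent in `gh E D` (`v ∈ S ⊆ clo E S`, `b ∉ N(S)`: `Comp`). The others:
`|few| > l`: by `few_sum` at most `2 ^ (N + 3 N / d - l / 4)`; `|few| ≤ l`, `df (clo S) > D`: for each of the at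
most `(N+1)^(τ+l)` sets `E0 = N(S)` at most `2^|A0|` sets `S` with `N(S) = E0`, `A0 = {v : N(v) ⊆ E0} = clo E S`,
each with `2^(N - |E0|)` sets `J`: `2^(N - df (clo S)) ≤ 2^(N - D)`. `ip E univ univ ≥ 2^N` (`card β = N`).
-/

set_option autoImplicit false

namespace Pool.Agent.Lib.SubBisK

open Finset

variable {α β : Type} [Fintype α] [Fintype β] [DecidableEq α] [DecidableEq β]

theorem ip_eq (E : α → β → Bool) :
    ip E univ univ = ∑ S : Finset α, 2 ^ (univ \ nb E S).card := by
  classical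
  unfold ip
  rw [Finset.powerset_univ, Finset.powerset_univ, Finset.card_filter, Finset.sum_product]
  refine Finset.sum_congr rfl fun S _ => ?_
  rw [← Finset.card_filter, ← Finset.card_powerset]
  congr 1
  ext J
  rw [mem_filter, mem_powerset]
  constructor
  · intro h b hb
    rw [mem_sdiff]
    refine ⟨mem_univ _, fun hb' => ?_⟩
    obtain ⟨v, hv, hvb⟩ := mem_nb.1 hb'
    have := h.2 v hv b hb
    rw [this] at hvb
    exact absurd hvb (by simp)
  · intro h
    refine ⟨mem_univ _, fun v hv b hb => ?_⟩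
    have h1 := (mem_sdiff.1 (h hb)).2
    by_contra h2
    exact h1 (mem_nb.2 ⟨v, hv, by simpa using h2⟩)

theorem ip_gh_le (E : α → β → Bool) (D : ℕ) : ip (gh E D) univ univ ≤ ip E univ univ :=
  ip_mono (fun _ _ h => gh_of_adj h) univ univ

namespace MassKAux

/-- the neighbourhoods in the completed graph -/
theorem nb_gh {E : α → β → Bool} {D : ℕ} {S : Finset α} (h : df E (clo E S) ≤ D) :
    nb (gh E D) S = nb E S := by
  classical
  ext b
  rw [mem_nb, mem_nb]
  constructor
  · rintro ⟨v, hv, hvb⟩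
    by_contra h1
    have h2 : Comp E D v b := by
      refine ⟨clo E S, sub_clo E S hv, ?_, h⟩
      rw [nb_clo]
      intro h3
      exact h1 (mem_nb.1 h3)
    unfold gh at hvb
    exact (of_decide_eq_true hvb) h2
  · rintro ⟨v, hv, hvb⟩
    exact ⟨v, hv, gh_of_adj hvb⟩

theorem pow_nb {E : α → β → Bool} {N : ℕ} (hN : Fintype.card β = N) (S : Finset α) :
    (2:ℝ) ^ (univ \ nb E S).card = (2:ℝ) ^ ((N:ℝ) - (nb E S).card) := by
  have h1 : (nb E S).card ≤ N := by
    rw [← hN]
    exact Finset.card_le_univ _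
  have h2 : (univ \ nb E S).card = N - (nb E S).card := by
    rw [Finset.card_sdiff_of_subset (Finset.subset_univ _), Finset.card_univ, hN]
  rw [h2, ← Real.rpow_natCast, Nat.cast_sub h1]

theorem diff_le (E : α → β → Bool) (D : ℕ) :
    (ip E univ univ : ℝ) - ip (gh E D) univ univ ≤
      ∑ S ∈ (univ : Finset (Finset α)).filter (fun S => (D:ℤ) < df E (clo E S)),
        (2:ℝ) ^ (univ \ nb E S).card := by
  classical
  rw [ip_eq, ip_eq]
  push_cast
  rw [← Finset.sum_sub_distrib, Finset.sum_filter]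
  refine Finset.sum_le_sum fun S _ => ?_
  split_ifs with h
  · have : (0:ℝ) ≤ 2 ^ (univ \ nb (gh E D) S).card := by positivity
    linarith
  · rw [nb_gh (not_lt.1 h)]
    simp

theorem part_one {E H : α → β → Bool} {d : ℕ} (hH : Reg H d)
    (hle : ∀ v b, H v b = true → E v b = true) (hd : 1 ≤ d) {N : ℕ}
    (hN : Fintype.card α = N) (l : ℕ) :
    ∑ S ∈ (univ : Finset (Finset α)).filter (fun S => l < (few E H d S).card),
        (2:ℝ) ^ (univ \ nb E S).card ≤
      2 ^ N * (2:ℝ) ^ (3 * ((N : ℝ) / d) - (l : ℝ) / 4) := by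
  classical
  have hNb : Fintype.card β = N := by rw [← card_eq hH hd, hN]
  have h1 : ∀ S ∈ (univ : Finset (Finset α)).filter (fun S => l < (few E H d S).card),
      (2:ℝ) ^ (univ \ nb E S).card ≤ (2:ℝ) ^ ((N:ℝ) - (l:ℝ) / 4) *
        (2:ℝ) ^ (((few E H d S).card : ℝ) / 4 - ((nb E S).card : ℝ)) := by
    intro S hS
    have h2 := (mem_filter.1 hS).2
    have h3 : (l:ℝ) ≤ (few E H d S).card := by exact_mod_cast h2.le
    rw [pow_nb hNb, ← Real.rpow_add (by norm_num)]
    exact Real.rpow_le_rpow_of_exponent_le (by norm_num) (by linarith)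
  refine (Finset.sum_le_sum h1).trans ?_
  rw [← Finset.mul_sum]
  have h4 : ∑ S ∈ (univ : Finset (Finset α)).filter (fun S => l < (few E H d S).card),
      (2:ℝ) ^ (((few E H d S).card : ℝ) / 4 - ((nb E S).card : ℝ)) ≤
      2 ^ (3 * ((N : ℝ) / d)) := by
    have h5 := few_sum hH hle hd
    rw [hN] at h5
    refine le_trans ?_ h5
    refine Finset.sum_le_sum_of_subset_of_nonneg (Finset.filter_subset _ _) fun S _ _ => ?_
    exact Real.rpow_nonneg (by norm_num) _
  refine (mul_le_mul_of_nonneg_left h4 (Real.rpow_nonneg (by norm_num) _)).trans (le_of_eq ?_)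
  rw [← Real.rpow_add (by norm_num), ← Real.rpow_natCast 2 N, ← Real.rpow_add (by norm_num)]
  congr 1
  ring

theorem part_two {E H : α → β → Bool} {d : ℕ} (hH : Reg H d)
    (hle : ∀ v b, H v b = true → E v b = true) (hd : 1 ≤ d) {N X τ l D : ℕ}
    (hN : Fintype.card α = N) (hX : N ≤ X * d) (hX1 : 1 ≤ X) (hτ : 16 * X * szK N ≤ τ) :
    ∑ S ∈ (univ : Finset (Finset α)).filter
        (fun S => (few E H d S).card ≤ l ∧ (D:ℤ) < df E (clo E S)),
        (2:ℝ) ^ (univ \ nb E S).card ≤
      2 ^ N * (((N : ℝ) + 1) ^ (τ + l) * (1 / 2) ^ D) := by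
  classical
  have hNb : Fintype.card β = N := by rw [← card_eq hH hd, hN]
  set F := (univ : Finset (Finset α)).filter
        (fun S => (few E H d S).card ≤ l ∧ (D:ℤ) < df E (clo E S)) with hF
  have hmaps : ∀ S ∈ F, nb E S ∈ F.image (nb E) := fun S hS => mem_image_of_mem _ hS
  rw [← Finset.sum_fiberwise_of_maps_to hmaps]
  have h1 : ∀ E0 ∈ F.image (nb E),
      ∑ S ∈ F.filter (fun S => nb E S = E0), (2:ℝ) ^ (univ \ nb E S).card ≤
        2 ^ N * (1 / 2) ^ D := by
    intro E0 hE0
    obtain ⟨S0, hS0, hE⟩ := mem_image.1 hE0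
    have hdf := (mem_filter.1 hS0).2.2
    have hsub : F.filter (fun S => nb E S = E0) ⊆ (clo E S0).powerset := by
      intro S hS
      have h2 := (mem_filter.1 hS).2
      rw [mem_powerset]
      intro v hv
      rw [mem_clo]
      intro b hb
      rw [hE, ← h2]
      exact mem_nb.2 ⟨v, hv, hb⟩
    have h2 : ∑ S ∈ F.filter (fun S => nb E S = E0), (2:ℝ) ^ (univ \ nb E S).card =
        ((F.filter (fun S => nb E S = E0)).card : ℝ) * 2 ^ (N - E0.card) := by
      rw [← nsmul_eq_mul, ← Finset.sum_const]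
      refine Finset.sum_congr rfl fun S hS => ?_
      rw [(mem_filter.1 hS).2, Finset.card_sdiff_of_subset (Finset.subset_univ _),
        Finset.card_univ, hNb]
    have h3 : ((F.filter (fun S => nb E S = E0)).card : ℝ) ≤ 2 ^ (clo E S0).card := by
      have := Finset.card_le_card hsub
      rw [Finset.card_powerset] at this
      exact_mod_cast this
    have h4 : E0.card ≤ N := by
      rw [← hNb]
      exact Finset.card_le_univ _
    have h5 : (clo E S0).card + D ≤ E0.card := by
      unfold df at hdf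
      rw [nb_clo, hE] at hdf
      omega
    rw [h2]
    calc ((F.filter (fun S => nb E S = E0)).card : ℝ) * 2 ^ (N - E0.card)
        ≤ 2 ^ (clo E S0).card * 2 ^ (N - E0.card) :=
          mul_le_mul_of_nonneg_right h3 (by positivity)
      _ = 2 ^ ((clo E S0).card + (N - E0.card)) := by rw [pow_add]
      _ ≤ 2 ^ (N - D) := pow_le_pow_right₀ (by norm_num) (by omega)
      _ = 2 ^ N * (1 / 2) ^ D := by
          have h6 : (2:ℝ) ^ N = 2 ^ (N - D) * 2 ^ D := by
            rw [← pow_add]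
            congr 1
            omega
          rw [h6, mul_assoc, ← mul_pow]
          norm_num
  refine (Finset.sum_le_card_nsmul _ _ _ h1).trans ?_
  rw [nsmul_eq_mul]
  have h2 : ((F.image (nb E)).card : ℝ) ≤ ((N:ℝ) + 1) ^ (τ + l) := by
    have h3 := card_nbs (l := l) hH hle hd hN hX hX1 hτ
    have h4 : (F.image (nb E)).card ≤
        (((univ : Finset (Finset α)).filter fun S => (few E H d S).card ≤ l).image (nb E)).card := by
      refine Finset.card_le_card (Finset.image_subset_image ?_)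
      intro S hS
      rw [mem_filter] at hS ⊢
      exact ⟨hS.1, hS.2.1⟩
    exact_mod_cast h4.trans h3
  calc ((F.image (nb E)).card : ℝ) * (2 ^ N * (1 / 2) ^ D)
      ≤ ((N:ℝ) + 1) ^ (τ + l) * (2 ^ N * (1 / 2) ^ D) :=
        mul_le_mul_of_nonneg_right h2 (by positivity)
    _ = 2 ^ N * (((N : ℝ) + 1) ^ (τ + l) * (1 / 2) ^ D) := by ring

theorem two_pow_le {E : α → β → Bool} {N : ℕ} (hN : Fintype.card β = N) :
    (2:ℝ) ^ N ≤ ip E univ univ := by
  classical
  rw [ip_eq]
  have h1 : nb E (∅ : Finset α) = ∅ := by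
    ext b
    rw [mem_nb]
    simp
  have h2 : 2 ^ (univ \ nb E (∅ : Finset α)).card ≤ ∑ S : Finset α, 2 ^ (univ \ nb E S).card :=
    Finset.single_le_sum (f := fun S : Finset α => 2 ^ (univ \ nb E S).card)
      (fun S _ => Nat.zero_le _) (mem_univ _)
  rw [h1, Finset.sdiff_empty, Finset.card_univ, hN] at h2
  exact_mod_cast h2

end MassKAux

open MassKAux in
theorem mass {E H : α → β → Bool} {d : ℕ} (hH : Reg H d)
    (hle : ∀ v b, H v b = true → E v b = true) (hd : 1 ≤ d) {N X τ l D : ℕ}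
    (hN : Fintype.card α = N) (hX : N ≤ X * d) (hX1 : 1 ≤ X) (hτ : 16 * X * szK N ≤ τ) :
    (ip E univ univ : ℝ) - ip (gh E D) univ univ ≤
      ((2 : ℝ) ^ (3 * ((N : ℝ) / d) - (l : ℝ) / 4) + ((N : ℝ) + 1) ^ (τ + l) * (1 / 2) ^ D) *
        ip E univ univ := by
  classical
  have hNb : Fintype.card β = N := by rw [← card_eq hH hd, hN]
  have h1 := diff_le E D
  have h2 : ∑ S ∈ (univ : Finset (Finset α)).filter (fun S => (D:ℤ) < df E (clo E S)),
        (2:ℝ) ^ (univ \ nb E S).card ≤
      ∑ S ∈ (univ : Finset (Finset α)).filter (fun S => l < (few E H d S).card),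
        (2:ℝ) ^ (univ \ nb E S).card +
      ∑ S ∈ (univ : Finset (Finset α)).filter
        (fun S => (few E H d S).card ≤ l ∧ (D:ℤ) < df E (clo E S)),
        (2:ℝ) ^ (univ \ nb E S).card := by
    rw [Finset.sum_filter, Finset.sum_filter, Finset.sum_filter, ← Finset.sum_add_distrib]
    refine Finset.sum_le_sum fun S _ => ?_
    have h3 : (0:ℝ) ≤ 2 ^ (univ \ nb E S).card := by positivity
    by_cases h4 : l < (few E H d S).card
    · have h5 : ¬ ((few E H d S).card ≤ l ∧ (D:ℤ) < df E (clo E S)) := fun h => by omega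
      rw [if_pos h4, if_neg h5, add_zero]
      split_ifs
      · exact le_rfl
      · exact h3
    · rw [if_neg h4, zero_add]
      by_cases h5 : (D:ℤ) < df E (clo E S)
      · rw [if_pos h5, if_pos ⟨not_lt.1 h4, h5⟩]
      · rw [if_neg h5]
        split_ifs
        · exact h3
        · exact le_rfl
  have h3 := part_one hH hle hd hN l
  have h4 := part_two (l := l) (D := D) hH hle hd hN hX hX1 hτ
  have h5 := two_pow_le (E := E) hNb
  have h6 : (0:ℝ) ≤ (2 : ℝ) ^ (3 * ((N : ℝ) / d) - (l : ℝ) / 4) +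
      ((N : ℝ) + 1) ^ (τ + l) * (1 / 2) ^ D :=
    add_nonneg (Real.rpow_nonneg (by norm_num) _) (by positivity)
  have h7 := mul_le_mul_of_nonneg_left h5 h6
  have h8 : ((2 : ℝ) ^ (3 * ((N : ℝ) / d) - (l : ℝ) / 4) +
      ((N : ℝ) + 1) ^ (τ + l) * (1 / 2) ^ D) * 2 ^ N =
      2 ^ N * (2:ℝ) ^ (3 * ((N : ℝ) / d) - (l : ℝ) / 4) +
      2 ^ N * (((N : ℝ) + 1) ^ (τ + l) * (1 / 2) ^ D) := by ring
  rw [h8] at h7
  linarith

end Pool.Agent.Lib.SubBisK
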