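import Pool.Agent.Lib.SubBisK.Defs

/-!
# MODULE SubBisK.ParK: the parameters (`N` = number of left vertices, `N ≤ X d`, `t` = precision)

Elementary inequalities (`DK X N t ≤ polynomial in X, szK N, lg t`; `szK N = (N + 1).size`,
`N + 1 < 2 ^ szK N`; `t < 2 ^ lg t`, `lg t = Nat.log 2 t + 1 = t.size` for `1 ≤ t`).
`exists_c`: with `z = s.size + (2 * N).size + t.size + 1 ≥ 4` all quantities are at most powers of `z`
(`k ≤ z ^ k` for numbers `k`); e.g. `c = 120`.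
-/

set_option autoImplicit false

namespace Pool.Agent.Lib.SubBisK

open Pool.Agent.Lib.P7sG

/-- the bound for the number of vertices outside the blocks -/
def LamP (X N t : ℕ) : ℕ := 2 ^ 20 * X ^ 5 * DK X N t ^ 2

/-- the size of the blocks of the kernel -/
def SP (X N t : ℕ) : ℕ := (8 * X + 4) * (LamP X N t + 2) + 2 * szK N + lg t + 40

/-- the condition for the kernel -/
def condP (X N t : ℕ) : Bool :=
  decide (X * (2 ^ 22 * X ^ 4 * DK X N t ^ 2 + 32 * SP X N t) ≤ N)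

theorem DK_pos (X N t : ℕ) : 1 ≤ DK X N t := by
  unfold DK
  omega

/-- the condition gives a lower bound for the degree -/
theorem of_condP {X N t d : ℕ} (h : condP X N t = true) (hX1 : 1 ≤ X) (hX : N ≤ X * d) :
    2 ^ 22 * X ^ 4 * DK X N t ^ 2 ≤ d ∧ 32 * SP X N t ≤ d := by
  have h1 : X * (2 ^ 22 * X ^ 4 * DK X N t ^ 2 + 32 * SP X N t) ≤ X * d :=
    (of_decide_eq_true h).trans hX
  have h2 := Nat.le_of_mul_le_mul_left h1 hX1
  exact ⟨(Nat.le_add_right _ _).trans h2, (Nat.le_add_left _ _).trans h2⟩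

theorem SP_ge {X N t r : ℕ} (hr : r ≤ 8 * X) :
    (r + 2) * (LamP X N t + 2) + szK N + (lg t + 10) + 4 ≤ SP X N t := by
  have h1 : (r + 2) * (LamP X N t + 2) ≤ (8 * X + 4) * (LamP X N t + 2) :=
    Nat.mul_le_mul_right _ (by omega)
  unfold SP
  omega

theorem two_LamP_le {X N t : ℕ} (hX1 : 1 ≤ X) : 4 * LamP X N t + 4 ≤ SP X N t := by
  have h1 : 12 * (LamP X N t + 2) ≤ (8 * X + 4) * (LamP X N t + 2) :=
    Nat.mul_le_mul_right _ (by omega)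
  unfold SP
  omega

/-- **The numbers of the mass bound.** -/
theorem eta_le {X N t d : ℕ} (hd : 1 ≤ d) (hX : N ≤ X * d) :
    (2 : ℝ) ^ (3 * ((N : ℝ) / d) - (lK X t : ℝ) / 4) +
      ((N : ℝ) + 1) ^ (tauK X N + lK X t) * (1 / 2) ^ DK X N t ≤ (1 / 2) ^ (lg t + 8) := by
  have hd0 : (0 : ℝ) < d := by exact_mod_cast hd
  have h1 : (N : ℝ) / d ≤ X := by
    rw [div_le_iff₀ hd0]
    exact_mod_cast hX
  have h2 : (2 : ℝ) ^ (3 * ((N : ℝ) / d) - (lK X t : ℝ) / 4) ≤ (1 / 2) ^ (lg t + 18) := by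
    have h3 : 3 * ((N : ℝ) / d) - (lK X t : ℝ) / 4 ≤ -((lg t + 18 : ℕ) : ℝ) := by
      unfold lK
      push_cast
      linarith
    have h4 : ((1 : ℝ) / 2) ^ (lg t + 18) = (2 : ℝ) ^ (-((lg t + 18 : ℕ) : ℝ)) := by
      rw [Real.rpow_neg (by norm_num), Real.rpow_natCast, one_div, inv_pow]
    rw [h4]
    exact Real.rpow_le_rpow_of_exponent_le (by norm_num) h3
  have h5 : ((N : ℝ) + 1) ^ (tauK X N + lK X t) * (1 / 2) ^ DK X N t ≤ (1 / 2) ^ (lg t + 20) := by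
    have h6 : (N : ℝ) + 1 ≤ 2 ^ szK N := by
      have h7 : N + 1 < 2 ^ (N + 1).size := Nat.lt_size_self (N + 1)
      unfold szK
      exact_mod_cast h7.le
    have h8 : ((N : ℝ) + 1) ^ (tauK X N + lK X t) ≤ 2 ^ ((tauK X N + lK X t) * szK N) := by
      rw [mul_comm, pow_mul]
      exact pow_le_pow_left₀ (by positivity) h6 _
    calc ((N : ℝ) + 1) ^ (tauK X N + lK X t) * (1 / 2) ^ DK X N t
        ≤ 2 ^ ((tauK X N + lK X t) * szK N) * (1 / 2) ^ DK X N t :=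
          mul_le_mul_of_nonneg_right h8 (by positivity)
      _ = (2 ^ ((tauK X N + lK X t) * szK N) * (1 / 2) ^ ((tauK X N + lK X t) * szK N)) *
          (1 / 2) ^ (lg t + 20) := by
          unfold DK
          rw [show (tauK X N + lK X t) * szK N + lg t + 20 =
            (tauK X N + lK X t) * szK N + (lg t + 20) by ring, pow_add, mul_assoc]
      _ = (1 / 2) ^ (lg t + 20) := by
          rw [← mul_pow]
          norm_num
  have h9 : ((1 : ℝ) / 2) ^ (lg t + 18) = (1 / 2) ^ 10 * (1 / 2) ^ (lg t + 8) := by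
    rw [← pow_add]
    congr 1
    ring
  have h10 : ((1 : ℝ) / 2) ^ (lg t + 20) = (1 / 2) ^ 12 * (1 / 2) ^ (lg t + 8) := by
    rw [← pow_add]
    congr 1
    ring
  rw [h9] at h2
  rw [h10] at h5
  have h11 : (0 : ℝ) < (1 / 2) ^ (lg t + 8) := by positivity
  nlinarith

theorem tauK_ge (X N : ℕ) : 16 * X * szK N ≤ tauK X N := by
  unfold tauK
  exact Nat.mul_le_mul_right _ (by omega)

namespace ParAux

theorem mulP {z a b i j : ℕ} (ha : a ≤ z ^ i) (hb : b ≤ z ^ j) : a * b ≤ z ^ (i + j) := by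
  rw [pow_add]
  exact Nat.mul_le_mul ha hb

theorem addP {z a b i : ℕ} (hz : 5 ≤ z) (ha : a ≤ z ^ i) (hb : b ≤ z ^ i) : a + b ≤ z ^ (i + 1) := by
  rw [pow_succ]
  nlinarith [pow_pos (show 0 < z by omega) i]

theorem monoP {z a i : ℕ} (j : ℕ) (hz : 5 ≤ z) (ha : a ≤ z ^ i) (hij : i ≤ j) : a ≤ z ^ j :=
  ha.trans (Nat.pow_le_pow_right (show 0 < z by omega) hij)

theorem constP {z k : ℕ} (j : ℕ) (hz : 5 ≤ z) (hk : k ≤ 5 ^ j) : k ≤ z ^ j :=
  hk.trans (Nat.pow_le_pow_left hz j)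

theorem powP {z a i : ℕ} (n : ℕ) (ha : a ≤ z ^ i) : a ^ n ≤ z ^ (i * n) := by
  rw [pow_mul]
  exact Nat.pow_le_pow_left ha n

theorem lg_le {t : ℕ} (ht : 1 ≤ t) : lg t ≤ t.size := by
  unfold lg
  have h1 : 2 ^ Nat.log 2 t ≤ t := Nat.pow_log_le_self 2 (by omega)
  exact Nat.lt_size.2 h1

variable {X N t z : ℕ}

theorem lK_leP (hz5 : 5 ≤ z) (a3 : lg t ≤ z ^ 1) (a4 : X ≤ z ^ 3) : lK X t ≤ z ^ 8 := by
  have a5 : X + 1 ≤ z ^ 4 := addP hz5 a4 (constP 3 hz5 (by norm_num))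
  have c1 : 12 * (X + 1) ≤ z ^ 6 := mulP (i := 2) (j := 4) (constP 2 hz5 (by norm_num)) a5
  have c2 : 4 * lg t ≤ z ^ 2 := mulP (i := 1) (j := 1) (constP 1 hz5 (by norm_num)) a3
  have c3 : 12 * (X + 1) + 4 * lg t ≤ z ^ 7 := addP hz5 c1 (monoP 6 hz5 c2 (by norm_num))
  exact addP hz5 c3 (constP 7 hz5 (by norm_num))

theorem tauK_leP (hz5 : 5 ≤ z) (a2 : szK N ≤ z ^ 1) (a4 : X ≤ z ^ 3) : tauK X N ≤ z ^ 7 := by
  have a5 : X + 1 ≤ z ^ 4 := addP hz5 a4 (constP 3 hz5 (by norm_num))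
  have c1 : 16 * (X + 1) ≤ z ^ 6 := mulP (i := 2) (j := 4) (constP 2 hz5 (by norm_num)) a5
  exact mulP (i := 6) (j := 1) c1 a2

theorem DK_leP (hz5 : 5 ≤ z) (a2 : szK N ≤ z ^ 1) (a3 : lg t ≤ z ^ 1) (a4 : X ≤ z ^ 3) :
    DK X N t ≤ z ^ 12 := by
  have b1 := lK_leP hz5 a3 a4
  have b2 := tauK_leP hz5 a2 a4
  have c1 : tauK X N + lK X t ≤ z ^ 9 := addP hz5 (monoP 8 hz5 b2 (by norm_num)) b1
  have c2 : (tauK X N + lK X t) * szK N ≤ z ^ 10 := mulP (i := 9) (j := 1) c1 a2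
  have c3 : (tauK X N + lK X t) * szK N + lg t ≤ z ^ 11 :=
    addP hz5 c2 (monoP 10 hz5 a3 (by norm_num))
  exact addP hz5 c3 (constP 11 hz5 (by norm_num))

theorem LamP_leP (hz5 : 5 ≤ z) (a4 : X ≤ z ^ 3) (b3 : DK X N t ≤ z ^ 12) :
    LamP X N t ≤ z ^ 48 := by
  have c0 : X ^ 5 ≤ z ^ 15 := by
    have := powP (n := 5) a4
    rwa [show 3 * 5 = 15 by norm_num] at this
  have c1 : 2 ^ 20 * X ^ 5 ≤ z ^ 24 := by
    have := mulP (i := 9) (j := 15) (constP 9 hz5 (show 2 ^ 20 ≤ 5 ^ 9 by norm_num)) c0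
    rwa [show 9 + 15 = 24 by norm_num] at this
  have c2 : DK X N t ^ 2 ≤ z ^ 24 := by
    have := powP (n := 2) b3
    rwa [show 12 * 2 = 24 by norm_num] at this
  have c3 := mulP c1 c2
  rw [show 24 + 24 = 48 by norm_num] at c3
  exact c3

theorem SP_leP (hz5 : 5 ≤ z) (a2 : szK N ≤ z ^ 1) (a3 : lg t ≤ z ^ 1) (a4 : X ≤ z ^ 3)
    (b4 : LamP X N t ≤ z ^ 48) : SP X N t ≤ z ^ 60 := by
  have c1 : 8 * X ≤ z ^ 5 := by
    have := mulP (i := 2) (j := 3) (constP 2 hz5 (show 8 ≤ 5 ^ 2 by norm_num)) a4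
    rwa [show 2 + 3 = 5 by norm_num] at this
  have c2 : 8 * X + 4 ≤ z ^ 6 := by
    have := addP hz5 c1 (constP 5 hz5 (show 4 ≤ 5 ^ 5 by norm_num))
    rwa [show 5 + 1 = 6 by norm_num] at this
  have c3 : LamP X N t + 2 ≤ z ^ 49 := by
    have := addP hz5 b4 (monoP 48 hz5 (constP 1 hz5 (show 2 ≤ 5 ^ 1 by norm_num)) (by norm_num))
    rwa [show 48 + 1 = 49 by norm_num] at this
  have c4 : (8 * X + 4) * (LamP X N t + 2) ≤ z ^ 55 := by
    have := mulP c2 c3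
    rwa [show 6 + 49 = 55 by norm_num] at this
  have c5 : 2 * szK N ≤ z ^ 2 := by
    have := mulP (i := 1) (j := 1) (constP 1 hz5 (show 2 ≤ 5 ^ 1 by norm_num)) a2
    rwa [show 1 + 1 = 2 by norm_num] at this
  have c6 : (8 * X + 4) * (LamP X N t + 2) + 2 * szK N ≤ z ^ 56 := by
    have := addP hz5 c4 (monoP 55 hz5 c5 (by norm_num))
    rwa [show 55 + 1 = 56 by norm_num] at this
  have c7 : (8 * X + 4) * (LamP X N t + 2) + 2 * szK N + lg t ≤ z ^ 57 := by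
    have := addP hz5 c6 (monoP 56 hz5 a3 (by norm_num))
    rwa [show 56 + 1 = 57 by norm_num] at this
  have c8 := addP hz5 c7 (monoP 57 hz5 (constP 3 hz5 (show 40 ≤ 5 ^ 3 by norm_num)) (by norm_num))
  unfold SP
  exact monoP 60 hz5 c8 (by norm_num)

theorem fin1 (hz5 : 5 ≤ z) (a4 : X ≤ z ^ 3) (b4 : LamP X N t ≤ z ^ 48) (b5 : SP X N t ≤ z ^ 60) :
    2 * (8 * X * SP X N t + 2 * LamP X N t) + 1 ≤ z ^ 70 := by
  have c1 : 8 * X ≤ z ^ 5 := by
    have := mulP (i := 2) (j := 3) (constP 2 hz5 (show 8 ≤ 5 ^ 2 by norm_num)) a4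
    rwa [show 2 + 3 = 5 by norm_num] at this
  have c2 := mulP c1 b5
  have c3 := mulP (constP 1 hz5 (show 2 ≤ 5 ^ 1 by norm_num)) b4
  rw [show 5 + 60 = 65 by norm_num] at c2
  have c4 := addP hz5 c2 (monoP 65 hz5 c3 (by norm_num))
  rw [show 65 + 1 = 66 by norm_num] at c4
  have c5 := mulP (constP 1 hz5 (show 2 ≤ 5 ^ 1 by norm_num)) c4
  rw [show 1 + 66 = 67 by norm_num] at c5
  have c6 := addP hz5 c5 (monoP 67 hz5 (constP 1 hz5 (show 1 ≤ 5 ^ 1 by norm_num)) (by norm_num))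
  exact monoP 70 hz5 c6 (by norm_num)

theorem fin2 (hz5 : 5 ≤ z) (a4 : X ≤ z ^ 3) (b3 : DK X N t ≤ z ^ 12) (b5 : SP X N t ≤ z ^ 60)
    (h1 : N ≤ X * (2 ^ 22 * X ^ 4 * DK X N t ^ 2 + 32 * SP X N t)) : 2 * N + 1 ≤ z ^ 70 := by
  have c0 : X ^ 4 ≤ z ^ 12 := by
    have := powP (n := 4) a4
    rwa [show 3 * 4 = 12 by norm_num] at this
  have c1 := mulP (constP 10 hz5 (show 2 ^ 22 ≤ 5 ^ 10 by norm_num)) c0
  rw [show 10 + 12 = 22 by norm_num] at c1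
  have c2 := mulP c1 (powP 2 b3)
  rw [show 22 + 12 * 2 = 46 by norm_num] at c2
  have c3 := mulP (constP 3 hz5 (show 32 ≤ 5 ^ 3 by norm_num)) b5
  rw [show 3 + 60 = 63 by norm_num] at c3
  have c4 := addP hz5 (monoP 63 hz5 c2 (by norm_num)) c3
  rw [show 63 + 1 = 64 by norm_num] at c4
  have c5 : N ≤ z ^ 67 := by
    have := h1.trans (mulP a4 c4)
    rwa [show 3 + 64 = 67 by norm_num] at this
  have c6 := mulP (constP 1 hz5 (show 2 ≤ 5 ^ 1 by norm_num)) c5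
  rw [show 1 + 67 = 68 by norm_num] at c6
  have c7 := addP hz5 c6 (monoP 68 hz5 (constP 1 hz5 (show 1 ≤ 5 ^ 1 by norm_num)) (by norm_num))
  exact monoP 70 hz5 c7 (by norm_num)

end ParAux

open ParAux

/-- the number of vertices of the kernel, and of the graph if there is no kernel -/
theorem exists_c : ∃ c : ℕ, 17 ≤ c ∧ ∀ s N t : ℕ, 1 ≤ s → 1 ≤ N → 1 ≤ t →
    2 * (8 * s.size ^ 3 * SP (s.size ^ 3) N t + 2 * LamP (s.size ^ 3) N t) + 1 ≤
        (s.size + (2 * N).size + t.size + 1) ^ c ∧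
      (condP (s.size ^ 3) N t = false →
        2 * N + 1 ≤ (s.size + (2 * N).size + t.size + 1) ^ c) := by
  refine ⟨70, by norm_num, fun s N t hs hN ht => ?_⟩
  obtain ⟨z, hz⟩ : ∃ z, z = s.size + (2 * N).size + t.size + 1 := ⟨_, rfl⟩
  rw [← hz]
  have s1 : 1 ≤ s.size := Nat.size_pos.2 hs
  have s2 : 2 ≤ (2 * N).size := Nat.lt_size.2 (by omega)
  have s3 : 1 ≤ t.size := Nat.size_pos.2 ht
  have hz5 : 5 ≤ z := by omega
  have a1 : s.size ≤ z ^ 1 := by rw [pow_one]; omega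
  have a2 : szK N ≤ z ^ 1 := by
    rw [pow_one]
    unfold szK
    have : (N + 1).size ≤ (2 * N).size := Nat.size_le_size (by omega)
    omega
  have a3 : lg t ≤ z ^ 1 := by
    rw [pow_one]
    have := lg_le ht
    omega
  have a4 : s.size ^ 3 ≤ z ^ 3 := powP 3 a1
  have b3 := DK_leP hz5 a2 a3 a4
  have b4 := LamP_leP hz5 a4 b3
  have b5 := SP_leP hz5 a2 a3 a4 b4
  exact ⟨fin1 hz5 a4 b4 b5, fun hc => fin2 hz5 a4 b3 b5 (by
    have := of_decide_eq_false hc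
    omega)⟩

end Pool.Agent.Lib.SubBisK
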