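import Pool.Agent.Lib.SubBisK.BlkM
import Pool.Agent.Lib.SubBisK.ParK
import Pool.Agent.Lib.SubBisK.MassK
import Pool.Agent.Lib.SubBisK.KernK
import Pool.Agent.Lib.SubBisK.KeptK
import Pool.Agent.Lib.SubBisK.FacK

/-!
# SubBisK.AnaK (MP_a7c826_lc, Theorem K): the analysis of the kernel
-/

set_option autoImplicit false

namespace Pool.Agent.Lib.SubBisK

open Finset Pool.Agent.Lib.Pa7c826 Pool.Agent.Lib.Pa7c826t Pool.Agent.Lib.P7sG
  Pool.Agent.Lib.SubBisG

section graph

variable {α β : Type} [Fintype α] [Fintype β] [LinearOrder α] [LinearOrder β]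

/-- The hypotheses: `H` is a `d`-regular spanning subgraph of `E`, and the degree is so large that
the kernel is used. -/
structure Hyp (E H : α → β → Bool) (d N X t : ℕ) : Prop where
  reg : Reg H d
  le : ∀ v b, H v b = true → E v b = true
  pos : 1 ≤ d
  card : Fintype.card α = N
  one_le : 1 ≤ N
  leX : N ≤ X * d
  posX : 1 ≤ X
  cond : condP X N t = true

variable {E H : α → β → Bool} {d N X t : ℕ}

theorem Reg.card_eq' {H : α → β → Bool} {d : ℕ} (h : Reg H d) (hd : 1 ≤ d) :
    Fintype.card α = Fintype.card β :=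
  V.card_eq (E := H) (H := H) (d := d) ⟨fun _ _ h => h, h, hd⟩

theorem Reg.le_card {H : α → β → Bool} {d : ℕ} (h : Reg H d) (hd : 1 ≤ d)
    (hN : 1 ≤ Fintype.card α) : d ≤ Fintype.card α := by
  obtain ⟨v⟩ : Nonempty α := Fintype.card_pos_iff.1 hN
  rw [h.card_eq' hd, ← h.1 v]
  exact card_le_univ _

/-- the completed graph -/
noncomputable def gK (E : α → β → Bool) (N X t : ℕ) : α → β → Bool := gh E (DK X N t)

/-- the left vertices of the kernel -/
noncomputable def xK (E : α → β → Bool) (N X t : ℕ) : Finset α := kept (gK E N X t) (SP X N t)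

/-- the right vertices of the kernel -/
noncomputable def yK (E : α → β → Bool) (N X t : ℕ) : Finset β :=
  kept (tr (gK E N X t)) (SP X N t)

/-- the blocks and the kernel -/
theorem Hyp.exists_str (h : Hyp E H d N X t) :
    ∃ (r : ℕ) (P : Fin r → Finset α) (Q : Fin r → Finset β), 1 ≤ r ∧ r * d ≤ 8 * N ∧ r ≤ 8 * X ∧
      SP X N t ≤ d / 8 ∧ Blk (gK E N X t) P Q (d / 8) (LamP X N t) ∧
      Kept P Q (SP X N t) (xK E N X t) (yK E N X t) := by
  obtain ⟨h1, h2⟩ := of_condP h.cond h.posX h.leX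
  have h3 := two_LamP_le (X := X) (N := N) (t := t) h.posX
  obtain ⟨r, P, Q, h4, h5⟩ := exists_blk h.reg h.le h.pos (X := X) (D := DK X N t)
    (by rw [h.card]; exact h.leX) h.posX (DK_pos X N t) h1
  rw [h.card] at h4
  have hd := h.pos
  refine ⟨r, P, Q, ?_, h4, ?_, by omega, h5, ?_⟩
  · -- there is a block
    by_contra hr
    have hr0 : r = 0 := by omega
    subst hr0
    have h6 := h5.outL
    have h7 : (univ.biUnion P : Finset α) = ∅ := by
      rw [univ_eq_empty, biUnion_empty]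
    rw [h7, sdiff_empty, card_univ] at h6
    have h8 := h.reg.le_card h.pos (by rw [h.card]; exact h.one_le)
    have h9 : 2 ^ 20 * X ^ 5 * DK X N t ^ 2 = LamP X N t := rfl
    omega
  · have h6 : r * d ≤ (8 * X) * d := by
      have := h.leX
      calc r * d ≤ 8 * N := h4
        _ ≤ 8 * (X * d) := Nat.mul_le_mul_left _ this
        _ = (8 * X) * d := by ring
    exact Nat.le_of_mul_le_mul_right h6 hd
  · exact kept_kept h5 (by omega) (by
      have h9 : 2 ^ 20 * X ^ 5 * DK X N t ^ 2 = LamP X N t := rfl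
      omega)

/-- **The kernel has the right number of independent sets.** -/
theorem Hyp.count (h : Hyp E H d N X t) (ht : 1 ≤ t) :
    |(ip (gK E N X t) (xK E N X t) (yK E N X t) : ℝ) * 2 ^ (univ \ xK E N X t).card -
      ip E univ univ| ≤ ip E univ univ / (2 * t) := by
  obtain ⟨r, P, Q, hr1, hrd, hrX, hST, hB, hK⟩ := h.exists_str
  have h1 := kernel_count (e := lg t + 10) h.card hB hST (by
    have := two_LamP_le (X := X) (N := N) (t := t) h.posX
    omega) (SP_ge hrX) hK
  have h2 := mass (D := DK X N t) h.reg h.le h.pos h.card h.leX h.posX (tauK_ge X N)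
    (l := lK X t)
  have h3 := eta_le (X := X) (N := N) (t := t) h.pos h.leX
  have h4 : (ip (gK E N X t) univ univ : ℝ) ≤ ip E univ univ := by
    exact_mod_cast ip_gh_le E (DK X N t)
  set m := (univ \ xK E N X t).card with hm
  set A : ℝ := (ip E univ univ : ℝ) with hA
  set B : ℝ := (ip (gK E N X t) univ univ : ℝ) with hB'
  set Z : ℝ := 2 ^ m * ip (gK E N X t) (xK E N X t) (yK E N X t) with hZ
  have hA0 : 0 ≤ A := Nat.cast_nonneg _
  have hB0 : 0 ≤ B := Nat.cast_nonneg _
  have hZ0 : 0 ≤ Z := by positivity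
  have ht0 : (1 : ℝ) ≤ t := by exact_mod_cast ht
  -- `(1/2) ^ lg t ≤ 1 / t`
  set u : ℝ := (1 / 2) ^ lg t with hu
  have hu0 : 0 < u := by positivity
  have hu1 : u * t ≤ 1 := by
    have h5 : (t : ℝ) ≤ 2 ^ lg t := by exact_mod_cast (lt_two_pow_lg t).le
    calc u * t ≤ u * 2 ^ lg t := mul_le_mul_of_nonneg_left h5 hu0.le
      _ = 1 := by rw [hu, ← mul_pow]; norm_num
  have hu2 : u ≤ 1 := pow_le_one₀ (by norm_num) (by norm_num)
  have e1 : (1 / 2 : ℝ) ^ (lg t + 10) = u / 1024 := by rw [pow_add, ← hu]; norm_num; ring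
  have e2 : (1 / 2 : ℝ) ^ (lg t + 8) = u / 256 := by rw [pow_add, ← hu]; norm_num; ring
  rw [e1] at h1
  rw [e2] at h3
  have h6 : A - B ≤ u / 256 * A := h2.trans (mul_le_mul_of_nonneg_right h3 hA0)
  have h7 := abs_le.1 h1
  have hZA : Z ≤ 2 * A := by nlinarith [h7.1]
  have h8 : |Z - A| ≤ u / 1024 * Z + u / 256 * A := by
    rw [abs_le]
    constructor <;> nlinarith [h7.1, h7.2]
  have e3 : (ip (gK E N X t) (xK E N X t) (yK E N X t) : ℝ) * 2 ^ m = Z := by
    rw [hZ]
    ring
  rw [e3]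
  refine h8.trans ?_
  have h9 : u / 1024 * Z + u / 256 * A ≤ u / 128 * A := by nlinarith
  refine h9.trans ?_
  rw [le_div_iff₀ (by positivity)]
  nlinarith

end graph

/-- **The machine works on the kernel.** -/
theorem pmin_kernel {a b : ℕ} {H0 Γ : Fin a → Fin b → Bool} {d r T Λ S : ℕ} (hH : Reg H0 d)
    (hle : ∀ v b, H0 v b = true → Γ v b = true)
    {P : Fin r → Finset (Fin a)} {Q : Fin r → Finset (Fin b)} (hB : Blk Γ P Q T Λ)
    (hST : S ≤ T) (hS : 4 * Λ + 4 ≤ S) (hSd : S ≤ d) (hr : 1 ≤ r)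
    {X : Finset (Fin a)} {Y : Finset (Fin b)} (hK : Kept P Q S X Y) {C1 sz : ℕ}
    (hsz : ∀ (n' : ℕ) (y' : ℝ), n' ≤ 2 * (r * S + 2 * Λ) → 0 ≤ y' → y' ≤ 4 * r + 2 →
      (2 : ℝ) ^ ((C1 : ℝ) * min y' (y' ^ (1 / 3 : ℝ) *
        Real.logb 2 ((n' : ℝ) + 1) ^ (5 / 3 : ℝ))) ≤ sz) :
    PMin 5 C1 (subG Γ X Y) sz := by
  obtain ⟨H, h1, h2, h3⟩ := exists_fac_kept hH hle hB hST (by omega) hSd hK
  obtain ⟨h4, h5, _⟩ := card_kept_le hB hST hK
  obtain ⟨h6, _⟩ := le_card_kept hB hST hr hK
  set e := X.orderEmbOfFin rfl with he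
  set f := Y.orderEmbOfFin rfl with hf
  have row : ∀ i : Fin X.card, (univ.filter fun j : Fin Y.card => H (e i) (f j) = true).card =
      (univ.filter fun b => H (e i) b = true).card := by
    intro i
    rw [← card_map f.toEmbedding]
    congr 1
    ext b
    simp only [mem_map, mem_filter, mem_univ, true_and]
    constructor
    · rintro ⟨j, hj, rfl⟩
      exact hj
    · intro hb
      have hY : b ∈ Set.range f := by
        rw [hf, range_orderEmbOfFin]
        exact (h1 _ _ hb).2.2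
      obtain ⟨j, rfl⟩ := hY
      exact ⟨j, hb, rfl⟩
  have col : ∀ j : Fin Y.card, (univ.filter fun i : Fin X.card => H (e i) (f j) = true).card =
      (univ.filter fun v => H v (f j) = true).card := by
    intro j
    rw [← card_map e.toEmbedding]
    congr 1
    ext v
    simp only [mem_map, mem_filter, mem_univ, true_and]
    constructor
    · rintro ⟨i, hi, rfl⟩
      exact hi
    · intro hv
      have hX : v ∈ Set.range e := by
        rw [he, range_orderEmbOfFin]
        exact (h1 _ _ hv).2.1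
      obtain ⟨i, rfl⟩ := hX
      exact ⟨i, hv, rfl⟩
  have hrow : ∀ i : Fin X.card,
      (univ.filter fun j : Fin Y.card => H (e i) (f j) = true).card = S - 1 := fun i => by
    rw [row, h2]
    exact orderEmbOfFin_mem X rfl i
  refine ⟨S - 1, 0, fun i j => H (e i) (f j), by omega, ?_, ⟨?_, ?_, ?_⟩, ?_, ?_⟩
  · show S - 1 ≤ X.card
    omega
  · intro i j hij
    exact (h1 _ _ hij).1
  · intro i
    exact (hrow i).le
  · intro j
    exact (col j).le.trans (h3 _)
  · intro i
    rw [Nat.add_zero]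
    exact (hrow i).ge
  · -- the numbers
    have e1 : (subG Γ X Y).a + (subG Γ X Y).b = X.card + Y.card := rfl
    rw [e1]
    have h7 : X.card + Y.card ≤ 2 * (r * S + 2 * Λ) := by omega
    have hS0 : (0 : ℝ) < ((S - 1 : ℕ) : ℝ) := by
      have : 0 < S - 1 := by omega
      exact_mod_cast this
    have h8 : (1 + ((0 : ℕ) : ℝ)) * ((X.card + Y.card : ℕ) : ℝ) / ((S - 1 : ℕ) : ℝ) ≤
        4 * r + 2 := by
      rw [div_le_iff₀ hS0]
      have h9 : X.card + Y.card ≤ (4 * r + 2) * (S - 1) := by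
        obtain ⟨q, rfl⟩ : ∃ q, S = q + 1 := ⟨S - 1, by omega⟩
        have h10 : r * (q + 1) ≤ r * (2 * q) := Nat.mul_le_mul_left _ (by omega)
        have h11 : r * (2 * q) = 2 * (r * q) := by ring
        have h12 : (4 * r + 2) * (q + 1 - 1) = 4 * (r * q) + 2 * q := by
          rw [Nat.add_sub_cancel]
          ring
        omega
      have h10 : ((X.card + Y.card : ℕ) : ℝ) ≤ (((4 * r + 2) * (S - 1) : ℕ) : ℝ) := by
        exact_mod_cast h9
      rw [Nat.cast_mul] at h10
      push_cast at h10 ⊢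
      linarith
    have h9 := hsz (X.card + Y.card) _ h7 (by positivity) h8
    simpa only [Nat.cast_ofNat] using h9

end Pool.Agent.Lib.SubBisK
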