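import Pool.Agent.Lib.SubBisK.VD

/-!
# SubBisK.BlkM (MP_a7c826_lc, Theorem K): the blocks of the completed graph, with simple bounds
-/

set_option autoImplicit false

namespace Pool.Agent.Lib.SubBisK

open Finset

variable {α β : Type} [Fintype α] [Fintype β] [DecidableEq α] [DecidableEq β]

theorem Blk.mono {Γ : α → β → Bool} {r : ℕ} {P : Fin r → Finset α} {Q : Fin r → Finset β}
    {T T' Λ Λ' : ℕ} (h : Blk Γ P Q T Λ) (hT : T' ≤ T) (hΛ : Λ ≤ Λ') : Blk Γ P Q T' Λ' where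
  twL := h.twL
  twR := h.twR
  bis := h.bis
  disjL := h.disjL
  disjR := h.disjR
  bigL i := hT.trans (h.bigL i)
  bigR i := hT.trans (h.bigR i)
  outL := h.outL.trans hΛ
  outR := h.outR.trans hΛ
  balL I := (h.balL I).trans (Nat.add_le_add_left hΛ _)
  balR I := (h.balR I).trans (Nat.add_le_add_left hΛ _)

namespace V

theorem R2_le {X D : ℕ} (hX : 1 ≤ X) (hD : 1 ≤ D) : R2 X D ≤ 205 * X ^ 2 * D ^ 2 := by
  have h1 : R1 X D ≤ 5 * (X * D) := by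
    unfold R1
    nlinarith
  have h2 : 1 ≤ X * D := Nat.mul_pos hX hD
  have h3 : R1 X D ^ 2 ≤ (5 * (X * D)) ^ 2 := Nat.pow_le_pow_left h1 2
  have h4 : X * D ≤ (X * D) ^ 2 := by nlinarith
  unfold R2
  calc 8 * R1 X D ^ 2 + R1 X D ≤ 8 * (5 * (X * D)) ^ 2 + 5 * (X * D) ^ 2 := by omega
    _ = 205 * X ^ 2 * D ^ 2 := by ring

theorem R4_le {X D : ℕ} (hX : 1 ≤ X) (hD : 1 ≤ D) :
    64 * R4 X (R2 X D) ≤ 2 ^ 22 * X ^ 4 * D ^ 2 := by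
  have h := R2_le hX hD
  unfold R4 R3
  calc 64 * (32 * X * (8 * X * R2 X D)) = 16384 * X ^ 2 * R2 X D := by ring
    _ ≤ 16384 * X ^ 2 * (205 * X ^ 2 * D ^ 2) := Nat.mul_le_mul_left _ h
    _ = 3358720 * (X ^ 4 * D ^ 2) := by ring
    _ ≤ 2 ^ 22 * (X ^ 4 * D ^ 2) := Nat.mul_le_mul_right _ (by norm_num)
    _ = 2 ^ 22 * X ^ 4 * D ^ 2 := by ring

theorem RL_le {X D : ℕ} (hX : 1 ≤ X) (hD : 1 ≤ D) :
    RL X (R2 X D) ≤ 2 ^ 20 * X ^ 5 * D ^ 2 := by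
  have h := R2_le hX hD
  have h5 : X ^ 2 ≤ X ^ 3 := Nat.pow_le_pow_right hX (by norm_num)
  unfold RL R4 R3
  calc 8 * X * (8 * X * R2 X D + 2 * (32 * X * (8 * X * R2 X D))) +
        2 * (32 * X * (8 * X * R2 X D))
      = (576 * X ^ 2 + 4096 * X ^ 3) * R2 X D := by ring
    _ ≤ (4672 * X ^ 3) * R2 X D := Nat.mul_le_mul_right _ (by omega)
    _ ≤ (4672 * X ^ 3) * (205 * X ^ 2 * D ^ 2) := Nat.mul_le_mul_left _ h
    _ = 957760 * (X ^ 5 * D ^ 2) := by ring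
    _ ≤ 2 ^ 20 * (X ^ 5 * D ^ 2) := Nat.mul_le_mul_right _ (by norm_num)
    _ = 2 ^ 20 * X ^ 5 * D ^ 2 := by ring

end V

/-- **The blocks of the completed graph.** -/
theorem exists_blk {E H : α → β → Bool} {d D X : ℕ} (hH : Reg H d)
    (hle : ∀ v b, H v b = true → E v b = true) (hd : 1 ≤ d) (hX : Fintype.card α ≤ X * d)
    (hX1 : 1 ≤ X) (hD : 1 ≤ D) (h : 2 ^ 22 * X ^ 4 * D ^ 2 ≤ d) :
    ∃ (r : ℕ) (P : Fin r → Finset α) (Q : Fin r → Finset β),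
      r * d ≤ 8 * Fintype.card α ∧ Blk (gh E D) P Q (d / 8) (2 ^ 20 * X ^ 5 * D ^ 2) := by
  obtain ⟨r, P, Q, h1, h2⟩ := V.exists_blk (E := E) (H := H) ⟨hle, hH, hd⟩ hX hX1 hD
    ((V.R4_le hX1 hD).trans h)
  exact ⟨r, P, Q, h1, h2.mono le_rfl (V.RL_le hX1 hD)⟩

end Pool.Agent.Lib.SubBisK
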