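import Pool.Agent.Lib.SubBisK.Defs

/-!
# SubBisK.CodeK (MP_a7c826_lc, Theorem K): independent sets of the graphs `BGraph` as pairs of sets
-/

set_option autoImplicit false

namespace Pool.Agent.Lib.SubBisK

open Finset Pool.Agent.Lib.Pa7c826

section gen

variable {α β γ δ : Type} [Fintype α] [Fintype β] [DecidableEq α] [DecidableEq β]
  [Fintype γ] [Fintype δ]

theorem cnt_eq_card (R : γ → δ → Bool) :
    cnt (fun i j => R i j = true) =
      ((univ : Finset (Finset γ × Finset δ)).filter
        fun P => ∀ a ∈ P.1, ∀ b ∈ P.2, R a b = false).card := by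
  classical
  unfold cnt
  have e : {P : Set γ × Set δ // ∀ a ∈ P.1, ∀ b ∈ P.2, ¬ R a b = true} ≃
      {P : Finset γ × Finset δ // ∀ a ∈ P.1, ∀ b ∈ P.2, R a b = false} := by
    refine (Equiv.subtypeEquiv (Equiv.prodCongr Fintype.finsetEquivSet Fintype.finsetEquivSet)
      ?_).symm
    rintro ⟨S, T⟩
    simp
  rw [Nat.card_congr e, Nat.card_eq_fintype_card, Fintype.card_subtype]
  congr 1
  ext P
  simp

theorem cnt_eq_ip (Γ : α → β → Bool) (e : γ ↪ α) (f : δ ↪ β) {X : Finset α} {Y : Finset β}
    (hX : univ.map e = X) (hY : univ.map f = Y) :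
    cnt (fun i j => Γ (e i) (f j) = true) = ip Γ X Y := by
  classical
  rw [cnt_eq_card]
  unfold ip
  refine card_bij (fun P _ => (P.1.map e, P.2.map f)) ?_ ?_ ?_
  · rintro ⟨S, T⟩ h
    simp only [mem_filter] at h
    simp only [mem_filter, mem_product, mem_powerset]
    refine ⟨⟨?_, ?_⟩, ?_⟩
    · rw [← hX]
      exact map_subset_map.2 (subset_univ _)
    · rw [← hY]
      exact map_subset_map.2 (subset_univ _)
    · intro v hv b hb
      obtain ⟨i, hi, rfl⟩ := mem_map.1 hv
      obtain ⟨j, hj, rfl⟩ := mem_map.1 hb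
      exact h.2 i hi j hj
  · rintro ⟨S, T⟩ _ ⟨S', T'⟩ _ h
    simp only [Prod.mk.injEq] at h
    rw [Prod.mk.injEq]
    exact ⟨map_injective e h.1, map_injective f h.2⟩
  · rintro ⟨S, T⟩ h
    simp only [mem_filter, mem_product, mem_powerset] at h
    obtain ⟨⟨hS, hT⟩, hI⟩ := h
    have eS : (univ.filter fun i => e i ∈ S).map e = S := by
      ext v
      rw [mem_map]
      constructor
      · rintro ⟨i, hi, rfl⟩
        exact (mem_filter.1 hi).2
      · intro hv
        have h1 : v ∈ univ.map e := by rw [hX]; exact hS hv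
        obtain ⟨i, _, rfl⟩ := mem_map.1 h1
        exact ⟨i, mem_filter.2 ⟨mem_univ _, hv⟩, rfl⟩
    have eT : (univ.filter fun i => f i ∈ T).map f = T := by
      ext v
      rw [mem_map]
      constructor
      · rintro ⟨i, hi, rfl⟩
        exact (mem_filter.1 hi).2
      · intro hv
        have h1 : v ∈ univ.map f := by rw [hY]; exact hT hv
        obtain ⟨i, _, rfl⟩ := mem_map.1 h1
        exact ⟨i, mem_filter.2 ⟨mem_univ _, hv⟩, rfl⟩
    refine ⟨(univ.filter fun i => e i ∈ S, univ.filter fun i => f i ∈ T), ?_, ?_⟩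
    · simp only [mem_filter]
      refine ⟨mem_univ _, ?_⟩
      intro i hi j hj
      exact hI _ hi.2 _ hj.2
    · exact Prod.ext eS eT

end gen

/-- The independent sets of a bipartite graph. -/
theorem numIndep_eq_ip (G : BGraph) : numIndep G.graph = ip G.E univ univ := by
  rw [BGraph.graph, numIndep_bip]
  exact cnt_eq_ip G.E (Function.Embedding.refl _) (Function.Embedding.refl _)
    (map_refl) (map_refl)

/-- The independent sets of the kernel. -/
theorem numIndep_subG {a b : ℕ} (Γ : Fin a → Fin b → Bool) (X : Finset (Fin a))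
    (Y : Finset (Fin b)) : numIndep (subG Γ X Y).graph = ip Γ X Y := by
  rw [BGraph.graph, numIndep_bip]
  refine cnt_eq_ip Γ (X.orderEmbOfFin rfl).toEmbedding (Y.orderEmbOfFin rfl).toEmbedding ?_ ?_
  · simp
  · simp

end Pool.Agent.Lib.SubBisK
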