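import Pool.Agent.Lib.SubBisG.MinY

/-!
# MP_a7c826_lc, Theorem K: definitions

A deterministic kernel for regular bipartite graphs. Text: /team-store/a7c826_K.md.
-/

set_option autoImplicit false

namespace Pool.Agent.Lib.SubBisK

open Finset Pool.Agent.Lib.Pa7c826 Pool.Agent.Lib.Pa7c826t Pool.Agent.Lib.P7sG

section graph

variable {α β : Type} [Fintype α] [Fintype β] [DecidableEq α] [DecidableEq β]

/-- the neighbours of the set `U` of left vertices -/
def nb (E : α → β → Bool) (U : Finset α) : Finset β :=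
  univ.filter fun b => ∃ v ∈ U, E v b = true

/-- the deficiency `|N(U)| - |U|` -/
def df (E : α → β → Bool) (U : Finset α) : ℤ := ((nb E U).card : ℤ) - (U.card : ℤ)

/-- the transposed graph -/
def tr (E : α → β → Bool) : β → α → Bool := fun b v => E v b

/-- all degrees are `d` -/
def Reg (E : α → β → Bool) (d : ℕ) : Prop :=
  (∀ v, (univ.filter fun b => E v b = true).card = d) ∧
    ∀ b, (univ.filter fun v => E v b = true).card = d

/-- the closure of `U` -/
def clo (E : α → β → Bool) (U : Finset α) : Finset α :=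
  univ.filter fun v => ∀ b, E v b = true → b ∈ nb E U

/-- the number of independent sets in `X ∪ Y` -/
def ip (E : α → β → Bool) (X : Finset α) (Y : Finset β) : ℕ :=
  ((X.powerset ×ˢ Y.powerset).filter fun x => ∀ v ∈ x.1, ∀ b ∈ x.2, E v b = false).card

/-- the neighbours of `S` with fewer than `d / 16` neighbours in `S` in the subgraph `H` -/
def few (E H : α → β → Bool) (d : ℕ) (S : Finset α) : Finset β :=
  (nb E S).filter fun b => 16 * (S.filter fun v => H v b = true).card < d

/-- `v` and `b` are separated by a set of small deficiency -/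
def Comp (E : α → β → Bool) (D : ℕ) (v : α) (b : β) : Prop :=
  ∃ U : Finset α, v ∈ U ∧ b ∉ nb E U ∧ df E U ≤ D

open Classical in
/-- the completed graph -/
noncomputable def gh (E : α → β → Bool) (D : ℕ) (v : α) (b : β) : Bool := decide (¬ Comp E D v b)

/-- `v` and `b` are adjacent and every neighbour of `b` is adjacent to every neighbour of `v` -/
def Bis (Γ : α → β → Bool) (v : α) (b : β) : Prop :=
  Γ v b = true ∧ ∀ w b', Γ w b = true → Γ v b' = true → Γ w b' = true

instance (Γ : α → β → Bool) (v : α) (b : β) : Decidable (Bis Γ v b) := by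
  unfold Bis
  infer_instance

/-- the twins of the left vertex `v` -/
def cls (Γ : α → β → Bool) (v : α) : Finset α := univ.filter fun v' => ∀ b, Γ v b = Γ v' b

/-- the partners of the left vertex `v` -/
def bsc (Γ : α → β → Bool) (v : α) : Finset β := univ.filter fun b => Bis Γ v b

/-- the number of vertices to be deleted from the class of `v` -/
def del (Γ : α → β → Bool) (S : ℕ) (v : α) : ℕ := min (cls Γ v).card (bsc Γ v).card - S

/-- the left vertices which are kept; for the right vertices: `kept (tr Γ) S` -/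
def kept [LinearOrder α] (Γ : α → β → Bool) (S : ℕ) : Finset α :=
  univ.filter fun v => ((cls Γ v).filter fun v' => v' < v).card + del Γ S v < (cls Γ v).card

/-- Blocks: pairs of twin classes joined by bisimplicial edges; at most `Λ` vertices on each side
are not in a block, the blocks have size at least `T` on each side. -/
structure Blk (Γ : α → β → Bool) {r : ℕ} (P : Fin r → Finset α) (Q : Fin r → Finset β)
    (T Λ : ℕ) : Prop where
  twL : ∀ i, ∀ v ∈ P i, ∀ v', v' ∈ P i ↔ ∀ b, Γ v b = Γ v' b
  twR : ∀ i, ∀ b ∈ Q i, ∀ b', b' ∈ Q i ↔ ∀ v, Γ v b = Γ v b'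
  bis : ∀ i, ∀ v ∈ P i, ∀ b ∈ Q i, Bis Γ v b
  disjL : ∀ i j, i ≠ j → Disjoint (P i) (P j)
  disjR : ∀ i j, i ≠ j → Disjoint (Q i) (Q j)
  bigL : ∀ i, T ≤ (P i).card
  bigR : ∀ i, T ≤ (Q i).card
  outL : (univ \ univ.biUnion P).card ≤ Λ
  outR : (univ \ univ.biUnion Q).card ≤ Λ
  balL : ∀ I : Finset (Fin r), ∑ i ∈ I, (P i).card ≤ ∑ i ∈ I, (Q i).card + Λ
  balR : ∀ I : Finset (Fin r), ∑ i ∈ I, (Q i).card ≤ ∑ i ∈ I, (P i).card + Λ

/-- The sets `X`, `Y` of the vertices which are kept: the vertices outside the blocks, and in the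
block `i` all but `min |P i| |Q i| - S` vertices on each side. -/
structure Kept {r : ℕ} (P : Fin r → Finset α) (Q : Fin r → Finset β) (S : ℕ)
    (X : Finset α) (Y : Finset β) : Prop where
  outL : ∀ v, (∀ i, v ∉ P i) → v ∈ X
  outR : ∀ b, (∀ i, b ∉ Q i) → b ∈ Y
  delL : ∀ i, (P i \ X).card = min (P i).card (Q i).card - S
  delR : ∀ i, (Q i \ Y).card = min (P i).card (Q i).card - S

end graph

/-! ### Parameters (`N` = number of left vertices, `N ≤ X d`, `t` = precision) -/

/-- binary length of `N + 1` -/
def szK (N : ℕ) : ℕ := (N + 1).size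

/-- the bound for the vertices with few neighbours -/
def lK (X t : ℕ) : ℕ := 12 * (X + 1) + 4 * lg t + 60

/-- the bound for the covering sets -/
def tauK (X N : ℕ) : ℕ := 16 * (X + 1) * szK N

/-- the bound for the deficiencies -/
def DK (X N t : ℕ) : ℕ := (tauK X N + lK X t) * szK N + lg t + 20

/-- the bound for the number of vertices outside the blocks -/
def LamK (X N t : ℕ) : ℕ := 50 * (4 * X) ^ 4 * DK X N t ^ 2

/-- the size of the blocks of the kernel -/
def SK (X N t : ℕ) : ℕ := (4 * X + 4) * (LamK X N t + 2) + 2 * szK N + lg t + 40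

/-- the condition for the kernel -/
def condK (X N t : ℕ) : Bool :=
  decide (X * (2 ^ 13 * (4 * X) ^ 4 * DK X N t ^ 2 + 32 * SK X N t) ≤ N)

/-! ### The kernel -/

/-- The graph with the left vertices `X`, the right vertices `Y` and the adjacency `Γ`. -/
def subG {a b : ℕ} (Γ : Fin a → Fin b → Bool) (X : Finset (Fin a)) (Y : Finset (Fin b)) : BGraph :=
  ⟨X.card, Y.card, fun i j => Γ (X.orderEmbOfFin rfl i) (Y.orderEmbOfFin rfl j)⟩

end Pool.Agent.Lib.SubBisK
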