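import Pool.Agent.Lib.SubBisK.Defs
import Pool.Agent.Lib.Pa7c826r.FacHall

/-!
# The cut condition for the kernel

`(S - 1) |A| ≤ e(A, Y \ B) + (S - 1) |B|` for all sets `A` of kept left vertices and `B` of kept
right vertices.
-/

set_option autoImplicit false

namespace Pool.Agent.Lib.SubBisK

open Finset

variable {α β : Type} [Fintype α] [Fintype β] [DecidableEq α] [DecidableEq β]

/-- the number of edges between two sets, summed over the left vertices -/
def eS (Γ : α → β → Bool) (A : Finset α) (C : Finset β) : ℕ :=
  ∑ v ∈ A, (C.filter fun b => Γ v b = true).card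

omit [Fintype α] [Fintype β] [DecidableEq α] [DecidableEq β] in
theorem eS_comm (Γ : α → β → Bool) (A : Finset α) (C : Finset β) :
    eS Γ A C = ∑ b ∈ C, (A.filter fun v => Γ v b = true).card := by
  unfold eS
  simp only [card_filter]
  exact sum_comm

omit [Fintype α] [Fintype β] [DecidableEq β] in
theorem eS_insert (Γ : α → β → Bool) {A : Finset α} (C : Finset β) {v : α} (hv : v ∉ A) :
    eS Γ (insert v A) C = (C.filter fun b => Γ v b = true).card + eS Γ A C := by
  unfold eS
  rw [sum_insert hv]

omit [Fintype α] [Fintype β] [DecidableEq β] in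
theorem eS_erase (Γ : α → β → Bool) {A : Finset α} (C : Finset β) {v : α} (hv : v ∈ A) :
    eS Γ A C = (C.filter fun b => Γ v b = true).card + eS Γ (A.erase v) C := by
  unfold eS
  exact (add_sum_erase A _ hv).symm

omit [Fintype α] [Fintype β] [DecidableEq α] in
theorem eS_insert_right (Γ : α → β → Bool) (A : Finset α) {C : Finset β} {b : β} (hb : b ∉ C) :
    eS Γ A (insert b C) = (A.filter fun v => Γ v b = true).card + eS Γ A C := by
  rw [eS_comm, eS_comm, sum_insert hb]

/-- a minimiser of the cut, with `|A|` and then `|B|` as small as possible -/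
theorem exists_min_cut (Γ : α → β → Bool) (X : Finset α) (Y : Finset β) (k : ℕ) :
    ∃ (A : Finset α) (B : Finset β), A ⊆ X ∧ B ⊆ Y ∧
      (∀ v ∈ X, v ∈ A ↔ ((Y \ B).filter fun b => Γ v b = true).card < k) ∧
      (∀ b ∈ Y, b ∈ B ↔ k < (A.filter fun v => Γ v b = true).card) ∧
      ((k * A.card ≤ eS Γ A (Y \ B) + k * B.card) →
        ∀ A' ⊆ X, ∀ B' ⊆ Y, k * A'.card ≤ eS Γ A' (Y \ B') + k * B'.card) := by
  set M : ℤ := Fintype.card α + Fintype.card β + 2 with hM
  have hM2 : 2 ≤ M := by
    have h1 : (0 : ℤ) ≤ Fintype.card α := Int.natCast_nonneg _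
    have h2 : (0 : ℤ) ≤ Fintype.card β := Int.natCast_nonneg _
    linarith
  have hMM : M ≤ M ^ 2 := by nlinarith
  set δ : Finset α → Finset β → ℤ := fun A B =>
    (eS Γ A (Y \ B) : ℤ) + k * B.card - k * A.card with hδ
  set w : Finset α → Finset β → ℤ := fun A B => δ A B * M ^ 2 + A.card * M + B.card with hw
  obtain ⟨⟨A, B⟩, hAB, hmin⟩ := exists_min_image (X.powerset ×ˢ Y.powerset)
    (fun x : Finset α × Finset β => w x.1 x.2) ⟨(∅, ∅), by simp⟩
  rw [mem_product, mem_powerset, mem_powerset] at hAB
  obtain ⟨hAX, hBY⟩ := hAB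
  simp only at hAX hBY
  have hmin' : ∀ A' ⊆ X, ∀ B' ⊆ Y, w A B ≤ w A' B' := by
    intro A' hA' B' hB'
    exact hmin (A', B') (mem_product.mpr ⟨mem_powerset.mpr hA', mem_powerset.mpr hB'⟩)
  refine ⟨A, B, hAX, hBY, ?_, ?_, ?_⟩
  · intro v hvX
    constructor
    · intro hvA
      by_contra hc
      push Not at hc
      have h1 := hmin' (A.erase v) ((erase_subset v A).trans hAX) B hBY
      have h2 := eS_erase Γ (Y \ B) hvA
      have h3 : (A.erase v).card + 1 = A.card := card_erase_add_one hvA
      simp only [hw, hδ] at h1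
      rw [h2, ← h3] at h1
      push_cast at h1
      have h4 : ((k : ℤ)) ≤ ((Y \ B).filter fun b => Γ v b = true).card := by exact_mod_cast hc
      have h5 : (0 : ℤ) ≤ ((((Y \ B).filter fun b => Γ v b = true).card : ℤ) - k) * M ^ 2 :=
        mul_nonneg (by linarith) (by positivity)
      nlinarith
    · intro hlt
      by_contra hvA
      have h1 := hmin' (insert v A) (insert_subset hvX hAX) B hBY
      have h2 := eS_insert Γ (Y \ B) hvA
      have h3 : (insert v A).card = A.card + 1 := card_insert_of_notMem hvA
      simp only [hw, hδ] at h1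
      rw [h2, h3] at h1
      push_cast at h1
      have h4 : (((Y \ B).filter fun b => Γ v b = true).card : ℤ) + 1 ≤ (k : ℤ) := by
        exact_mod_cast hlt
      have h5 : (0 : ℤ) ≤ ((k : ℤ) - 1 - (((Y \ B).filter fun b => Γ v b = true).card : ℤ)) *
          M ^ 2 := mul_nonneg (by linarith) (by positivity)
      nlinarith
  · intro b hbY
    constructor
    · intro hbB
      by_contra hc
      push Not at hc
      have h1 := hmin' A hAX (B.erase b) ((erase_subset b B).trans hBY)
      have h0 : Y \ B.erase b = insert b (Y \ B) := by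
        ext c
        rw [mem_sdiff, mem_erase, mem_insert, mem_sdiff]
        by_cases hcb : c = b
        · subst hcb
          simp [hbY]
        · simp [hcb]
      have h2 := eS_insert_right Γ A (C := Y \ B) (b := b) (by simp [hbB])
      have h3 : (B.erase b).card + 1 = B.card := card_erase_add_one hbB
      simp only [hw, hδ] at h1
      rw [h0, h2, ← h3] at h1
      push_cast at h1
      have h4 : ((A.filter fun v => Γ v b = true).card : ℤ) ≤ k := by exact_mod_cast hc
      have h5 : (0 : ℤ) ≤ ((k : ℤ) - ((A.filter fun v => Γ v b = true).card : ℤ)) * M ^ 2 :=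
        mul_nonneg (by linarith) (by positivity)
      nlinarith
    · intro hlt
      by_contra hbB
      have h1 := hmin' A hAX (insert b B) (insert_subset hbY hBY)
      have h0 : Y \ B = insert b (Y \ insert b B) := by
        ext c
        rw [mem_sdiff, mem_insert, mem_sdiff, mem_insert]
        by_cases hcb : c = b
        · subst hcb
          simp [hbY, hbB]
        · simp [hcb]
      have h2 := eS_insert_right Γ A (C := Y \ insert b B) (b := b) (by simp)
      have h3 : (insert b B).card = B.card + 1 := card_insert_of_notMem hbB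
      simp only [hw, hδ] at h1
      rw [h0, h2, h3] at h1
      have h6 : insert b (Y \ insert b B) \ insert b B = Y \ insert b B := by
        ext c
        simp only [mem_sdiff, mem_insert]
        tauto
      push_cast at h1
      have h4 : (k : ℤ) + 1 ≤ ((A.filter fun v => Γ v b = true).card : ℤ) := by exact_mod_cast hlt
      have h5 : (0 : ℤ) ≤ (((A.filter fun v => Γ v b = true).card : ℤ) - 1 - k) * M ^ 2 :=
        mul_nonneg (by linarith) (by positivity)
      nlinarith
  · intro hcut A' hA' B' hB'
    have h1 := hmin' A' hA' B' hB'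
    have h2 : (0 : ℤ) ≤ w A B := by
      have h3 : (0 : ℤ) ≤ δ A B := by
        simp only [hδ]
        have : ((k * A.card : ℕ) : ℤ) ≤ ((eS Γ A (Y \ B) + k * B.card : ℕ) : ℤ) := by
          exact_mod_cast hcut
        push_cast at this
        linarith
      simp only [hw]
      positivity
    have h3 : (0 : ℤ) ≤ w A' B' := h2.trans h1
    have h4 : ((A'.card : ℕ) : ℤ) ≤ M - 2 := by
      have h5 : (A'.card : ℤ) ≤ Fintype.card α := by exact_mod_cast card_le_univ A'
      have h6 : (0 : ℤ) ≤ Fintype.card β := Int.natCast_nonneg _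
      linarith
    have h5 : ((B'.card : ℕ) : ℤ) ≤ M - 2 := by
      have h5 : (B'.card : ℤ) ≤ Fintype.card β := by exact_mod_cast card_le_univ B'
      have h6 : (0 : ℤ) ≤ Fintype.card α := Int.natCast_nonneg _
      linarith
    have h6 : (0 : ℤ) ≤ δ A' B' := by
      by_contra hc
      push Not at hc
      have h7 : δ A' B' * M ^ 2 ≤ (-1) * M ^ 2 :=
        mul_le_mul_of_nonneg_right (by omega) (by positivity)
      simp only [hw] at h3
      nlinarith
    simp only [hδ] at h6
    have h7 : ((k * A'.card : ℕ) : ℤ) ≤ ((eS Γ A' (Y \ B') + k * B'.card : ℕ) : ℤ) := by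
      push_cast
      linarith
    exact_mod_cast h7

end Pool.Agent.Lib.SubBisK
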