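import Pool.Agent.Lib.SubBisK.FacCut

/-!
# The cut condition for the kernel, second part
-/

set_option autoImplicit false

namespace Pool.Agent.Lib.SubBisK

open Finset

variable {α β : Type} [Fintype α] [Fintype β] [DecidableEq α] [DecidableEq β]

/-- the cut condition -/
theorem cut_kept {H0 Γ : α → β → Bool} {d : ℕ} (hH : Reg H0 d)
    (hle : ∀ v b, H0 v b = true → Γ v b = true)
    {r : ℕ} {P : Fin r → Finset α} {Q : Fin r → Finset β} {T Λ S : ℕ} (hB : Blk Γ P Q T Λ)
    (hST : S ≤ T) (hS : 2 * Λ + 2 ≤ S) (hSd : S ≤ d)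
    {X : Finset α} {Y : Finset β} (hK : Kept P Q S X Y) :
    ∀ A ⊆ X, ∀ B ⊆ Y, (S - 1) * A.card ≤ eS Γ A (Y \ B) + (S - 1) * B.card := by
  obtain ⟨A, B, hAX, hBY, hA, hBm, hfin⟩ := exists_min_cut Γ X Y (S - 1)
  refine hfin ?_
  -- the sizes of the blocks
  have hPX : ∀ i, (P i ∩ X).card + (min (P i).card (Q i).card - S) = (P i).card := by
    intro i
    rw [← hK.delL i]
    exact card_inter_add_card_sdiff (P i) X
  have hQY : ∀ i, (Q i ∩ Y).card + (min (P i).card (Q i).card - S) = (Q i).card := by
    intro i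
    rw [← hK.delR i]
    exact card_inter_add_card_sdiff (Q i) Y
  have hPS : ∀ i, S ≤ (P i ∩ X).card := by
    intro i
    have h1 := hPX i
    have h2 := hB.bigL i
    have h3 := min_le_left (P i).card (Q i).card
    omega
  have hQS : ∀ i, S ≤ (Q i ∩ Y).card := by
    intro i
    have h1 := hQY i
    have h2 := hB.bigR i
    have h3 := min_le_right (P i).card (Q i).card
    omega
  -- twins
  have twA : ∀ i, ∀ v ∈ P i, ∀ v' ∈ P i, ∀ b, Γ v b = Γ v' b :=
    fun i v hv v' hv' => (hB.twL i v hv v').mp hv'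
  have twB : ∀ i, ∀ b ∈ Q i, ∀ b' ∈ Q i, ∀ v, Γ v b = Γ v b' :=
    fun i b hb b' hb' => (hB.twR i b hb b').mp hb'
  set s : Finset (Fin r) := univ.filter fun i => (P i ∩ A).Nonempty with hs
  set q : Finset (Fin r) := univ.filter fun i => (Q i ∩ B).Nonempty with hq
  have hsA : ∀ i ∈ s, P i ∩ X ⊆ A := by
    intro i hi v' hv'
    obtain ⟨v, hv⟩ := (mem_filter.mp hi).2
    obtain ⟨hvP, hvA⟩ := mem_inter.mp hv
    obtain ⟨hv'P, hv'X⟩ := mem_inter.mp hv'
    rw [hA v' hv'X]
    have h1 := (hA v (hAX hvA)).mp hvA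
    have h2 : ((Y \ B).filter fun b => Γ v' b = true) = (Y \ B).filter fun b => Γ v b = true :=
      filter_congr fun b _ => by rw [twA i v hvP v' hv'P b]
    rw [h2]
    exact h1
  have hqB : ∀ i ∈ q, Q i ∩ Y ⊆ B := by
    intro i hi b' hb'
    obtain ⟨b, hb⟩ := (mem_filter.mp hi).2
    obtain ⟨hbQ, hbB⟩ := mem_inter.mp hb
    obtain ⟨hb'Q, hb'Y⟩ := mem_inter.mp hb'
    rw [hBm b' hb'Y]
    have h1 := (hBm b (hBY hbB)).mp hbB
    have h2 : (A.filter fun v => Γ v b' = true) = A.filter fun v => Γ v b = true :=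
      filter_congr fun v _ => by rw [twB i b hbQ b' hb'Q v]
    rw [h2]
    exact h1
  -- the neighbours of a block in `A` are in `B`
  have hF3 : ∀ i ∈ s, ∀ v ∈ P i, ∀ b ∈ Y, Γ v b = true → b ∈ B := by
    intro i hi v hv b hb hvb
    rw [hBm b hb]
    have h1 : P i ∩ X ⊆ A.filter fun v => Γ v b = true := by
      intro v' hv'
      refine mem_filter.mpr ⟨hsA i hi hv', ?_⟩
      rw [← twA i v hv v' (mem_inter.mp hv').1 b]
      exact hvb
    have h2 := card_le_card h1
    have h3 := hPS i
    omega
  have hsq : s ⊆ q := by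
    intro i hi
    obtain ⟨v, hv⟩ := (mem_filter.mp hi).2
    have hvP := (mem_inter.mp hv).1
    have h1 : (Q i ∩ Y).Nonempty := by
      rw [← card_pos]
      have := hQS i
      omega
    obtain ⟨b, hb⟩ := h1
    obtain ⟨hbQ, hbY⟩ := mem_inter.mp hb
    have h2 := hF3 i hi v hvP b hbY (hB.bis i v hvP b hbQ).1
    exact mem_filter.mpr ⟨mem_univ _, b, mem_inter.mpr ⟨hbQ, h2⟩⟩
  -- sizes
  have hsum : ∑ i ∈ s, (P i ∩ X).card ≤ ∑ i ∈ s, (Q i ∩ Y).card + Λ := by
    have h1 := hB.balL s
    have h2 : ∑ i ∈ s, (P i).card = ∑ i ∈ s, (P i ∩ X).card +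
        ∑ i ∈ s, (min (P i).card (Q i).card - S) := by
      rw [← sum_add_distrib]
      exact sum_congr rfl fun i _ => (hPX i).symm
    have h3 : ∑ i ∈ s, (Q i).card = ∑ i ∈ s, (Q i ∩ Y).card +
        ∑ i ∈ s, (min (P i).card (Q i).card - S) := by
      rw [← sum_add_distrib]
      exact sum_congr rfl fun i _ => (hQY i).symm
    omega
  have hBbig : ∀ u : Finset (Fin r), u ⊆ q → ∑ i ∈ u, (Q i ∩ Y).card ≤ B.card := by
    intro u hu
    have h1 : u.biUnion (fun i => Q i ∩ Y) ⊆ B := by
      intro b hb
      obtain ⟨i, hi, hbi⟩ := mem_biUnion.mp hb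
      exact hqB i (hu hi) hbi
    rw [← card_biUnion]
    · exact card_le_card h1
    · intro i _ j _ hij
      exact (hB.disjR i j hij).mono inter_subset_left inter_subset_left
  have hAdec : A = s.biUnion (fun i => P i ∩ X) ∪ (A \ univ.biUnion P) := by
    ext v
    constructor
    · intro hv
      by_cases h1 : v ∈ univ.biUnion P
      · obtain ⟨i, _, hi⟩ := mem_biUnion.mp h1
        refine mem_union_left _ (mem_biUnion.mpr ⟨i, ?_, mem_inter.mpr ⟨hi, hAX hv⟩⟩)
        exact mem_filter.mpr ⟨mem_univ _, v, mem_inter.mpr ⟨hi, hv⟩⟩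
      · exact mem_union_right _ (mem_sdiff.mpr ⟨hv, h1⟩)
    · intro hv
      rcases mem_union.mp hv with h1 | h1
      · obtain ⟨i, hi, hvi⟩ := mem_biUnion.mp h1
        exact hsA i hi hvi
      · exact (mem_sdiff.mp h1).1
  have hAdisj : Disjoint (s.biUnion fun i => P i ∩ X) (A \ univ.biUnion P) := by
    rw [disjoint_left]
    intro v hv hv'
    obtain ⟨i, _, hvi⟩ := mem_biUnion.mp hv
    exact (mem_sdiff.mp hv').2 (mem_biUnion.mpr ⟨i, mem_univ _, (mem_inter.mp hvi).1⟩)
  have hAcard : A.card = ∑ i ∈ s, (P i ∩ X).card + (A \ univ.biUnion P).card := by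
    conv_lhs => rw [hAdec]
    rw [card_union_of_disjoint hAdisj, card_biUnion]
    intro i _ j _ hij
    exact (hB.disjL i j hij).mono inter_subset_left inter_subset_left
  have hLo : (A \ univ.biUnion P).card ≤ Λ :=
    (card_le_card (sdiff_subset_sdiff (subset_univ A) (subset_refl _))).trans hB.outL
  by_cases hcase : s = q
  · -- equality of the two sets of blocks
    set Qs : Finset β := s.biUnion Q with hQs
    set R : Finset β := B \ univ.biUnion Q with hR
    set Lo : Finset α := A \ univ.biUnion P with hLodef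
    have hBsub : B ⊆ Qs ∪ R := by
      intro b hb
      by_cases h1 : b ∈ univ.biUnion Q
      · obtain ⟨i, _, hi⟩ := mem_biUnion.mp h1
        refine mem_union_left _ (mem_biUnion.mpr ⟨i, ?_, hi⟩)
        rw [hcase]
        exact mem_filter.mpr ⟨mem_univ _, b, mem_inter.mpr ⟨hi, hb⟩⟩
      · exact mem_union_right _ (mem_sdiff.mpr ⟨hb, h1⟩)
    have hBcard : B.card = ∑ i ∈ s, (Q i ∩ Y).card + R.card := by
      have hdec : B = s.biUnion (fun i => Q i ∩ Y) ∪ R := by
        ext b
        constructor
        · intro hb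
          rcases mem_union.mp (hBsub hb) with h1 | h1
          · obtain ⟨i, hi, hbi⟩ := mem_biUnion.mp h1
            exact mem_union_left _ (mem_biUnion.mpr ⟨i, hi, mem_inter.mpr ⟨hbi, hBY hb⟩⟩)
          · exact mem_union_right _ h1
        · intro hb
          rcases mem_union.mp hb with h1 | h1
          · obtain ⟨i, hi, hbi⟩ := mem_biUnion.mp h1
            exact hqB i (hsq hi) hbi
          · exact (mem_sdiff.mp h1).1
      have hdisj : Disjoint (s.biUnion fun i => Q i ∩ Y) R := by
        rw [disjoint_left]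
        intro b hb hb'
        obtain ⟨i, _, hbi⟩ := mem_biUnion.mp hb
        exact (mem_sdiff.mp hb').2 (mem_biUnion.mpr ⟨i, mem_univ _, (mem_inter.mp hbi).1⟩)
      conv_lhs => rw [hdec]
      rw [card_union_of_disjoint hdisj, card_biUnion]
      intro i _ j _ hij
      exact (hB.disjR i j hij).mono inter_subset_left inter_subset_left
    -- the full blocks
    set UG : Finset α := s.biUnion P ∪ Lo with hUG
    have hUGcard : UG.card = ∑ i ∈ s, (P i).card + Lo.card := by
      rw [hUG, card_union_of_disjoint, card_biUnion]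
      · intro i _ j _ hij
        exact hB.disjL i j hij
      · rw [disjoint_left]
        intro v hv hv'
        obtain ⟨i, _, hvi⟩ := mem_biUnion.mp hv
        exact (mem_sdiff.mp hv').2 (mem_biUnion.mpr ⟨i, mem_univ _, hvi⟩)
    have hQscard : Qs.card = ∑ i ∈ s, (Q i).card := by
      rw [hQs, card_biUnion]
      intro i _ j _ hij
      exact hB.disjR i j hij
    -- neighbours
    have hnbP : ∀ i ∈ s, ∀ v ∈ P i, ∀ b, Γ v b = true → b ∈ Qs ∪ R := by
      intro i hi v hv b hvb
      by_cases hbY : b ∈ Y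
      · exact hBsub (hF3 i hi v hv b hbY hvb)
      · have h1 : ∃ k, b ∈ Q k := by
          by_contra hc
          push Not at hc
          exact hbY (hK.outR b hc)
        obtain ⟨k, hk⟩ := h1
        have h2 : (Q k ∩ Y).Nonempty := by
          rw [← card_pos]
          have := hQS k
          omega
        obtain ⟨b', hb'⟩ := h2
        obtain ⟨hb'Q, hb'Y⟩ := mem_inter.mp hb'
        have h3 : Γ v b' = true := by
          rw [← twB k b hk b' hb'Q v]
          exact hvb
        have h4 := hF3 i hi v hv b' hb'Y h3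
        refine mem_union_left _ (mem_biUnion.mpr ⟨k, ?_, hk⟩)
        rw [hcase]
        exact mem_filter.mpr ⟨mem_univ _, b', mem_inter.mpr ⟨hb'Q, h4⟩⟩
    have hnbLo : ∀ v ∈ Lo, ∀ b, Γ v b = true → b ∈ (Qs ∪ R) ∪ (Y \ B) := by
      intro v hv b hvb
      have hvA : v ∈ A := (mem_sdiff.mp hv).1
      by_cases hbB : b ∈ B
      · exact mem_union_left _ (hBsub hbB)
      by_cases hbY : b ∈ Y
      · exact mem_union_right _ (mem_sdiff.mpr ⟨hbY, hbB⟩)
      have h1 : ∃ k, b ∈ Q k := by
        by_contra hc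
        push Not at hc
        exact hbY (hK.outR b hc)
      obtain ⟨k, hk⟩ := h1
      by_cases hks : k ∈ s
      · exact mem_union_left _ (mem_union_left _ (mem_biUnion.mpr ⟨k, hks, hk⟩))
      exfalso
      have h2 := (hA v (hAX hvA)).mp hvA
      have h3 : Q k ∩ Y ⊆ (Y \ B).filter fun b => Γ v b = true := by
        intro b' hb'
        obtain ⟨hb'Q, hb'Y⟩ := mem_inter.mp hb'
        refine mem_filter.mpr ⟨mem_sdiff.mpr ⟨hb'Y, ?_⟩, ?_⟩
        · intro hb'B
          apply hks
          rw [hcase]
          exact mem_filter.mpr ⟨mem_univ _, b', mem_inter.mpr ⟨hb'Q, hb'B⟩⟩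
        · rw [← twB k b hk b' hb'Q v]
          exact hvb
      have h4 := card_le_card h3
      have h5 := hQS k
      omega
    -- counting the edges of `H0` at `UG`
    have hcount : d * UG.card ≤ d * (Qs.card + R.card) + eS Γ A (Y \ B) := by
      have h1 : d * UG.card = ∑ v ∈ UG, (univ.filter fun b => H0 v b = true).card := by
        rw [sum_congr rfl fun v _ => hH.1 v, sum_const, smul_eq_mul, mul_comm]
      have h2 : ∀ v ∈ UG, (univ.filter fun b => H0 v b = true).card ≤
          ((Qs ∪ R).filter fun b => H0 v b = true).card +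
            if v ∈ Lo then ((Y \ B).filter fun b => Γ v b = true).card else 0 := by
        intro v hv
        by_cases hvLo : v ∈ Lo
        · rw [if_pos hvLo]
          refine (card_le_card ?_).trans (card_union_le _ _)
          intro b hb
          have hvb := (mem_filter.mp hb).2
          rcases mem_union.mp (hnbLo v hvLo b (hle v b hvb)) with h3 | h3
          · exact mem_union_left _ (mem_filter.mpr ⟨h3, hvb⟩)
          · exact mem_union_right _ (mem_filter.mpr ⟨h3, hle v b hvb⟩)
        · rw [if_neg hvLo, add_zero]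
          refine card_le_card ?_
          intro b hb
          have hvb := (mem_filter.mp hb).2
          rcases mem_union.mp hv with h3 | h3
          · obtain ⟨i, hi, hvi⟩ := mem_biUnion.mp h3
            exact mem_filter.mpr ⟨hnbP i hi v hvi b (hle v b hvb), hvb⟩
          · exact absurd h3 hvLo
      have h3 : ∑ v ∈ UG, ((Qs ∪ R).filter fun b => H0 v b = true).card ≤
          d * (Qs.card + R.card) := by
        have h4 : ∑ v ∈ UG, ((Qs ∪ R).filter fun b => H0 v b = true).card =
            ∑ b ∈ Qs ∪ R, (UG.filter fun v => H0 v b = true).card := eS_comm H0 UG (Qs ∪ R)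
        rw [h4]
        calc ∑ b ∈ Qs ∪ R, (UG.filter fun v => H0 v b = true).card
            ≤ ∑ _b ∈ Qs ∪ R, d := by
              refine sum_le_sum fun b _ => ?_
              rw [← hH.2 b]
              exact card_le_card (filter_subset_filter _ (subset_univ _))
          _ = (Qs ∪ R).card * d := by rw [sum_const, smul_eq_mul]
          _ ≤ (Qs.card + R.card) * d := Nat.mul_le_mul_right _ (card_union_le _ _)
          _ = d * (Qs.card + R.card) := mul_comm _ _
      have h5 : ∑ v ∈ UG, (if v ∈ Lo then ((Y \ B).filter fun b => Γ v b = true).card else 0) ≤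
          eS Γ A (Y \ B) := by
        rw [← sum_filter]
        unfold eS
        refine sum_le_sum_of_subset ?_
        intro v hv
        exact (mem_sdiff.mp (mem_filter.mp hv).2).1
      rw [h1]
      refine (sum_le_sum h2).trans ?_
      rw [sum_add_distrib]
      exact Nat.add_le_add h3 h5
    -- conclusion
    have hm1 : A.card + ∑ i ∈ s, (min (P i).card (Q i).card - S) = UG.card := by
      rw [hAcard, hUGcard]
      have h2 : ∑ i ∈ s, (P i).card = ∑ i ∈ s, (P i ∩ X).card +
          ∑ i ∈ s, (min (P i).card (Q i).card - S) := by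
        rw [← sum_add_distrib]
        exact sum_congr rfl fun i _ => (hPX i).symm
      omega
    have hm2 : B.card + ∑ i ∈ s, (min (P i).card (Q i).card - S) = Qs.card + R.card := by
      rw [hBcard, hQscard]
      have h3 : ∑ i ∈ s, (Q i).card = ∑ i ∈ s, (Q i ∩ Y).card +
          ∑ i ∈ s, (min (P i).card (Q i).card - S) := by
        rw [← sum_add_distrib]
        exact sum_congr rfl fun i _ => (hQY i).symm
      omega
    have hdAB : d * A.card ≤ d * B.card + eS Γ A (Y \ B) := by
      rw [← hm1, ← hm2, mul_add, mul_add] at hcount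
      omega
    rcases le_total A.card B.card with h1 | h1
    · exact (Nat.mul_le_mul_left _ h1).trans (Nat.le_add_left _ _)
    · obtain ⟨e, he⟩ := Nat.exists_eq_add_of_le h1
      rw [he, mul_add] at hdAB
      rw [he, mul_add]
      have h2 : d * e ≤ eS Γ A (Y \ B) := by omega
      have h3 : (S - 1) * e ≤ d * e := Nat.mul_le_mul_right _ (by omega)
      omega
  · -- one more block on the right
    have hss : s ⊂ q := lt_of_le_of_ne hsq hcase
    obtain ⟨j, hjq, hjs⟩ := exists_of_ssubset hss
    have h1 := hBbig (insert j s) (insert_subset hjq hsq)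
    rw [sum_insert hjs] at h1
    have h2 := hQS j
    have h3 : A.card ≤ B.card := by omega
    exact (Nat.mul_le_mul_left _ h3).trans (Nat.le_add_left _ _)

end Pool.Agent.Lib.SubBisK
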