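import Pool.Agent.Lib.SubBisK.Defs
import Pool.Agent.Lib.SubBisG.FewG

/-!
# SubBisK.FewK (MP_a7c826_lc, Theorem K): the few-bound for the subsets of the left side
-/

set_option autoImplicit false

namespace Pool.Agent.Lib.SubBisK

open Finset Pool.Agent.Lib.SubBisG

variable {α β : Type} [Fintype α] [Fintype β] [DecidableEq α] [DecidableEq β]

theorem cov_eq_nb (E : α → β → Bool) (S : Finset α) :
    FewG.cov (univ : Finset β) (fun b => univ.filter fun v => E v b = true) S = (nb E S).card := by
  unfold FewG.cov nb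
  congr 1
  ext b
  simp only [mem_filter, mem_univ, true_and]
  constructor
  · rintro ⟨v, hv⟩
    rw [mem_inter, mem_filter] at hv
    exact ⟨v, hv.2, hv.1.2⟩
  · rintro ⟨v, hv, h⟩
    exact ⟨v, mem_inter.2 ⟨mem_filter.2 ⟨mem_univ v, h⟩, hv⟩⟩

theorem few_eq_few (E H : α → β → Bool) (d : ℕ) (S : Finset α) :
    FewG.few (univ : Finset β) (fun b => univ.filter fun v => E v b = true)
      (fun b => univ.filter fun v => H v b = true) d S = (few E H d S).card := by
  unfold FewG.few few nb
  congr 1
  ext b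
  have e : (univ.filter fun v => H v b = true) ∩ S = S.filter fun v => H v b = true := by
    ext v
    simp only [mem_inter, mem_filter, mem_univ, true_and]
    exact and_comm
  simp only [mem_filter, mem_univ, true_and, e]
  constructor
  · rintro ⟨⟨v, hv⟩, h⟩
    rw [mem_inter, mem_filter] at hv
    exact ⟨⟨v, hv.2, hv.1.2⟩, h⟩
  · rintro ⟨⟨v, hv, h1⟩, h⟩
    exact ⟨⟨v, mem_inter.2 ⟨mem_filter.2 ⟨mem_univ v, h1⟩, hv⟩⟩, h⟩

/-- **The few-bound.** -/
theorem few_sum {E H : α → β → Bool} {d : ℕ} (hH : Reg H d)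
    (hle : ∀ v b, H v b = true → E v b = true) (hd : 1 ≤ d) :
    ∑ S : Finset α, (2 : ℝ) ^ (((few E H d S).card : ℝ) / 4 - ((nb E S).card : ℝ)) ≤
      2 ^ (3 * ((Fintype.card α : ℝ) / d)) := by
  have h := few_exp (univ : Finset α) (univ : Finset β)
    (fun b => univ.filter fun v => E v b = true) (fun b => univ.filter fun v => H v b = true) hd
    (fun b _ v hv => by
      rw [mem_filter] at hv ⊢
      exact ⟨hv.1, hle _ _ hv.2⟩)
    (fun b _ => subset_univ _)
    (fun v _ => by
      rw [← hH.1 v]
      congr 1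
      ext b
      simp only [mem_filter, mem_univ, true_and])
    (fun b _ => (hH.2 b).le)
  simp only [cov_eq_nb, few_eq_few] at h
  rw [powerset_univ, card_univ, mul_div_assoc] at h
  refine le_trans (le_of_eq ?_) h
  refine sum_congr rfl fun S _ => ?_
  rw [← Real.rpow_add (by norm_num), sub_eq_add_neg]

end Pool.Agent.Lib.SubBisK
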