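import Pool.Agent.Lib.SubBisG.FinDefs

/-!
# MP_a7c826_lc: graphs with a regular spanning subgraph, and the bound for the time
-/

set_option autoImplicit false

namespace Pool.Agent.Lib.SubBisK

open Finset Pool.Agent.Lib.Pa7c826

/-- `H` is a subgraph of `G` in which all vertices have degree `d`. -/
def Factor (G : BGraph) (d : ℕ) (H : Fin G.a → Fin G.b → Bool) : Prop :=
  (∀ i j, H i j = true → G.E i j = true) ∧
    (∀ i, (univ.filter fun j => H i j = true).card = d) ∧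
    ∀ j, (univ.filter fun i => H i j = true).card = d

/-- The exponent of the time. -/
noncomputable def expo (y : ℝ) : ℝ := y ^ (1 / 3 : ℝ) * Real.logb 2 (y + 1) ^ (5 / 3 : ℝ)

/-- `G` has a subgraph in which all vertices have degree `d ≥ 1`, and `s ≥ 2 ^ (C expo (n / d))`. -/
def PK (C : ℕ) (G : BGraph) (s : ℕ) : Prop :=
  ∃ (d : ℕ) (H : Fin G.a → Fin G.b → Bool), 1 ≤ d ∧ 1 ≤ G.a ∧ Factor G d H ∧
    (2 : ℝ) ^ (C * expo ((G.a + G.b : ℕ) / (d : ℝ))) ≤ s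

/-- `G` has a subgraph in which all vertices have degree `d ≥ 1`, and
`n / d ≤ c (log n) ^ 3 / (log log n) ^ 5`. -/
def DenseK (c : ℕ) (G : BGraph) : Prop :=
  ∃ (d : ℕ) (H : Fin G.a → Fin G.b → Bool), 1 ≤ d ∧ 1 ≤ G.a ∧ Factor G d H ∧
    ((G.a + G.b : ℕ) / (d : ℝ)) * Real.logb 2 (Real.logb 2 ((G.a + G.b : ℕ) + 2)) ^ 5 ≤
      c * Real.logb 2 ((G.a + G.b : ℕ) + 2) ^ 3

end Pool.Agent.Lib.SubBisK
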