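import Pool.Agent.Lib.SubBisK.Transfer
import Pool.Agent.Lib.SubBisK.Stm

/-!
# MP_a7c826_lc, Theorem K: where the bound for the time is polynomial there is an FPRAS
-/

set_option autoImplicit false

namespace Pool.Agent.Lib.SubBisK

open Finset Pool.Agent.Lib.Pa7c826 Pool.Agent.Lib.PolyTime Pool.Agent.Lib.SubBisX
  Pool.Agent.Lib.SubBisC Pool.Agent.Lib.Pa7c826t Pool.Agent.Lib.SubBisG

theorem HasRTimeP.toFPRAS {P : BGraph → ℕ → Prop} {C : BGraph → Prop} (c : ℕ)
    (hC : ∀ G, C G → P G ((G.a + G.b + 2) ^ c)) (h : HasRTimeP P) : HasFPRAS C := by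
  obtain ⟨m', f', hf', hgood⟩ := h
  let M' : BGraph → ℕ → ℕ := fun G t => m'.eval (padCode G ((G.a + G.b + 2) ^ c) t).length
  let m : Polynomial ℕ := m'.comp ((Polynomial.X + 2) ^ c + 1 + Polynomial.X)
  have hM : ∀ G t, M' G t ≤ m.eval (inCode G t).length := by
    intro G t
    simp only [M', m, Polynomial.eval_comp, Polynomial.eval_add, Polynomial.eval_one,
      Polynomial.eval_pow, Polynomial.eval_X, Polynomial.eval_ofNat]
    refine eval_mono _ ?_
    rw [padCode_length]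
    have h1 : G.a + G.b + 2 ≤ (inCode G t).length + 2 := by
      rw [inCode_length]
      omega
    have h2 := Nat.pow_le_pow_left h1 c
    omega
  let f : BGraph → ℕ → List Bool → List Bool := fun G t r =>
    f' G ((G.a + G.b + 2) ^ c) t (r.take (M' G t))
  refine ⟨m, f, ?_, ?_⟩
  · let D : BGraph × ℕ × List Bool → Prop := fun x =>
      C x.1 ∧ 1 ≤ x.2.1 ∧ x.2.2.length = m.eval (inCode x.1 x.2.1).length
    let enc : BGraph × ℕ × List Bool → List Bool := fun x => inCode x.1 x.2.1 ++ x.2.2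
    have hw : PolyC D [enc] enc := PolyC.var (by simp)
    have hlen : PolyN D [enc] (fun x => (inCode x.1 x.2.1).length) :=
      (((poly_tOf hw).add ((poly_aOf hw).add ((poly_bOf hw).add
        ((poly_aOf hw).mul (poly_bOf hw))))).add (PolyN.const 3)).congr (fun x _ =>
          lenOf_append x.1 x.2.1 x.2.2)
    have hpre : PolyC D [enc] (fun x => inCode x.1 x.2.1) :=
      (PolyC.take hw hlen).congr (fun x _ => List.take_left)
    have hsuf : PolyC D [enc] (fun x => x.2.2) :=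
      (PolyC.drop hw hlen).congr (fun x _ => List.drop_left)
    have ha : PolyN D [enc] (fun x => x.1.a) :=
      (poly_aOf hpre).congr (fun x _ => aOf_inCode _ _)
    have hb : PolyN D [enc] (fun x => x.1.b) :=
      (poly_bOf hpre).congr (fun x _ => bOf_inCode _ _)
    have hs : PolyN D [enc] (fun x => (x.1.a + x.1.b + 2) ^ c) :=
      PolyN.pow ((ha.add hb).add (PolyN.const 2)) c
    have hpad : PolyC D [enc] (fun x => padCode x.1 ((x.1.a + x.1.b + 2) ^ c) x.2.1) :=
      (PolyC.append hs (PolyC.cons false hpre)).congr (fun x _ => (padCode_eq _ _ _).symm)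
    have hM' : PolyN D [enc] (fun x => M' x.1 x.2.1) :=
      PolyN.polyEval (PolyN.length hpad) m'
    have hin : PolyC D [enc] (fun x => padCode x.1 ((x.1.a + x.1.b + 2) ^ c) x.2.1 ++
        x.2.2.take (M' x.1 x.2.1)) := hpad.append (PolyC.take hsuf hM')
    have hcall : PolyC D [enc] (fun x => f x.1 x.2.1 x.2.2) := by
      refine PolyC.applyTM2 hf' _ _ hin ?_
      rintro ⟨G, t, r⟩ ⟨hG, ht, hr⟩
      refine ⟨⟨(G, (G.a + G.b + 2) ^ c, t, r.take (M' G t)), hC G hG, ht, ?_⟩, rfl, rfl⟩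
      show (r.take (M' G t)).length = M' G t
      have hr' : r.length = m.eval (inCode G t).length := hr
      rw [List.length_take, hr', min_eq_left (hM G t)]
    exact PolyC.toTM2 enc (fun x => f x.1 x.2.1 x.2.2) id hcall
  · intro G t hG ht
    obtain ⟨j, hj⟩ := Nat.exists_eq_add_of_le (hM G t)
    rw [hj]
    have h3 := hgood G ((G.a + G.b + 2) ^ c) t (hC G hG) ht
    have h4 := card_prefix (M' G t) j
      (fun l => Pa7c826.Good G t (f' G ((G.a + G.b + 2) ^ c) t l))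
    have h5 : 3 * 2 ^ M' G t ≤ 4 * Nat.card {r : Fin (M' G t) → Bool //
        Pa7c826.Good G t (f' G ((G.a + G.b + 2) ^ c) t (List.ofFn r))} := h3
    calc 3 * 2 ^ (M' G t + j) = (3 * 2 ^ M' G t) * 2 ^ j := by rw [pow_add]; ring
      _ ≤ (4 * Nat.card {r : Fin (M' G t) → Bool //
        Pa7c826.Good G t (f' G ((G.a + G.b + 2) ^ c) t (List.ofFn r))}) * 2 ^ j :=
          Nat.mul_le_mul_right _ h5
      _ = 4 * (Nat.card {r : Fin (M' G t) → Bool //
        Pa7c826.Good G t (f' G ((G.a + G.b + 2) ^ c) t (List.ofFn r))} * 2 ^ j) := by ring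
      _ = _ := by rw [← h4]

/-- The bound for the time is polynomial if `y ≤ c (log n) ^ 3 / (log log n) ^ 5`. -/
theorem expo_le {c : ℕ} {n y : ℝ} (hn : 2 ≤ n) (hy : 0 ≤ y)
    (h : y * Real.logb 2 (Real.logb 2 (n + 2)) ^ 5 ≤ c * Real.logb 2 (n + 2) ^ 3) :
    expo y ≤ ((c : ℝ) + 3) ^ 2 * Real.logb 2 (n + 2) := by
  set L : ℝ := Real.logb 2 (n + 2) with hL
  set M : ℝ := Real.logb 2 L with hM
  have hL2 : 2 ≤ L := by
    rw [hL, Real.le_logb_iff_rpow_le (by norm_num) (by linarith)]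
    norm_num
    linarith
  have hM1 : 1 ≤ M := by
    rw [hM, Real.le_logb_iff_rpow_le (by norm_num) (by linarith), Real.rpow_one]
    exact hL2
  have hc0 : (0 : ℝ) ≤ c := Nat.cast_nonneg c
  have hyL : y ≤ c * L ^ 3 := by
    have h1 : y * 1 ≤ y * M ^ 5 := mul_le_mul_of_nonneg_left (one_le_pow₀ hM1) hy
    linarith
  have hlog : Real.logb 2 (y + 1) ≤ (c + 3) * M := by
    have h1 : y + 1 ≤ (c + 1) * L ^ 3 := by
      have h2 : (1 : ℝ) ≤ L ^ 3 := one_le_pow₀ (by linarith)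
      nlinarith
    have h3 : Real.logb 2 (y + 1) ≤ Real.logb 2 ((c + 1) * L ^ 3) :=
      Real.logb_le_logb_of_le (by norm_num) (by linarith) h1
    have h4 : Real.logb 2 ((c + 1) * L ^ 3) = Real.logb 2 (c + 1) + 3 * M := by
      rw [Real.logb_mul (by positivity) (by positivity), Real.logb_pow]
      push_cast
      ring
    have h5 : Real.logb 2 ((c : ℝ) + 1) ≤ c := by
      rw [Real.logb_le_iff_le_rpow (by norm_num) (by positivity), Real.rpow_natCast]
      have h6 : c + 1 ≤ 2 ^ c := Nat.lt_two_pow_self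
      exact_mod_cast h6
    have h7 : (c : ℝ) ≤ c * M := le_mul_of_one_le_right hc0 hM1
    rw [h4] at h3
    linarith
  have hlog0 : 0 ≤ Real.logb 2 (y + 1) := Real.logb_nonneg (by norm_num) (by linarith)
  have e1 : expo y = (y * Real.logb 2 (y + 1) ^ 5) ^ (1 / 3 : ℝ) := by
    unfold expo
    rw [Real.mul_rpow hy (by positivity), ← Real.rpow_natCast, ← Real.rpow_mul hlog0]
    norm_num
  have e2 : y * Real.logb 2 (y + 1) ^ 5 ≤ (((c : ℝ) + 3) ^ 2 * L) ^ 3 := by
    calc y * Real.logb 2 (y + 1) ^ 5 ≤ y * ((c + 3) * M) ^ 5 :=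
          mul_le_mul_of_nonneg_left (pow_le_pow_left₀ hlog0 hlog 5) hy
      _ = (c + 3) ^ 5 * (y * M ^ 5) := by ring
      _ ≤ (c + 3) ^ 5 * (c * L ^ 3) := mul_le_mul_of_nonneg_left h (by positivity)
      _ ≤ (c + 3) ^ 5 * ((c + 3) * L ^ 3) := by
          refine mul_le_mul_of_nonneg_left ?_ (by positivity)
          exact mul_le_mul_of_nonneg_right (by linarith) (by positivity)
      _ = _ := by ring
  rw [e1]
  calc (y * Real.logb 2 (y + 1) ^ 5) ^ (1 / 3 : ℝ) ≤ ((((c : ℝ) + 3) ^ 2 * L) ^ 3) ^ (1 / 3 : ℝ) :=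
        Real.rpow_le_rpow (by positivity) e2 (by norm_num)
    _ = _ := by
        rw [← Real.rpow_natCast, ← Real.rpow_mul (by positivity)]
        norm_num

/-- **Corollary.** There is an FPRAS for `n / d ≤ c (log n) ^ 3 / (log log n) ^ 5`. -/
theorem fpras_of {C : ℕ} (h : HasRTimeP (PK C)) (c : ℕ) : HasFPRAS (DenseK c) := by
  refine HasRTimeP.toFPRAS (C * (c + 3) ^ 2) ?_ h
  rintro G ⟨d, H, hd, ha, hH, hy⟩
  refine ⟨d, H, hd, ha, hH, ?_⟩
  have hb : 1 ≤ G.b := by
    obtain ⟨i⟩ : Nonempty (Fin G.a) := ⟨⟨0, by omega⟩⟩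
    have h1 := hH.2.1 i
    have h2 := card_le_univ (univ.filter fun j => H i j = true)
    rw [Fintype.card_fin, h1] at h2
    omega
  have hn : (2 : ℝ) ≤ ((G.a + G.b : ℕ) : ℝ) := by exact_mod_cast (by omega : 2 ≤ G.a + G.b)
  have hd0 : (0 : ℝ) < d := by exact_mod_cast hd
  have h1 := expo_le hn (by positivity) hy
  have hn2 : (0 : ℝ) < ((G.a + G.b : ℕ) : ℝ) + 2 := by positivity
  calc (2 : ℝ) ^ ((C : ℝ) * expo (((G.a + G.b : ℕ) : ℝ) / d)) ≤
        2 ^ (((C * (c + 3) ^ 2 : ℕ) : ℝ) * Real.logb 2 (((G.a + G.b : ℕ) : ℝ) + 2)) := by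
        refine Real.rpow_le_rpow_of_exponent_le (by norm_num) ?_
        push_cast
        rw [mul_assoc]
        refine mul_le_mul_of_nonneg_left ?_ (Nat.cast_nonneg C)
        push_cast at h1
        exact h1
    _ = (((G.a + G.b : ℕ) : ℝ) + 2) ^ (C * (c + 3) ^ 2) := by
        rw [mul_comm, Real.rpow_mul (by norm_num), Real.rpow_logb (by norm_num) (by norm_num) hn2,
          Real.rpow_natCast]
    _ = (((G.a + G.b + 2) ^ (C * (c + 3) ^ 2) : ℕ) : ℝ) := by push_cast; ring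
    _ ≤ _ := le_rfl

end Pool.Agent.Lib.SubBisK
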