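import Pool.Agent.Lib.SubBisK.Defs
import Pool.Agent.Lib.SubBisC.CPoly

/-!
# SubBisK.KerPoly: the kernel of a graph is computed in polynomial time

From the input string of a bipartite graph `F`, the input string of the subgraph which is kept:
twin classes, bisimplicial pairs, deleted ranks.
-/

set_option autoImplicit false

namespace Pool.Agent.Lib.SubBisK

open Finset Pool.Agent.Lib.PolyTime Pool.Agent.Lib.Pa7c826 Pool.Agent.Lib.Pa7c826t
open Pool.Agent.Lib.SubBisC Pool.Agent.Lib.SubBisC.PolyAux

/-! ### The computation on input strings -/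

/-- adjacency of the left vertex `v` and the right vertex `u` -/
def gA (w : List Bool) (v u : ℕ) : Bool := adjOf w v (aOf w + u)

/-- the left vertices `v` and `v'` are twins -/
def twN (w : List Bool) (v v' : ℕ) : Bool :=
  decide (∀ u < bOf w, ((gA w v u && gA w v' u) || (!gA w v u && !gA w v' u)) = true)

/-- the pair `v`, `u` is bisimplicial -/
def bisN (w : List Bool) (v u : ℕ) : Bool :=
  gA w v u && decide (∀ x < aOf w,
    (!gA w x u || decide (∀ y < bOf w, (!gA w v y || gA w x y) = true)) = true)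

/-- the twins of `v` -/
def clsN (w : List Bool) (v : ℕ) : Finset ℕ := (range (aOf w)).filter fun v' => twN w v v' = true

/-- the partners of `v` -/
def bscN (w : List Bool) (v : ℕ) : Finset ℕ := (range (bOf w)).filter fun u => bisN w v u = true

/-- the number of deleted twins of `v` -/
def delN (w : List Bool) (S v : ℕ) : ℕ := min (clsN w v).card (bscN w v).card - S

/-- the left vertices which are kept -/
def keptN (w : List Bool) (S : ℕ) : Finset ℕ := (range (aOf w)).filter fun v =>
  decide (((clsN w v).filter fun v' => decide (v' < v) = true).card + delN w S v <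
    (clsN w v).card) = true

section poly

variable {α : Type*} {D : α → Prop} {ctx : List (α → List Bool)} {w : α → List Bool}
  {S u v : α → ℕ}

theorem poly_gA (hw : PolyC D ctx w) (hv : PolyN D ctx v) (hu : PolyN D ctx u) :
    PolyB D ctx (fun x => gA (w x) (v x) (u x)) := poly_adj hw hv ((poly_aOf hw).add hu)

theorem poly_twN {v' : α → ℕ} (hw : PolyC D ctx w) (hv : PolyN D ctx v)
    (hv' : PolyN D ctx v') : PolyB D ctx (fun x => twN (w x) (v x) (v' x)) := by
  have W1 := up (n := fun x => bOf (w x)) hw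
  have V1 := upN (n := fun x => bOf (w x)) hv
  have V1' := upN (n := fun x => bOf (w x)) hv'
  have L := last (D := D) (ctx := ctx) (n := fun x => bOf (w x))
  have g := poly_gA W1 V1 L
  have g' := poly_gA W1 V1' L
  exact PolyB.forall_lt (poly_bOf hw) ((g.and g').or (g.not.and g'.not))

theorem poly_bisN (hw : PolyC D ctx w) (hv : PolyN D ctx v) (hu : PolyN D ctx u) :
    PolyB D ctx (fun x => bisN (w x) (v x) (u x)) := by
  let n1 : α → ℕ := fun x => aOf (w x)
  let n2 : α × ℕ → ℕ := fun p => bOf (w p.1)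
  have W1 := up (n := n1) hw
  have V1 := upN (n := n1) hv
  have U1 := upN (n := n1) hu
  have L1 := last (D := D) (ctx := ctx) (n := n1)
  have W2 := up (n := n2) W1
  have V2 := upN (n := n2) V1
  have X2 := upN (n := n2) L1
  have L2 := last (D := fun p : α × ℕ => D p.1 ∧ p.2 < n1 p.1)
    (ctx := PolyTime.lift ctx ++ [fun p : α × ℕ => un p.2]) (n := n2)
  have h2 := PolyB.forall_lt (poly_bOf W1) ((poly_gA W2 V2 L2).not.or (poly_gA W2 X2 L2))
  exact (poly_gA hw hv hu).and (PolyB.forall_lt (poly_aOf hw) ((poly_gA W1 L1 U1).not.or h2))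

theorem poly_clsN (hw : PolyC D ctx w) (hv : PolyN D ctx v) :
    PolyS D ctx (fun x => aOf (w x)) (fun x => clsN (w x) (v x)) := by
  have W1 := up (n := fun x => aOf (w x)) hw
  have V1 := upN (n := fun x => aOf (w x)) hv
  have L := last (D := D) (ctx := ctx) (n := fun x => aOf (w x))
  have h := PolyS.filter (φ := fun p : α × ℕ => twN (w p.1) (v p.1) p.2) (poly_aOf hw)
    (PolyS.range (poly_aOf hw)) (poly_twN W1 V1 L)
  exact h

theorem poly_bscN (hw : PolyC D ctx w) (hv : PolyN D ctx v) :
    PolyS D ctx (fun x => bOf (w x)) (fun x => bscN (w x) (v x)) := by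
  have W1 := up (n := fun x => bOf (w x)) hw
  have V1 := upN (n := fun x => bOf (w x)) hv
  have L := last (D := D) (ctx := ctx) (n := fun x => bOf (w x))
  have h := PolyS.filter (φ := fun p : α × ℕ => bisN (w p.1) (v p.1) p.2) (poly_bOf hw)
    (PolyS.range (poly_bOf hw)) (poly_bisN W1 V1 L)
  exact h

theorem poly_min {f g : α → ℕ} (hf : PolyN D ctx f) (hg : PolyN D ctx g) :
    PolyN D ctx (fun x => min (f x) (g x)) :=
  (PolyN.ite (PolyB.le hf hg) hf hg).congr (fun x _ => by
    simp only [decide_eq_true_eq]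
    rcases le_or_gt (f x) (g x) with h | h
    · rw [if_pos h, min_eq_left h]
    · rw [if_neg (by omega), min_eq_right h.le])

theorem poly_delN (hw : PolyC D ctx w) (hS : PolyN D ctx S) (hv : PolyN D ctx v) :
    PolyN D ctx (fun x => delN (w x) (S x) (v x)) :=
  PolyN.sub (poly_min (PolyS.card (poly_aOf hw) (poly_clsN hw hv))
    (PolyS.card (poly_bOf hw) (poly_bscN hw hv))) hS

theorem poly_keptN (hw : PolyC D ctx w) (hS : PolyN D ctx S) :
    PolyS D ctx (fun x => aOf (w x)) (fun x => keptN (w x) (S x)) := by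
  let n1 : α → ℕ := fun x => aOf (w x)
  let n2 : α × ℕ → ℕ := fun p => aOf (w p.1)
  have W1 := up (n := n1) hw
  have S1 := upN (n := n1) hS
  have L1 := last (D := D) (ctx := ctx) (n := n1)
  have V2 := upN (n := n2) L1
  have L2 := last (D := fun p : α × ℕ => D p.1 ∧ p.2 < n1 p.1)
    (ctx := PolyTime.lift ctx ++ [fun p : α × ℕ => un p.2]) (n := n2)
  have C1 := poly_clsN W1 L1
  have F1 := PolyS.card (poly_aOf W1)
    (PolyS.filter (φ := fun p : (α × ℕ) × ℕ => decide (p.2 < p.1.2)) (poly_aOf W1) C1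
      (PolyB.lt L2 V2))
  have c1 := PolyS.card (poly_aOf W1) C1
  have h := PolyS.filter (φ := fun p : α × ℕ =>
    decide (((clsN (w p.1) p.2).filter fun v' => decide (v' < p.2) = true).card +
      delN (w p.1) (S p.1) p.2 < (clsN (w p.1) p.2).card)) (poly_aOf hw)
    (PolyS.range (poly_aOf hw)) (PolyB.lt (F1.add (poly_delN W1 S1 L1)) c1)
  exact h

end poly

/-! ### The input string of a graph -/

theorem gA_inCode (F : BGraph) (t : ℕ) (i : Fin F.a) (j : Fin F.b) :
    gA (inCode F t) i j = F.E i j := by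
  unfold gA
  rw [aOf_inCode]
  exact adjOf_lr F t i j

theorem twN_inCode (F : BGraph) (t : ℕ) (i i' : Fin F.a) :
    twN (inCode F t) i i' = decide (∀ b, F.E i b = F.E i' b) := by
  unfold twN
  rw [bOf_inCode, Bool.eq_iff_iff]
  simp only [decide_eq_true_eq]
  constructor
  · intro h b
    have h1 := h b b.2
    rw [gA_inCode, gA_inCode] at h1
    cases h2 : F.E i b <;> cases h3 : F.E i' b <;> simp_all
  · intro h u hu
    have h1 := h ⟨u, hu⟩
    have e1 := gA_inCode F t i ⟨u, hu⟩
    have e2 := gA_inCode F t i' ⟨u, hu⟩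
    simp only at e1 e2
    rw [e1, e2, h1]
    cases F.E i' ⟨u, hu⟩ <;> rfl

theorem bisN_inCode (F : BGraph) (t : ℕ) (i : Fin F.a) (j : Fin F.b) :
    bisN (inCode F t) i j = decide (Bis F.E i j) := by
  unfold bisN Bis
  rw [bOf_inCode, aOf_inCode, gA_inCode, Bool.eq_iff_iff]
  simp only [Bool.and_eq_true, decide_eq_true_eq, Bool.or_eq_true, Bool.not_eq_true']
  constructor
  · rintro ⟨h0, h⟩
    refine ⟨h0, fun w b' hw hb' => ?_⟩
    have h1 := h w w.2
    rw [gA_inCode] at h1
    rcases h1 with h1 | h1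
    · rw [hw] at h1
      exact absurd h1 (by simp)
    · have h2 := h1 b' b'.2
      rw [gA_inCode, gA_inCode] at h2
      rcases h2 with h2 | h2
      · rw [hb'] at h2
        exact absurd h2 (by simp)
      · exact h2
  · rintro ⟨h0, h⟩
    refine ⟨h0, fun x hx => ?_⟩
    have e1 := gA_inCode F t ⟨x, hx⟩ j
    simp only at e1
    rw [e1]
    cases h1 : F.E ⟨x, hx⟩ j with
    | false => exact Or.inl rfl
    | true =>
      refine Or.inr fun y hy => ?_
      have e2 := gA_inCode F t i ⟨y, hy⟩
      have e3 := gA_inCode F t ⟨x, hx⟩ ⟨y, hy⟩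
      simp only at e2 e3
      rw [e2, e3]
      cases h2 : F.E i ⟨y, hy⟩ with
      | false => exact Or.inl rfl
      | true => exact Or.inr (h _ _ h1 h2)

theorem filter_range_eq {n : ℕ} (P : ℕ → Prop) [DecidablePred P] (X : Finset (Fin n))
    (h : ∀ i : Fin n, i ∈ X ↔ P i) : (range n).filter P = X.map Fin.valEmbedding := by
  ext x
  simp only [mem_map, mem_filter, Fin.valEmbedding_apply, mem_range]
  constructor
  · rintro ⟨h1, h2⟩
    exact ⟨⟨x, h1⟩, (h _).2 h2, rfl⟩
  · rintro ⟨i, hi, rfl⟩
    exact ⟨i.2, (h i).1 hi⟩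

section mem

variable {α β : Type} [Fintype α] [Fintype β] [DecidableEq α] [DecidableEq β]

theorem mem_cls_iff (Γ : α → β → Bool) (v v' : α) : v' ∈ cls Γ v ↔ ∀ b, Γ v b = Γ v' b := by
  unfold cls
  rw [mem_filter]
  exact ⟨fun h => h.2, fun h => ⟨mem_univ _, h⟩⟩

theorem mem_bsc_iff (Γ : α → β → Bool) (v : α) (b : β) : b ∈ bsc Γ v ↔ Bis Γ v b := by
  unfold bsc
  rw [mem_filter]
  exact ⟨fun h => h.2, fun h => ⟨mem_univ _, h⟩⟩

theorem mem_kept_iff [LinearOrder α] (Γ : α → β → Bool) (S : ℕ) (v : α) : v ∈ kept Γ S ↔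
    ((cls Γ v).filter fun v' => v' < v).card + del Γ S v < (cls Γ v).card := by
  unfold kept
  rw [mem_filter]
  exact ⟨fun h => h.2, fun h => ⟨mem_univ _, h⟩⟩

end mem

theorem clsN_inCode (F : BGraph) (t : ℕ) (i : Fin F.a) :
    clsN (inCode F t) i = (cls F.E i).map Fin.valEmbedding := by
  unfold clsN
  rw [aOf_inCode]
  refine filter_range_eq _ _ fun i' => ?_
  rw [twN_inCode, decide_eq_true_eq]
  exact mem_cls_iff _ _ _

theorem bscN_inCode (F : BGraph) (t : ℕ) (i : Fin F.a) :
    bscN (inCode F t) i = (bsc F.E i).map Fin.valEmbedding := by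
  unfold bscN
  rw [bOf_inCode]
  refine filter_range_eq _ _ fun i' => ?_
  rw [bisN_inCode, decide_eq_true_eq]
  exact mem_bsc_iff _ _ _

theorem delN_inCode (F : BGraph) (t S : ℕ) (i : Fin F.a) :
    delN (inCode F t) S i = del F.E S i := by
  unfold delN del
  rw [clsN_inCode, bscN_inCode, card_map, card_map]

theorem keptN_inCode (F : BGraph) (t S : ℕ) :
    keptN (inCode F t) S = (kept F.E S).map Fin.valEmbedding := by
  unfold keptN
  rw [aOf_inCode]
  refine filter_range_eq _ _ fun i => ?_
  have e : ((cls F.E i).filter ((fun v' : ℕ => decide (v' < (i : ℕ)) = true) ∘ Fin.valEmbedding))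
      = (cls F.E i).filter fun v' => v' < i := by
    refine filter_congr fun v' _ => ?_
    simp only [Function.comp, Fin.valEmbedding_apply, decide_eq_true_eq]
    exact Fin.lt_def.symm
  rw [clsN_inCode, delN_inCode, decide_eq_true_eq, card_map, filter_map, card_map, e]
  exact mem_kept_iff _ _ _

/-- The vertex with a given number in a set. -/
theorem cs_map {a : ℕ} (X : Finset (Fin a)) (i : Fin X.card) :
    cs a (X.map Fin.valEmbedding) i = (X.orderEmbOfFin rfl i : ℕ) := by
  have hsub : X.map Fin.valEmbedding ⊆ range a := by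
    intro x hx
    obtain ⟨y, _, rfl⟩ := mem_map.1 hx
    exact mem_range.2 y.2
  have hmem : (X.orderEmbOfFin rfl i : ℕ) ∈ X.map Fin.valEmbedding :=
    mem_map.2 ⟨_, orderEmbOfFin_mem X rfl i, rfl⟩
  have hrk : SubBisC.rk (X.map Fin.valEmbedding) (X.orderEmbOfFin rfl i : ℕ) = i := by
    unfold SubBisC.rk
    have e : ((X.map Fin.valEmbedding).filter fun u => u < (X.orderEmbOfFin rfl i : ℕ)) =
        (Iio i).map ((X.orderEmbOfFin rfl).toEmbedding.trans Fin.valEmbedding) := by
      ext x
      simp only [mem_filter, mem_map, mem_Iio, Function.Embedding.trans_apply,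
        Fin.valEmbedding_apply, RelEmbedding.coe_toEmbedding]
      constructor
      · rintro ⟨⟨y, hy, rfl⟩, hlt⟩
        have hy' : y ∈ Set.range (X.orderEmbOfFin rfl) := by
          rw [range_orderEmbOfFin]
          exact hy
        obtain ⟨j, rfl⟩ := hy'
        refine ⟨j, ?_, rfl⟩
        exact (X.orderEmbOfFin rfl).lt_iff_lt.1 (Fin.lt_def.2 hlt)
      · rintro ⟨j, hj, rfl⟩
        exact ⟨⟨_, orderEmbOfFin_mem X rfl j, rfl⟩,
          Fin.lt_def.1 ((X.orderEmbOfFin rfl).lt_iff_lt.2 hj)⟩
    rw [e, card_map, Fin.card_Iio]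
  have h := cs_rk hsub hmem
  rw [hrk] at h
  exact h

/-- the graph with the sides exchanged -/
def swapG (F : BGraph) : BGraph := ⟨F.b, F.a, tr F.E⟩

theorem inCode_swapG (F : BGraph) (t t0 : ℕ) :
    inCode (mkGraph (bOf (inCode F t)) (aOf (inCode F t)) fun j i => gA (inCode F t) i j) t0 =
      inCode (swapG F) t0 := by
  rw [aOf_inCode, bOf_inCode]
  congr 1
  unfold mkGraph swapG
  congr 1
  funext j i
  exact gA_inCode F t i j

section poly2

variable {α : Type*} {D : α → Prop} {ctx : List (α → List Bool)} {F : α → BGraph}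
  {S t t' : α → ℕ}

theorem poly_swapG (hw : PolyC D ctx fun x => inCode (F x) (t x)) :
    PolyC D ctx fun x => inCode (swapG (F x)) 0 := by
  let n1 : α → ℕ := fun x => bOf (inCode (F x) (t x))
  let n2 : α × ℕ → ℕ := fun p => aOf (inCode (F p.1) (t p.1))
  have W1 := up (n := n1) hw
  have L1 := last (D := D) (ctx := ctx) (n := n1)
  have W2 := up (n := n2) W1
  have J2 := upN (n := n2) L1
  have L2 := last (D := fun p : α × ℕ => D p.1 ∧ p.2 < n1 p.1)
    (ctx := PolyTime.lift ctx ++ [fun p : α × ℕ => un p.2]) (n := n2)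
  have h := poly_inCode (a := n1) (b := fun x => aOf (inCode (F x) (t x)))
    (F := fun x j i => gA (inCode (F x) (t x)) i j) (poly_bOf hw) (poly_aOf hw)
    (PolyN.const 0) (poly_gA W2 L2 J2)
  exact h.congr (fun x _ => inCode_swapG (F x) (t x) 0)

/-- **The kernel in polynomial time.** -/
theorem poly_subG (hw : PolyC D ctx fun x => inCode (F x) (t x)) (hS : PolyN D ctx S)
    (ht : PolyN D ctx t') :
    PolyC D ctx fun x => inCode (subG (F x).E (kept (F x).E (S x))
      (kept (tr (F x).E) (S x))) (t' x) := by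
  have hw' := poly_swapG hw
  have hX := poly_keptN hw hS
  have hY := poly_keptN hw' hS
  have cX := PolyS.card (poly_aOf hw) hX
  have cY := PolyS.card (poly_aOf hw') hY
  let n1 : α → ℕ := fun x => (keptN (inCode (F x) (t x)) (S x)).card
  let n2 : α × ℕ → ℕ := fun p => (keptN (inCode (swapG (F p.1)) 0) (S p.1)).card
  have W1 := up (n := n1) hw
  have W1' := up (n := n1) hw'
  have X1 := hX.up (m := n1)
  have Y1 := hY.up (m := n1)
  have L1 := last (D := D) (ctx := ctx) (n := n1)
  have W2 := up (n := n2) W1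
  have W2' := up (n := n2) W1'
  have X2 := X1.up (m := n2)
  have Y2 := Y1.up (m := n2)
  have I2 := upN (n := n2) L1
  have L2 := last (D := fun p : α × ℕ => D p.1 ∧ p.2 < n1 p.1)
    (ctx := PolyTime.lift ctx ++ [fun p : α × ℕ => un p.2]) (n := n2)
  have h := poly_inCode (a := n1) (b := fun x => (keptN (inCode (swapG (F x)) 0) (S x)).card)
    (F := fun x i j => gA (inCode (F x) (t x))
      (cs (aOf (inCode (F x) (t x))) (keptN (inCode (F x) (t x)) (S x)) i)
      (cs (aOf (inCode (swapG (F x)) 0)) (keptN (inCode (swapG (F x)) 0) (S x)) j))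
    cX cY ht (poly_gA W2 (poly_cs (poly_aOf W2) X2 I2) (poly_cs (poly_aOf W2') Y2 L2))
  refine h.congr (fun x _ => ?_)
  have key : ∀ (G : BGraph) (t0 s : ℕ),
      mkGraph (keptN (inCode G t0) s).card (keptN (inCode (swapG G) 0) s).card
        (fun i j => gA (inCode G t0) (cs (aOf (inCode G t0)) (keptN (inCode G t0) s) i)
          (cs (aOf (inCode (swapG G) 0)) (keptN (inCode (swapG G) 0) s) j)) =
      subG G.E (kept G.E s) (kept (tr G.E) s) := by
    intro G t0 s
    rw [keptN_inCode, keptN_inCode, card_map, card_map, aOf_inCode, aOf_inCode]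
    unfold mkGraph subG
    congr 1
    funext i j
    have e1 := cs_map (kept G.E s) i
    have e2 := cs_map (kept (tr G.E) s) j
    have e3 := gA_inCode G t0 ((kept G.E s).orderEmbOfFin rfl i)
      ((kept (tr G.E) s).orderEmbOfFin rfl j)
    rw [← e3, ← e1, ← e2]
    rfl
  rw [key]

/-- the same as `poly_subG` -/
theorem poly_ker {F : α → BGraph} {s S t : α → ℕ}
    (hw : PolyC D ctx (fun x => inCode (F x) (s x))) (hS : PolyN D ctx S)
    (ht : PolyN D ctx t) :
    PolyC D ctx (fun x => inCode (subG (F x).E (kept (F x).E (S x))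
      (kept (tr (F x).E) (S x))) (t x)) := poly_subG hw hS ht

end poly2

end Pool.Agent.Lib.SubBisK
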