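import Pool.Agent.Lib.SubBisK.Defs
import Pool.Agent.Lib.Pa7c826t.AuctPoly
import Pool.Agent.Lib.Pa7c826t.Nu
import Pool.Agent.Lib.Pa7c826.Transfer

/-!
# MP_a7c826_lc, Theorem K: the completed graph is computable in polynomial time

`v` and `b` are separated by a set of deficiency at most `D` if and only if they are not adjacent
and the subgraph of the non-neighbours of `v` and `b` has an independent set with at least `N - D`
elements (`N` = number of left vertices = number of right vertices).
-/

set_option autoImplicit false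

namespace Pool.Agent.Lib.SubBisK

open Finset Pool.Agent.Lib.Pa7c826 Pool.Agent.Lib.Pa7c826t Pool.Agent.Lib.PolyTime

/-- the numbers of the vertices adjacent neither to `v` nor to `u` -/
def nonNb (w : List Bool) (v u : ℕ) : Finset ℕ :=
  (range (nOf w)).filter fun z => (!adjOf w v z && !adjOf w u z) = true

/-- The adjacency of the completed graph, read off the input string: `v` is a left vertex, `u` a
right vertex (as numbers below `nOf w`). -/
def ghW (w : List Bool) (D : ℕ) (v u : ℕ) : Bool :=
  adjOf w v u || decide ((nonNb w v u).card + D < aOf w +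
    nu (nOf w) (aOf w) (adjOf w) (nonNb w v u))

theorem nonNb_subset (w : List Bool) (v u : ℕ) : nonNb w v u ⊆ range (nOf w) :=
  filter_subset _ _

/-- A set of vertex numbers is split into its left part and its right part. -/
theorem card_split {a b : ℕ} {J : Finset ℕ} (hJ : J ⊆ range (a + b)) :
    J.card = (univ.filter fun x : Fin a => (x : ℕ) ∈ J).card +
      (univ.filter fun y : Fin b => a + (y : ℕ) ∈ J).card := by
  have h1 : J = (univ.filter fun x : Fin a => (x : ℕ) ∈ J).image (fun x : Fin a => (x : ℕ)) ∪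
      (univ.filter fun y : Fin b => a + (y : ℕ) ∈ J).image (fun y : Fin b => a + (y : ℕ)) := by
    ext z
    simp only [mem_union, mem_image, mem_filter, mem_univ, true_and]
    constructor
    · intro hz
      have hz2 := mem_range.1 (hJ hz)
      rcases lt_or_ge z a with h | h
      · exact Or.inl ⟨⟨z, h⟩, hz, rfl⟩
      · refine Or.inr ⟨⟨z - a, by omega⟩, ?_, ?_⟩
        · show a + (z - a) ∈ J
          rwa [Nat.add_sub_cancel' h]
        · show a + (z - a) = z
          omega
    · rintro (⟨x, hx, rfl⟩ | ⟨y, hy, rfl⟩)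
      · exact hx
      · exact hy
  conv_lhs => rw [h1]
  rw [card_union_of_disjoint, card_image_of_injective, card_image_of_injective]
  · intro x y h
    have h' : a + (x : ℕ) = a + (y : ℕ) := h
    exact Fin.ext (by omega)
  · intro x y h
    exact Fin.ext h
  · rw [disjoint_left]
    intro z hz hz'
    obtain ⟨x, _, rfl⟩ := mem_image.1 hz
    obtain ⟨y, _, h⟩ := mem_image.1 hz'
    have := x.2
    have h' : a + (y : ℕ) = (x : ℕ) := h
    omega

theorem adjOf_rl (G : BGraph) (t : ℕ) (i : Fin G.a) (j : Fin G.b) :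
    adjOf (inCode G t) (G.a + j) i = G.E i j := by
  rw [adjOf_symm, adjOf_lr]

theorem adjOf_ll (G : BGraph) (t : ℕ) (i i' : Fin G.a) : adjOf (inCode G t) i i' = false := by
  by_contra h
  rw [Bool.not_eq_false] at h
  have := i.2
  have := i'.2
  rcases adjOf_bip h with h | h <;> rw [aOf_inCode] at h <;> omega

theorem adjOf_rr (G : BGraph) (t : ℕ) (j j' : Fin G.b) :
    adjOf (inCode G t) (G.a + j) (G.a + j') = false := by
  by_contra h
  rw [Bool.not_eq_false] at h
  rcases adjOf_bip h with h | h <;> rw [aOf_inCode] at h <;> omega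

theorem mem_nonNb_left (G : BGraph) (t : ℕ) (i : Fin G.a) (j : Fin G.b) (x : Fin G.a) :
    (x : ℕ) ∈ nonNb (inCode G t) i (G.a + j) ↔ G.E x j = false := by
  unfold nonNb
  rw [mem_filter, nOf_inCode, mem_range, adjOf_ll, adjOf_rl]
  have := x.2
  simp only [Bool.not_false, Bool.true_and, Bool.not_eq_true']
  constructor
  · exact fun h => h.2
  · exact fun h => ⟨by omega, h⟩

theorem mem_nonNb_right (G : BGraph) (t : ℕ) (i : Fin G.a) (j y : Fin G.b) :
    G.a + (y : ℕ) ∈ nonNb (inCode G t) i (G.a + j) ↔ G.E i y = false := by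
  unfold nonNb
  rw [mem_filter, nOf_inCode, mem_range, adjOf_rr, adjOf_lr]
  have := y.2
  simp only [Bool.not_false, Bool.and_true, Bool.not_eq_true']
  constructor
  · exact fun h => h.2
  · exact fun h => ⟨by omega, h⟩

/-- **The completed graph by matching numbers.** -/
theorem gh_eq_ghW (G : BGraph) (t D : ℕ) (hab : G.a = G.b) (i : Fin G.a) (j : Fin G.b) :
    gh G.E D i j = ghW (inCode G t) D i (G.a + j) := by
  have hsym : ∀ u v, adjOf (inCode G t) u v = adjOf (inCode G t) v u := adjOf_symm _
  have hbip : ∀ u v, adjOf (inCode G t) u v = true → (u < G.a ↔ ¬ v < G.a) := by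
    intro u v h
    have := adjOf_left (inCode G t) u v h
    rwa [aOf_inCode] at this
  have hS : nonNb (inCode G t) i (G.a + j) ⊆ range (G.a + G.b) := by
    have := nonNb_subset (inCode G t) i (G.a + j)
    rwa [nOf_inCode] at this
  have hmem : ∀ (U : Finset (Fin G.a)) (y : Fin G.b), y ∈ nb G.E U ↔ ∃ v ∈ U, G.E v y = true := by
    intro U y
    simp [nb]
  have hgh : gh G.E D i j = true ↔ ¬ Comp G.E D i j := by
    classical
    unfold gh
    simp only [decide_eq_true_eq]
  rw [Bool.eq_iff_iff, hgh]
  unfold ghW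
  rw [adjOf_lr, nOf_inCode, aOf_inCode, Bool.or_eq_true, decide_eq_true_eq]
  set S := nonNb (inCode G t) i (G.a + j) with hSdef
  set ν := nu (G.a + G.b) G.a (adjOf (inCode G t)) S with hν
  constructor
  · -- not separated
    intro h
    by_contra hcon
    rw [not_or, Bool.not_eq_true, not_lt] at hcon
    obtain ⟨hE, hle⟩ := hcon
    obtain ⟨J, hJS, hJc, hJI⟩ := nu_indep hS hsym hbip
    have hJn : J ⊆ range (G.a + G.b) := hJS.trans hS
    have hsplit := card_split hJn
    refine h ⟨insert i (univ.filter fun x : Fin G.a => (x : ℕ) ∈ J), mem_insert_self _ _, ?_, ?_⟩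
    · rw [hmem]
      rintro ⟨v, hv, hvj⟩
      rcases mem_insert.1 hv with h1 | h1
      · rw [h1, hE] at hvj
        exact absurd hvj (by simp)
      · have h2 := (mem_nonNb_left G t i j v).1 (hJS (mem_filter.1 h1).2)
        rw [h2] at hvj
        exact absurd hvj (by simp)
    · have h1 : nb G.E (insert i (univ.filter fun x : Fin G.a => (x : ℕ) ∈ J)) ⊆
          (univ.filter fun y : Fin G.b => G.a + (y : ℕ) ∈ J)ᶜ := by
        intro y hy
        rw [mem_compl, mem_filter]
        rintro ⟨_, hyJ⟩
        obtain ⟨v, hv, hvy⟩ := (hmem _ _).1 hy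
        rcases mem_insert.1 hv with h1 | h1
        · have h2 := (mem_nonNb_right G t i j y).1 (hJS hyJ)
          rw [h1, h2] at hvy
          exact absurd hvy (by simp)
        · have h2 := hJI _ (mem_filter.1 h1).2 _ hyJ
          rw [adjOf_lr, hvy] at h2
          exact absurd h2 (by simp)
      have h2 := card_le_card h1
      rw [card_compl, Fintype.card_fin] at h2
      have h3 : (univ.filter fun x : Fin G.a => (x : ℕ) ∈ J).card ≤
          (insert i (univ.filter fun x : Fin G.a => (x : ℕ) ∈ J)).card :=
        card_le_card (subset_insert _ _)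
      have h4 : (univ.filter fun y : Fin G.b => G.a + (y : ℕ) ∈ J).card ≤ G.b := by
        have := card_le_univ (univ.filter fun y : Fin G.b => G.a + (y : ℕ) ∈ J)
        rwa [Fintype.card_fin] at this
      unfold df
      rw [sub_le_iff_le_add]
      have h5 : (nb G.E (insert i (univ.filter fun x : Fin G.a => (x : ℕ) ∈ J))).card ≤
          D + (insert i (univ.filter fun x : Fin G.a => (x : ℕ) ∈ J)).card := by
        omega
      exact_mod_cast h5
  · rintro hor ⟨U, hiU, hjU, hU⟩
    have hjE : ∀ v ∈ U, G.E v j = false := by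
      intro v hv
      by_contra hc
      rw [Bool.not_eq_false] at hc
      exact hjU ((hmem _ _).2 ⟨v, hv, hc⟩)
    rcases hor with hE | hlt
    · rw [hjE i hiU] at hE
      exact absurd hE (by simp)
    · set J : Finset ℕ := (range (G.a + G.b)).filter fun z =>
        (∃ x ∈ U, (x : ℕ) = z) ∨ ∃ y, y ∉ nb G.E U ∧ G.a + (y : ℕ) = z with hJ
      have hJn : J ⊆ range (G.a + G.b) := filter_subset _ _
      have hJl : ∀ x : Fin G.a, (x : ℕ) ∈ J ↔ x ∈ U := by
        intro x
        rw [hJ, mem_filter, mem_range]
        have hx := x.2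
        constructor
        · rintro ⟨_, ⟨x', hx', h⟩ | ⟨y, _, h⟩⟩
          · rwa [← Fin.ext h]
          · omega
        · intro h
          exact ⟨by omega, Or.inl ⟨x, h, rfl⟩⟩
      have hJr : ∀ y : Fin G.b, G.a + (y : ℕ) ∈ J ↔ y ∉ nb G.E U := by
        intro y
        rw [hJ, mem_filter, mem_range]
        have hy := y.2
        constructor
        · rintro ⟨_, ⟨x', hx', h⟩ | ⟨y', hy', h⟩⟩
          · have := x'.2
            omega
          · rwa [← Fin.ext (show (y' : ℕ) = y by omega)]
        · intro h
          exact ⟨by omega, Or.inr ⟨y, h, rfl⟩⟩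
      have hcases : ∀ z ∈ J, (∃ x ∈ U, (x : ℕ) = z) ∨ ∃ y, y ∉ nb G.E U ∧ G.a + (y : ℕ) = z :=
        fun z hz => (mem_filter.1 hz).2
      have hcross : ∀ x ∈ U, ∀ y, y ∉ nb G.E U → G.E x y = false := by
        intro x hx y hy
        by_contra hc
        rw [Bool.not_eq_false] at hc
        exact hy ((hmem _ _).2 ⟨x, hx, hc⟩)
      have hJS : J ⊆ S := by
        intro z hz
        rcases hcases z hz with ⟨x, hx, rfl⟩ | ⟨y, hy, rfl⟩
        · exact (mem_nonNb_left G t i j x).2 (hjE x hx)
        · exact (mem_nonNb_right G t i j y).2 (hcross i hiU y hy)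
      have hJI : ∀ u ∈ J, ∀ v ∈ J, adjOf (inCode G t) u v = false := by
        intro u hu v hv
        rcases hcases u hu with ⟨x, hx, rfl⟩ | ⟨y, hy, rfl⟩ <;>
          rcases hcases v hv with ⟨x', hx', rfl⟩ | ⟨y', hy', rfl⟩
        · exact adjOf_ll G t x x'
        · rw [adjOf_lr]; exact hcross x hx y' hy'
        · rw [adjOf_rl]; exact hcross x' hx' y hy
        · exact adjOf_rr G t y y'
      have h1 := indep_nu hS hsym hbip hJS hJI
      have hsplit := card_split hJn
      have e1 : (univ.filter fun x : Fin G.a => (x : ℕ) ∈ J) = U := by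
        ext x
        rw [mem_filter, hJl]
        simp
      have e2 : (univ.filter fun y : Fin G.b => G.a + (y : ℕ) ∈ J) = (nb G.E U)ᶜ := by
        ext y
        rw [mem_filter, hJr, mem_compl]
        simp
      rw [e1, e2, card_compl, Fintype.card_fin] at hsplit
      have h2 : (nb G.E U).card ≤ G.b := by
        have := card_le_univ (nb G.E U)
        rwa [Fintype.card_fin] at this
      have h3 : (nb G.E U).card ≤ D + U.card := by
        have : ((nb G.E U).card : ℤ) ≤ D + U.card := by
          unfold df at hU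
          linarith
        exact_mod_cast this
      omega

section poly

variable {α : Type*} {Dom : α → Prop} {ctx : List (α → List Bool)} {w : α → List Bool}
  {D v u : α → ℕ}

theorem polyS_nonNb (hw : PolyC Dom ctx w) (hv : PolyN Dom ctx v) (hu : PolyN Dom ctx u) :
    PolyS Dom ctx (fun x => nOf (w x)) (fun x => nonNb (w x) (v x) (u x)) := by
  have hn := poly_nOf hw
  have W := up (n := fun x => nOf (w x)) hw
  have V := upN (n := fun x => nOf (w x)) hv
  have U := upN (n := fun x => nOf (w x)) hu
  have L := last (D := Dom) (ctx := ctx) (n := fun x => nOf (w x))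
  exact PolyS.filter (φ := fun p : α × ℕ => !adjOf (w p.1) (v p.1) p.2 &&
    !adjOf (w p.1) (u p.1) p.2) hn (PolyS.range hn)
      (((poly_adj W V L).not).and ((poly_adj W U L).not))

theorem poly_ghW (hw : PolyC Dom ctx w) (hD : PolyN Dom ctx D) (hv : PolyN Dom ctx v)
    (hu : PolyN Dom ctx u) : PolyB Dom ctx (fun x => ghW (w x) (D x) (v x) (u x)) := by
  have hS := polyS_nonNb hw hv hu
  exact (poly_adj hw hv hu).or (PolyB.lt ((PolyS.card (poly_nOf hw) hS).add hD)
    ((poly_aOf hw).add (poly_nu hw hS)))

end poly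

/-- **The completed graph is computable in polynomial time.** -/
theorem poly_gh {α : Type*} {Dom : α → Prop} {ctx : List (α → List Bool)} {G : α → BGraph}
    {s D t : α → ℕ} (hab : ∀ x, Dom x → (G x).a = (G x).b)
    (hw : PolyC Dom ctx (fun x => inCode (G x) (s x))) (hD : PolyN Dom ctx D)
    (ht : PolyN Dom ctx t) :
    PolyC Dom ctx (fun x => inCode ⟨(G x).a, (G x).b, gh (G x).E (D x)⟩ (t x)) := by
  have ha : PolyN Dom ctx (fun x => (G x).a) :=
    (poly_aOf hw).congr (fun x _ => aOf_inCode _ _)
  have hb : PolyN Dom ctx (fun x => (G x).b) :=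
    (poly_bOf hw).congr (fun x _ => bOf_inCode _ _)
  have h1 : PolyB (fun q : (α × ℕ) × ℕ => (Dom q.1.1 ∧ q.1.2 < (G q.1.1).a) ∧ q.2 < (G q.1.1).b)
      (PolyTime.lift (PolyTime.lift ctx ++ [fun p : α × ℕ => un p.2]) ++ [fun q => un q.2])
      (fun q => ghW (inCode (G q.1.1) (s q.1.1)) (D q.1.1) q.1.2 ((G q.1.1).a + q.2)) := by
    have W := up (n := fun p : α × ℕ => (G p.1).b) (up (n := fun x => (G x).a) hw)
    have DD := upN (n := fun p : α × ℕ => (G p.1).b) (upN (n := fun x => (G x).a) hD)
    have A := upN (n := fun p : α × ℕ => (G p.1).b) (upN (n := fun x => (G x).a) ha)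
    have I := upN (n := fun p : α × ℕ => (G p.1).b)
      (last (D := Dom) (ctx := ctx) (n := fun x => (G x).a))
    have J := last (D := fun p : α × ℕ => Dom p.1 ∧ p.2 < (G p.1).a)
      (ctx := PolyTime.lift ctx ++ [fun p : α × ℕ => un p.2]) (n := fun p : α × ℕ => (G p.1).b)
    exact poly_ghW W DD I (A.add J)
  refine (poly_inCode (F := fun x i j => ghW (inCode (G x) (s x)) (D x) i ((G x).a + j))
    ha hb ht h1).congr (fun x hx => ?_)
  congr 1
  unfold mkGraph
  congr 1
  funext i j
  exact (gh_eq_ghW (G x) (s x) (D x) (hab x hx) i j).symm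

end Pool.Agent.Lib.SubBisK
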