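import Mathlib

/-!
The numbers at the end of the proof: the time on the kernel is polynomial in the given bound, the
number of vertices and the precision.

PROOF. Let `z = log₂ (s (n + 1) (t + 1)) ≥ 2`. If `y ≤ z` the first term of the minimum is at most
`c y ≤ c z`. If `z < y` then `n' + 1 ≤ (5 y) ^ c`, so `log₂ (n' + 1) ≤ 4 c log₂ (y + 1)` and the second
term is at most `16 c ^ 3` times the exponent in the hypothesis on `s`.
-/

set_option autoImplicit false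

namespace Pool.Agent.Lib.SubBisK

/-- `size k ≤ log₂ k + 1` for `k ≥ 1` -/
theorem size_le_logb_one {k : ℕ} (hk : 1 ≤ k) : (k.size : ℝ) ≤ Real.logb 2 k + 1 := by
  have h1 : 2 ^ (k.size - 1) ≤ k := by
    have h2 : 0 < k.size := Nat.size_pos.2 hk
    exact Nat.lt_size.1 (by omega)
  have h2 : 0 < k.size := Nat.size_pos.2 hk
  have h3 : ((k.size - 1 : ℕ) : ℝ) ≤ Real.logb 2 k := by
    rw [Real.le_logb_iff_rpow_le (by norm_num) (by exact_mod_cast hk), Real.rpow_natCast]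
    exact_mod_cast h1
  have h4 : ((k.size - 1 : ℕ) : ℝ) = (k.size : ℝ) - 1 := by
    rw [Nat.cast_sub h2]
    norm_num
  linarith

/-- **The numbers.** -/
theorem numK (C1 c : ℕ) : ∀ (s n t n' : ℕ) (y y' : ℝ), 1 ≤ n → 1 ≤ t → 1 ≤ y → 0 ≤ y' →
    y' ≤ c * y → n' + 1 ≤ (s.size + n.size + t.size + 1) ^ c →
    (2 : ℝ) ^ (((16 * C1 * (c + 1) ^ 3 : ℕ) : ℝ) *
      (y ^ (1 / 3 : ℝ) * Real.logb 2 (y + 1) ^ (5 / 3 : ℝ))) ≤ s →
    (2 : ℝ) ^ ((C1 : ℝ) * min y' (y' ^ (1 / 3 : ℝ) * Real.logb 2 ((n' : ℝ) + 1) ^ (5 / 3 : ℝ))) ≤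
      (((s * (n + 1) * (t + 1)) ^ (C1 * c + 1) : ℕ) : ℝ) := by
  intro s n t n' y y' hn ht hy hy' hyy hn' hs
  set w : ℝ := y ^ (1 / 3 : ℝ) * Real.logb 2 (y + 1) ^ (5 / 3 : ℝ) with hw
  have hl1 : 1 ≤ Real.logb 2 (y + 1) := by
    rw [Real.le_logb_iff_rpow_le (by norm_num) (by linarith), Real.rpow_one]
    linarith
  have hw0 : 0 ≤ w := by positivity
  have hs1 : 1 ≤ s := by
    have h1 : (1 : ℝ) ≤ s := by
      refine le_trans ?_ hs
      exact Real.one_le_rpow (by norm_num) (by positivity)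
    exact_mod_cast h1
  have hs0 : (0 : ℝ) < s := by exact_mod_cast hs1
  have hn0 : (1 : ℝ) ≤ n := by exact_mod_cast hn
  have ht0 : (1 : ℝ) ≤ t := by exact_mod_cast ht
  set q : ℕ := s * (n + 1) * (t + 1) with hq
  have hqr : (q : ℝ) = s * (n + 1) * (t + 1) := by rw [hq]; push_cast; ring
  have hq0 : (0 : ℝ) < q := by rw [hqr]; positivity
  have hq1 : 1 ≤ q := by exact_mod_cast hq0
  set z : ℝ := Real.logb 2 q with hz
  have hzq : (2 : ℝ) ^ z = q := Real.rpow_logb (by norm_num) (by norm_num) hq0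
  have hzeq : z = Real.logb 2 s + Real.logb 2 (n + 1) + Real.logb 2 (t + 1) := by
    rw [hz, hqr, Real.logb_mul (by positivity) (by positivity),
      Real.logb_mul (by positivity) (by positivity)]
  have hls : 0 ≤ Real.logb 2 s := Real.logb_nonneg (by norm_num) (by exact_mod_cast hs1)
  have hln : 1 ≤ Real.logb 2 ((n : ℝ) + 1) := by
    rw [Real.le_logb_iff_rpow_le (by norm_num) (by linarith), Real.rpow_one]
    linarith
  have hlt : 1 ≤ Real.logb 2 ((t : ℝ) + 1) := by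
    rw [Real.le_logb_iff_rpow_le (by norm_num) (by linarith), Real.rpow_one]
    linarith
  have hz2 : 2 ≤ z := by rw [hzeq]; linarith
  have hlow : ∀ e : ℝ, e ≤ (C1 * c + 1 : ℕ) * z → (2 : ℝ) ^ e ≤ ((q ^ (C1 * c + 1) : ℕ) : ℝ) := by
    intro e he
    calc (2 : ℝ) ^ e ≤ 2 ^ (z * (C1 * c + 1 : ℕ)) :=
          Real.rpow_le_rpow_of_exponent_le (by norm_num) (by linarith)
      _ = ((q ^ (C1 * c + 1) : ℕ) : ℝ) := by
          rw [Real.rpow_mul (by norm_num), hzq, Real.rpow_natCast]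
          push_cast
          rfl
  rcases le_or_gt y z with hyz | hyz
  · -- the first term
    apply hlow
    have h1 : (C1 : ℝ) * min y' (y' ^ (1 / 3 : ℝ) * Real.logb 2 ((n' : ℝ) + 1) ^ (5 / 3 : ℝ)) ≤
        C1 * (c * z) := by
      refine mul_le_mul_of_nonneg_left ((min_le_left _ _).trans ?_) (by positivity)
      exact hyy.trans (mul_le_mul_of_nonneg_left hyz (by positivity))
    push_cast
    nlinarith
  · -- the second term
    have hZ : ((s.size + n.size + t.size + 1 : ℕ) : ℝ) ≤ 3 * y := by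
      have e1 := size_le_logb_one hs1
      have e2 := size_le_logb_one hn
      have e3 := size_le_logb_one ht
      have e4 : Real.logb 2 n ≤ Real.logb 2 ((n : ℝ) + 1) :=
        Real.logb_le_logb_of_le (by norm_num) (by linarith) (by linarith)
      have e5 : Real.logb 2 t ≤ Real.logb 2 ((t : ℝ) + 1) :=
        Real.logb_le_logb_of_le (by norm_num) (by linarith) (by linarith)
      push_cast
      rw [hzeq] at hyz hz2
      linarith
    have hlog : Real.logb 2 ((n' : ℝ) + 1) ≤ 3 * (c + 1) * Real.logb 2 (y + 1) := by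
      have e1 : ((n' : ℝ) + 1) ≤ ((y + 1) ^ 3) ^ c := by
        have e2 : ((n' : ℝ) + 1) ≤ ((s.size + n.size + t.size + 1 : ℕ) : ℝ) ^ c := by
          exact_mod_cast hn'
        refine e2.trans (pow_le_pow_left₀ (by positivity) (hZ.trans ?_) c)
        nlinarith [pow_le_pow_left₀ (by linarith : (0 : ℝ) ≤ 1) hy 2,
          pow_le_pow_left₀ (by linarith : (0 : ℝ) ≤ 1) hy 3]
      have e3 : Real.logb 2 ((n' : ℝ) + 1) ≤ Real.logb 2 (((y + 1) ^ 3) ^ c) :=
        Real.logb_le_logb_of_le (by norm_num) (by positivity) e1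
      rw [← pow_mul, Real.logb_pow] at e3
      refine e3.trans ?_
      push_cast
      nlinarith
    have hlog0 : 0 ≤ Real.logb 2 ((n' : ℝ) + 1) :=
      Real.logb_nonneg (by norm_num) (by linarith [(Nat.cast_nonneg n' : (0 : ℝ) ≤ n')])
    have hc1 : (1 : ℝ) ≤ (c : ℝ) + 1 := by linarith [(Nat.cast_nonneg c : (0 : ℝ) ≤ c)]
    have h1 : y' ^ (1 / 3 : ℝ) ≤ (c + 1) * y ^ (1 / 3 : ℝ) := by
      calc y' ^ (1 / 3 : ℝ) ≤ ((c + 1) * y) ^ (1 / 3 : ℝ) :=
            Real.rpow_le_rpow hy' (by nlinarith) (by norm_num)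
        _ = (c + 1 : ℝ) ^ (1 / 3 : ℝ) * y ^ (1 / 3 : ℝ) :=
            Real.mul_rpow (by positivity) (by positivity)
        _ ≤ (c + 1) * y ^ (1 / 3 : ℝ) := by
            refine mul_le_mul_of_nonneg_right ?_ (by positivity)
            calc (c + 1 : ℝ) ^ (1 / 3 : ℝ) ≤ (c + 1 : ℝ) ^ (1 : ℝ) :=
                  Real.rpow_le_rpow_of_exponent_le hc1 (by norm_num)
              _ = c + 1 := Real.rpow_one _
    have h2 : Real.logb 2 ((n' : ℝ) + 1) ^ (5 / 3 : ℝ) ≤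
        (16 * (c + 1) ^ 2) * Real.logb 2 (y + 1) ^ (5 / 3 : ℝ) := by
      calc Real.logb 2 ((n' : ℝ) + 1) ^ (5 / 3 : ℝ)
          ≤ (3 * (c + 1) * Real.logb 2 (y + 1)) ^ (5 / 3 : ℝ) :=
            Real.rpow_le_rpow hlog0 hlog (by norm_num)
        _ = (3 * (c + 1) : ℝ) ^ (5 / 3 : ℝ) * Real.logb 2 (y + 1) ^ (5 / 3 : ℝ) :=
            Real.mul_rpow (by positivity) (by linarith)
        _ ≤ _ := by
            refine mul_le_mul_of_nonneg_right ?_ (by positivity)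
            calc (3 * (c + 1) : ℝ) ^ (5 / 3 : ℝ) ≤ (3 * (c + 1) : ℝ) ^ (2 : ℝ) :=
                  Real.rpow_le_rpow_of_exponent_le (by linarith) (by norm_num)
              _ = 9 * (c + 1) ^ 2 := by rw [Real.rpow_two]; ring
              _ ≤ _ := by nlinarith [sq_nonneg ((c : ℝ) + 1)]
    have h3 : (C1 : ℝ) * min y' (y' ^ (1 / 3 : ℝ) *
        Real.logb 2 ((n' : ℝ) + 1) ^ (5 / 3 : ℝ)) ≤ ((16 * C1 * (c + 1) ^ 3 : ℕ) : ℝ) * w := by
      calc (C1 : ℝ) * min y' (y' ^ (1 / 3 : ℝ) * Real.logb 2 ((n' : ℝ) + 1) ^ (5 / 3 : ℝ))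
          ≤ C1 * (y' ^ (1 / 3 : ℝ) * Real.logb 2 ((n' : ℝ) + 1) ^ (5 / 3 : ℝ)) :=
            mul_le_mul_of_nonneg_left (min_le_right _ _) (by positivity)
        _ ≤ C1 * (((c + 1) * y ^ (1 / 3 : ℝ)) *
            ((16 * (c + 1) ^ 2) * Real.logb 2 (y + 1) ^ (5 / 3 : ℝ))) := by
            refine mul_le_mul_of_nonneg_left ?_ (by positivity)
            exact mul_le_mul h1 h2 (by positivity) (by positivity)
        _ = _ := by
            rw [hw]
            push_cast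
            ring
    calc (2 : ℝ) ^ ((C1 : ℝ) * min y' (y' ^ (1 / 3 : ℝ) *
          Real.logb 2 ((n' : ℝ) + 1) ^ (5 / 3 : ℝ)))
        ≤ 2 ^ (((16 * C1 * (c + 1) ^ 3 : ℕ) : ℝ) * w) :=
          Real.rpow_le_rpow_of_exponent_le (by norm_num) h3
      _ ≤ s := hs
      _ ≤ q := by
          rw [hqr]
          have : (1 : ℝ) ≤ ((n : ℝ) + 1) * (t + 1) := by nlinarith
          nlinarith
      _ ≤ ((q ^ (C1 * c + 1) : ℕ) : ℝ) := by
          exact_mod_cast Nat.le_self_pow (by omega) q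

/-- The bound for `y` known to the algorithm. -/
theorem y_le_size (C : ℕ) (hC : 1 ≤ C) {s : ℕ} {y : ℝ} (hy : 1 ≤ y)
    (hs : (2 : ℝ) ^ ((C : ℝ) * (y ^ (1 / 3 : ℝ) * Real.logb 2 (y + 1) ^ (5 / 3 : ℝ))) ≤ s) :
    y ≤ ((s.size ^ 3 : ℕ) : ℝ) := by
  have hl1 : 1 ≤ Real.logb 2 (y + 1) := by
    rw [Real.le_logb_iff_rpow_le (by norm_num) (by linarith), Real.rpow_one]
    linarith
  have h1 : y ^ (1 / 3 : ℝ) ≤ (C : ℝ) * (y ^ (1 / 3 : ℝ) * Real.logb 2 (y + 1) ^ (5 / 3 : ℝ)) := by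
    have e1 : (1 : ℝ) ≤ C := by exact_mod_cast hC
    have e2 : (1 : ℝ) ≤ Real.logb 2 (y + 1) ^ (5 / 3 : ℝ) := Real.one_le_rpow hl1 (by norm_num)
    have e3 : 0 ≤ y ^ (1 / 3 : ℝ) := by positivity
    calc y ^ (1 / 3 : ℝ) = 1 * (y ^ (1 / 3 : ℝ) * 1) := by ring
      _ ≤ _ := mul_le_mul e1 (mul_le_mul_of_nonneg_left e2 e3) (by positivity) (by positivity)
  have h2 : (2 : ℝ) ^ (y ^ (1 / 3 : ℝ)) < 2 ^ ((s.size : ℕ) : ℝ) := by
    calc (2 : ℝ) ^ (y ^ (1 / 3 : ℝ)) ≤ s :=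
          (Real.rpow_le_rpow_of_exponent_le (by norm_num) h1).trans hs
      _ < 2 ^ ((s.size : ℕ) : ℝ) := by
          rw [Real.rpow_natCast]
          exact_mod_cast Nat.lt_size_self s
  have h3 : y ^ (1 / 3 : ℝ) < (s.size : ℝ) :=
    (Real.rpow_lt_rpow_left_iff (by norm_num : (1 : ℝ) < 2)).1 h2
  have h4 : y = (y ^ (1 / 3 : ℝ)) ^ 3 := by
    rw [← Real.rpow_natCast, ← Real.rpow_mul (by linarith)]
    norm_num
  rw [h4]
  push_cast
  exact pow_le_pow_left₀ (by positivity) h3.le 3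

end Pool.Agent.Lib.SubBisK
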