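import Pool.Agent.Lib.SubBisK.RedK
import Pool.Agent.Lib.SubBisK.ParK
import Pool.Agent.Lib.SubBisX.ShpPoly

/-!
# MP_a7c826_lc, Theorem K: the reduction with its parameters
-/

set_option autoImplicit false

namespace Pool.Agent.Lib.SubBisK

open Finset Pool.Agent.Lib.Pa7c826 Pool.Agent.Lib.Pa7c826t Pool.Agent.Lib.PolyTime
  Pool.Agent.Lib.P7sG

section

variable {α : Type} {Dom : α → Prop} {ctx : List (α → List Bool)} {X N t : α → ℕ}

theorem poly_szK (hN : PolyN Dom ctx N) : PolyN Dom ctx (fun x => szK (N x)) :=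
  SubBisX.poly_size hN.succ

theorem poly_DK (hX : PolyN Dom ctx X) (hN : PolyN Dom ctx N) (ht : PolyN Dom ctx t) :
    PolyN Dom ctx (fun x => DK (X x) (N x) (t x)) := by
  have hsz := poly_szK hN
  have hlg := poly_lg ht
  have h1 : PolyN Dom ctx (fun x => tauK (X x) (N x)) :=
    ((PolyN.const 16).mul hX.succ).mul hsz
  have h2 : PolyN Dom ctx (fun x => lK (X x) (t x)) :=
    (((PolyN.const 12).mul hX.succ).add ((PolyN.const 4).mul hlg)).add (PolyN.const 60)
  exact (((h1.add h2).mul hsz).add hlg).add (PolyN.const 20)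

theorem poly_LamP (hX : PolyN Dom ctx X) (hN : PolyN Dom ctx N) (ht : PolyN Dom ctx t) :
    PolyN Dom ctx (fun x => LamP (X x) (N x) (t x)) :=
  ((PolyN.const (2 ^ 20)).mul (PolyN.pow hX 5)).mul (PolyN.pow (poly_DK hX hN ht) 2)

theorem poly_SP (hX : PolyN Dom ctx X) (hN : PolyN Dom ctx N) (ht : PolyN Dom ctx t) :
    PolyN Dom ctx (fun x => SP (X x) (N x) (t x)) :=
  ((((((PolyN.const 8).mul hX).add (PolyN.const 4)).mul
    ((poly_LamP hX hN ht).add (PolyN.const 2))).add ((PolyN.const 2).mul (poly_szK hN))).add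
      (poly_lg ht)).add (PolyN.const 40)

theorem poly_condP (hX : PolyN Dom ctx X) (hN : PolyN Dom ctx N) (ht : PolyN Dom ctx t) :
    PolyB Dom ctx (fun x => condP (X x) (N x) (t x)) :=
  PolyB.le (hX.mul ((((PolyN.const (2 ^ 22)).mul (PolyN.pow hX 4)).mul
    (PolyN.pow (poly_DK hX hN ht) 2)).add ((PolyN.const 32).mul (poly_SP hX hN ht)))) hN

end

/-- The condition of the algorithm. -/
def condM (G : BGraph) (s t : ℕ) : Bool :=
  condP (s.size ^ 3) G.a t && decide (G.a = G.b)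

/-- The reduction. -/
noncomputable def redM (G : BGraph) (s t : ℕ) : BGraph :=
  redG G (DK (s.size ^ 3) G.a t) (SP (s.size ^ 3) G.a t) (condM G s t)

section

variable {c : ℕ}

theorem poly_redM : PolyC (fun x : BGraph × ℕ × ℕ => 1 ≤ x.2.2)
    [fun x => un x.2.1, fun x => inCode x.1 x.2.2]
    (fun x => inCode (redM x.1 x.2.1 x.2.2) (8 * x.2.2)) ∧
    PolyN (fun x : BGraph × ℕ × ℕ => 1 ≤ x.2.2)
    [fun x => un x.2.1, fun x => inCode x.1 x.2.2]
    (fun x => x.1.a - (redM x.1 x.2.1 x.2.2).a) := by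
  set Dm : BGraph × ℕ × ℕ → Prop := fun x => 1 ≤ x.2.2 with hDm
  set ctx : List (BGraph × ℕ × ℕ → List Bool) :=
    [fun x => un x.2.1, fun x => inCode x.1 x.2.2] with hctx
  have hw : PolyC Dm ctx (fun x => inCode x.1 x.2.2) := PolyC.var (by simp [hctx])
  have hs : PolyN Dm ctx (fun x => x.2.1) := PolyC.var (by simp [hctx])
  have ht : PolyN Dm ctx (fun x => x.2.2) :=
    (poly_tOf hw).congr (fun x _ => tOf_inCode _ _)
  have ha : PolyN Dm ctx (fun x => x.1.a) := (poly_aOf hw).congr (fun x _ => aOf_inCode _ _)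
  have hb : PolyN Dm ctx (fun x => x.1.b) := (poly_bOf hw).congr (fun x _ => bOf_inCode _ _)
  have hX : PolyN Dm ctx (fun x => x.2.1.size ^ 3) := PolyN.pow (SubBisX.poly_size hs) 3
  have hc : PolyB Dm ctx (fun x => condM x.1 x.2.1 x.2.2) :=
    (poly_condP hX ha ht).and (PolyB.natEq ha hb)
  have hab : ∀ x : BGraph × ℕ × ℕ, Dm x → condM x.1 x.2.1 x.2.2 = true → x.1.a = x.1.b := by
    intro x _ hx
    unfold condM at hx
    rw [Bool.and_eq_true, decide_eq_true_eq] at hx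
    exact hx.2
  exact ⟨poly_redG hw hc hab (poly_DK hX ha ht) (poly_SP hX ha ht) ((PolyN.const 8).mul ht),
    polyN_redG hw hc hab (poly_DK hX ha ht) (poly_SP hX ha ht)⟩

theorem poly_szM (e : ℕ) : PolyN (fun x : BGraph × ℕ × ℕ => 1 ≤ x.2.2)
    [fun x => un x.2.1, fun x => inCode x.1 x.2.2]
    (fun x => (x.2.1 * (x.1.a + x.1.b + 1) * (x.2.2 + 1)) ^ e) := by
  set Dm : BGraph × ℕ × ℕ → Prop := fun x => 1 ≤ x.2.2 with hDm
  set ctx : List (BGraph × ℕ × ℕ → List Bool) :=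
    [fun x => un x.2.1, fun x => inCode x.1 x.2.2] with hctx
  have hw : PolyC Dm ctx (fun x => inCode x.1 x.2.2) := PolyC.var (by simp [hctx])
  have hs : PolyN Dm ctx (fun x => x.2.1) := PolyC.var (by simp [hctx])
  have ht : PolyN Dm ctx (fun x => x.2.2) :=
    (poly_tOf hw).congr (fun x _ => tOf_inCode _ _)
  have ha : PolyN Dm ctx (fun x => x.1.a) := (poly_aOf hw).congr (fun x _ => aOf_inCode _ _)
  have hb : PolyN Dm ctx (fun x => x.1.b) := (poly_bOf hw).congr (fun x _ => bOf_inCode _ _)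
  exact PolyN.pow ((hs.mul (ha.add hb).succ).mul ht.succ) e

end

end Pool.Agent.Lib.SubBisK
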