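import Pool.Agent.Lib.SubBisG.TightG
import Pool.Agent.Lib.Pa7c826y.Mul

/-!
# SubBisK.Transfer: a polynomial-time map in front of the machine

`red G s t` is a graph with `2 ^ K G s t` times fewer independent sets than `G`, up to a factor
`1 ± 1 / (2 t)`; the machine for `P'` is applied to `red G s t`, the bound `sz G s t` for the time
and the precision `8 t`, and its answer is multiplied by `2 ^ K G s t`.
-/

set_option autoImplicit false

namespace Pool.Agent.Lib.SubBisK

open Finset Pool.Agent.Lib.Pa7c826 Pool.Agent.Lib.PolyTime Pool.Agent.Lib.SubBisX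
  Pool.Agent.Lib.SubBisC Pool.Agent.Lib.Pa7c826t Pool.Agent.Lib.SubBisG

/-- The output string for the value of `o` times `2 ^ m`. -/
def shl (m : ℕ) (o : List Bool) : List Bool :=
  un (tOf o) ++ false :: (List.replicate m false ++ afterTrue o)

theorem binVal_shift (m : ℕ) (l : List Bool) :
    Pa7c826.binVal (List.replicate m false ++ l) = 2 ^ m * Pa7c826.binVal l := by
  induction m with
  | zero => simp
  | succ m ih =>
    rw [List.replicate_succ, List.cons_append, Pa7c826.binVal, ih, pow_succ]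
    simp
    ring

theorem outVal_shl (m : ℕ) (o : List Bool) : outVal (shl m o) = 2 ^ m * outVal o := by
  have h1 : outVal (shl m o) =
      outVal (false :: (List.replicate m false ++ afterTrue o)) / 2 ^ tOf o := by
    unfold shl un
    rw [outVal_replicate]
  have h2 : outVal (false :: (List.replicate m false ++ afterTrue o)) =
      (Pa7c826.binVal (List.replicate m false ++ afterTrue o) : ℚ) := rfl
  rw [h1, h2, Pa7c826y.afterTrue_outVal o, binVal_shift, Pa7c826.binVal_eq_bval]
  push_cast
  unfold tOf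
  ring

theorem Good.shl {G G' : BGraph} {t K : ℕ} {o : List Bool} (ht : 1 ≤ t)
    (h : Pa7c826.Good G' (8 * t) o)
    (h5 : |(numIndep G'.graph : ℚ) * 2 ^ K - numIndep G.graph| ≤
      numIndep G.graph / (2 * t)) : Pa7c826.Good G t (shl K o) := by
  unfold Pa7c826.Good at *
  rw [outVal_shl]
  have htq : (1 : ℚ) ≤ t := by exact_mod_cast ht
  have ht0 : (0 : ℚ) < t := by linarith
  have hx0 : (0 : ℚ) ≤ (numIndep G.graph : ℚ) := by positivity
  set x : ℚ := (numIndep G.graph : ℚ) with hx
  set y : ℚ := (numIndep G'.graph : ℚ) * 2 ^ K with hy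
  have hK : (0 : ℚ) < 2 ^ K := by positivity
  have h3 : |2 ^ K * outVal o - y| ≤ y / (8 * t) := by
    have e : 2 ^ K * outVal o - y = 2 ^ K * (outVal o - numIndep G'.graph) := by
      rw [hy]; ring
    rw [e, abs_mul, abs_of_pos hK, hy]
    calc (2 : ℚ) ^ K * |outVal o - (numIndep G'.graph : ℚ)|
        ≤ 2 ^ K * ((numIndep G'.graph : ℚ) / ((8 * t : ℕ) : ℚ)) :=
          mul_le_mul_of_nonneg_left h hK.le
      _ = (numIndep G'.graph : ℚ) * 2 ^ K / (8 * t) := by
          push_cast
          ring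
  have h4 : |2 ^ K * outVal o - x| ≤ |2 ^ K * outVal o - y| + |y - x| := abs_sub_le _ _ _
  have h2 : y ≤ x + x / (2 * t) := by
    have := (abs_le.1 h5).2
    linarith
  have h8 : x / (2 * t) ≤ x := div_le_self hx0 (by linarith)
  have h6 : y / (8 * t) ≤ (2 * x) / (8 * t) :=
    div_le_div_of_nonneg_right (by linarith) (by linarith)
  have h7 : (2 * x) / (8 * t) + x / (2 * t) = 3 * (x / t) / 4 := by
    field_simp
    ring
  have h9 : 0 ≤ x / t := div_nonneg hx0 ht0.le
  linarith

/-- **Transfer** of approximation in a given time along a reduction. -/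
theorem HasRTimeP.transferMul {P P' : BGraph → ℕ → Prop} (red : BGraph → ℕ → ℕ → BGraph)
    (K : BGraph → ℕ → ℕ → ℕ) (sz : BGraph → ℕ → ℕ → ℕ)
    (hred : PolyC (fun x : BGraph × ℕ × ℕ => 1 ≤ x.2.2)
      [fun x => un x.2.1, fun x => inCode x.1 x.2.2]
      (fun x => inCode (red x.1 x.2.1 x.2.2) (8 * x.2.2)))
    (hK : PolyN (fun x : BGraph × ℕ × ℕ => 1 ≤ x.2.2)
      [fun x => un x.2.1, fun x => inCode x.1 x.2.2] (fun x => K x.1 x.2.1 x.2.2))
    (hsz : PolyN (fun x : BGraph × ℕ × ℕ => 1 ≤ x.2.2)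
      [fun x => un x.2.1, fun x => inCode x.1 x.2.2] (fun x => sz x.1 x.2.1 x.2.2))
    (hC : ∀ G s t, P G s → 1 ≤ t → P' (red G s t) (sz G s t))
    (h12 : ∀ G s t, P G s → 1 ≤ t → |(numIndep (red G s t).graph : ℚ) * 2 ^ K G s t -
      numIndep G.graph| ≤ numIndep G.graph / (2 * t))
    (h : HasRTimeP P') : HasRTimeP P := by
  obtain ⟨m', f', hf', hgood⟩ := h
  obtain ⟨pr, hpr⟩ := hred.length_le
  obtain ⟨ps, hps⟩ := hsz.length_le
  let M' : BGraph → ℕ → ℕ → ℕ := fun G s t =>
    m'.eval (padCode (red G s t) (sz G s t) (8 * t)).length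
  let m : Polynomial ℕ := m'.comp (pr + ps + 1)
  have hM : ∀ G s t, 1 ≤ t → M' G s t ≤ m.eval (padCode G s t).length := by
    intro G s t ht
    have h3 := hpr (G, s, t) ht
    have h4 := hps (G, s, t) ht
    simp only [vals_cons, vals_nil, total_cons, total_nil, Nat.add_zero, un_length] at h3 h4
    simp only [M', m, Polynomial.eval_comp, Polynomial.eval_add, Polynomial.eval_one]
    refine eval_mono _ ?_
    rw [padCode_length, padCode_length]
    have h5 : pr.eval (s + (inCode G t).length) ≤ pr.eval (s + 1 + (inCode G t).length) :=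
      eval_mono _ (by omega)
    have h6 : ps.eval (s + (inCode G t).length) ≤ ps.eval (s + 1 + (inCode G t).length) :=
      eval_mono _ (by omega)
    omega
  let f : BGraph → ℕ → ℕ → List Bool → List Bool := fun G s t r =>
    shl (K G s t) (f' (red G s t) (sz G s t) (8 * t) (r.take (M' G s t)))
  refine ⟨m, f, ?_, ?_⟩
  · -- the machine
    let D : BGraph × ℕ × ℕ × List Bool → Prop := fun x =>
      P x.1 x.2.1 ∧ 1 ≤ x.2.2.1 ∧
        x.2.2.2.length = m.eval (padCode x.1 x.2.1 x.2.2.1).length
    let enc : BGraph × ℕ × ℕ × List Bool → List Bool := fun x =>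
      padCode x.1 x.2.1 x.2.2.1 ++ x.2.2.2
    have hw : PolyC D [enc] enc := PolyC.var (by simp)
    have henc : ∀ x, enc x = un x.2.1 ++ false :: (inCode x.1 x.2.2.1 ++ x.2.2.2) := by
      intro x
      show padCode x.1 x.2.1 x.2.2.1 ++ x.2.2.2 = _
      rw [padCode_eq, List.append_assoc, List.cons_append]
    have hs : PolyN D [enc] (fun x => x.2.1) :=
      (poly_tOf hw).congr (fun x _ => by rw [henc, tOf, takeWhile_un, un_length])
    have hv : PolyC D [enc] (fun x => inCode x.1 x.2.2.1 ++ x.2.2.2) :=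
      hw.afterTrue.congr (fun x _ => by rw [henc, afterTrue_un])
    have hlen : PolyN D [enc] (fun x => (inCode x.1 x.2.2.1).length) :=
      (((poly_tOf hv).add ((poly_aOf hv).add ((poly_bOf hv).add
        ((poly_aOf hv).mul (poly_bOf hv))))).add (PolyN.const 3)).congr (fun x _ =>
          lenOf_append x.1 x.2.2.1 x.2.2.2)
    have hpre : PolyC D [enc] (fun x => inCode x.1 x.2.2.1) :=
      (PolyC.take hv hlen).congr (fun x _ => List.take_left)
    have hsuf : PolyC D [enc] (fun x => x.2.2.2) :=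
      (PolyC.drop hv hlen).congr (fun x _ => List.drop_left)
    have hsub : ∀ {t : BGraph × ℕ × ℕ → List Bool},
        PolyC (fun x : BGraph × ℕ × ℕ => 1 ≤ x.2.2)
          [fun x => un x.2.1, fun x => inCode x.1 x.2.2] t →
        PolyC D [enc] (fun x => t (x.1, x.2.1, x.2.2.1)) := by
      intro t ht
      have h3 := ht.reindex (β := BGraph × ℕ × ℕ × List Bool) (D' := D)
        (fun x => (x.1, x.2.1, x.2.2.1)) (fun x hx => hx.2.1)
      refine h3.comp ?_
      intro g hg
      simp only [List.map_cons, List.map_nil, List.mem_cons, List.not_mem_nil, or_false] at hg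
      rcases hg with rfl | rfl
      · exact hs
      · exact hpre
    have hred' : PolyC D [enc] (fun x => inCode (red x.1 x.2.1 x.2.2.1) (8 * x.2.2.1)) :=
      hsub hred
    have hK' : PolyN D [enc] (fun x => K x.1 x.2.1 x.2.2.1) := hsub hK
    have hsz' : PolyN D [enc] (fun x => sz x.1 x.2.1 x.2.2.1) := hsub hsz
    have hpad : PolyC D [enc] (fun x => padCode (red x.1 x.2.1 x.2.2.1)
        (sz x.1 x.2.1 x.2.2.1) (8 * x.2.2.1)) :=
      (PolyC.append hsz' (PolyC.cons false hred')).congr (fun x _ => (padCode_eq _ _ _).symm)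
    have hM' : PolyN D [enc] (fun x => M' x.1 x.2.1 x.2.2.1) :=
      PolyN.polyEval (PolyN.length hpad) m'
    have hin : PolyC D [enc] (fun x => padCode (red x.1 x.2.1 x.2.2.1)
        (sz x.1 x.2.1 x.2.2.1) (8 * x.2.2.1) ++ x.2.2.2.take (M' x.1 x.2.1 x.2.2.1)) :=
      hpad.append (PolyC.take hsuf hM')
    have hcall : PolyC D [enc] (fun x => f' (red x.1 x.2.1 x.2.2.1) (sz x.1 x.2.1 x.2.2.1)
        (8 * x.2.2.1) (x.2.2.2.take (M' x.1 x.2.1 x.2.2.1))) := by
      refine PolyC.applyTM2 hf' _ _ hin ?_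
      rintro ⟨G, s, t, r⟩ ⟨hG, ht, hr⟩
      refine ⟨⟨(red G s t, sz G s t, 8 * t, r.take (M' G s t)), hC G s t hG ht, ?_, ?_⟩,
        rfl, rfl⟩
      · have ht' : 1 ≤ t := ht
        show 1 ≤ 8 * t
        omega
      · show (r.take (M' G s t)).length = M' G s t
        have hr' : r.length = m.eval (padCode G s t).length := hr
        rw [List.length_take, hr', min_eq_left (hM G s t ht)]
    have hout : PolyC D [enc] (fun x => f x.1 x.2.1 x.2.2.1 x.2.2.2) :=
      PolyC.append (poly_tOf hcall) (PolyC.cons false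
        (PolyC.append (PolyC.replicateFalse hK') hcall.afterTrue))
    exact PolyC.toTM2 enc (fun x => f x.1 x.2.1 x.2.2.1 x.2.2.2) id hout
  · intro G s t hG ht
    obtain ⟨j, hj⟩ := Nat.exists_eq_add_of_le (hM G s t ht)
    rw [hj]
    have h3 := hgood (red G s t) (sz G s t) (8 * t) (hC G s t hG ht) (by omega)
    have h4 : Nat.card {r : Fin (M' G s t + j) → Bool //
        Pa7c826.Good (red G s t) (8 * t)
          (f' (red G s t) (sz G s t) (8 * t) ((List.ofFn r).take (M' G s t)))} ≤
        Nat.card {r : Fin (M' G s t + j) → Bool // Pa7c826.Good G t (f G s t (List.ofFn r))} := by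
      refine Nat.card_le_card_of_injective (fun r => ⟨r.1, ?_⟩) ?_
      · exact Good.shl ht r.2 (h12 G s t hG ht)
      · intro r r' hrr
        simp only [Subtype.mk.injEq] at hrr
        exact Subtype.ext hrr
    rw [card_prefix (M' G s t) j
      (fun l => Pa7c826.Good (red G s t) (8 * t) (f' (red G s t) (sz G s t) (8 * t) l))] at h4
    have h5 : 3 * 2 ^ M' G s t ≤ 4 * Nat.card {r : Fin (M' G s t) → Bool //
        Pa7c826.Good (red G s t) (8 * t)
          (f' (red G s t) (sz G s t) (8 * t) (List.ofFn r))} := h3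
    calc 3 * 2 ^ (M' G s t + j) = (3 * 2 ^ M' G s t) * 2 ^ j := by rw [pow_add]; ring
      _ ≤ (4 * Nat.card {r : Fin (M' G s t) → Bool //
        Pa7c826.Good (red G s t) (8 * t)
          (f' (red G s t) (sz G s t) (8 * t) (List.ofFn r))}) * 2 ^ j :=
          Nat.mul_le_mul_right _ h5
      _ = 4 * (Nat.card {r : Fin (M' G s t) → Bool //
        Pa7c826.Good (red G s t) (8 * t)
          (f' (red G s t) (sz G s t) (8 * t) (List.ofFn r))} * 2 ^ j) := by ring
      _ ≤ _ := Nat.mul_le_mul_left _ h4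

/-- The padded input code from its two parts. -/
theorem poly_padCode {α : Type} {D : α → Prop} {L : List (α → List Bool)} {G : α → BGraph}
    {s t : α → ℕ} (hs : PolyN D L s) (hG : PolyC D L (fun x => inCode (G x) (t x))) :
    PolyC D L (fun x => padCode (G x) (s x) (t x)) :=
  (PolyC.append hs (PolyC.cons false hG)).congr (fun x _ => (padCode_eq _ _ _).symm)

end Pool.Agent.Lib.SubBisK
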