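import Pool.Agent.Lib.SubBisK.AnaK
import Pool.Agent.Lib.SubBisK.CodeK
import Pool.Agent.Lib.SubBisK.NumK
import Pool.Agent.Lib.SubBisK.Stm
import Pool.Agent.Lib.SubBisK.ParPolyK
import Pool.Agent.Lib.SubBisK.Transfer

/-!
# SubBisK.MainK (MP_a7c826_lc, Theorem K): the time for graphs with a regular spanning subgraph
-/

set_option autoImplicit false

namespace Pool.Agent.Lib.SubBisK

open Finset Pool.Agent.Lib.Pa7c826 Pool.Agent.Lib.Pa7c826t Pool.Agent.Lib.P7sG
  Pool.Agent.Lib.SubBisG Pool.Agent.Lib.PolyTime Pool.Agent.Lib.SubBisX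

/-- the number of pairs of vertices that are deleted -/
noncomputable def shK (G : BGraph) (s t : ℕ) : ℕ := G.a - (redM G s t).a

/-- the bound for the time on the kernel -/
def szP (C1 c : ℕ) (G : BGraph) (s t : ℕ) : ℕ :=
  (s * (G.a + G.b + 1) * (t + 1)) ^ (C1 * c + 1)

/-! ### The correctness -/

section correct

variable {G : BGraph} {d s t : ℕ} {H : Fin G.a → Fin G.b → Bool}

theorem Factor.reg (h : Factor G d H) : Reg H d := h.2

theorem Factor.a_eq_b (h : Factor G d H) (hd : 1 ≤ d) : G.a = G.b := by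
  have h1 := h.reg.card_eq' hd
  rwa [Fintype.card_fin, Fintype.card_fin] at h1

theorem Factor.d_le (h : Factor G d H) (hd : 1 ≤ d) (ha : 1 ≤ G.a) : d ≤ G.a := by
  have h1 := h.reg.le_card hd (by rwa [Fintype.card_fin])
  rwa [Fintype.card_fin] at h1

theorem hyp_of (h : Factor G d H) (hd : 1 ≤ d) (ha : 1 ≤ G.a) {X : ℕ} (hX : G.a ≤ X * d)
    (hX1 : 1 ≤ X) (hc : condP X G.a t = true) : Hyp G.E H d G.a X t where
  reg := h.reg
  le := h.1
  pos := hd
  card := Fintype.card_fin _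
  one_le := ha
  leX := hX
  posX := hX1
  cond := hc

theorem redM_pos (hc : condM G s t = true) :
    redM G s t = subG (gK G.E G.a (s.size ^ 3) t) (xK G.E G.a (s.size ^ 3) t)
      (yK G.E G.a (s.size ^ 3) t) := by
  unfold redM redG
  rw [if_pos hc]
  rfl

theorem redM_neg (hc : condM G s t = false) : redM G s t = G := by
  unfold redM redG
  rw [if_neg (by rw [hc]; exact Bool.false_ne_true)]

/-- **The number of independent sets of the reduced graph.** -/
theorem count_redM (h : Factor G d H) (hd : 1 ≤ d) (ha : 1 ≤ G.a)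
    (hX : G.a ≤ s.size ^ 3 * d) (hX1 : 1 ≤ s.size ^ 3) (ht : 1 ≤ t) :
    |(numIndep (redM G s t).graph : ℚ) * 2 ^ shK G s t - numIndep G.graph| ≤
      numIndep G.graph / (2 * t) := by
  rcases hc : condM G s t with _ | _
  · unfold shK
    rw [redM_neg hc, Nat.sub_self, pow_zero, mul_one, sub_self, abs_zero]
    positivity
  · have hc' : condP (s.size ^ 3) G.a t = true := by
      unfold condM at hc
      rw [Bool.and_eq_true] at hc
      exact hc.1
    have h1 := (hyp_of (t := t) h hd ha hX hX1 hc').count ht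
    have e : shK G s t = (univ \ xK G.E G.a (s.size ^ 3) t).card := by
      unfold shK
      rw [redM_pos hc, card_sdiff, inter_univ, card_univ, Fintype.card_fin]
      rfl
    rw [e, redM_pos hc, numIndep_subG, numIndep_eq_ip]
    have h2 : (((|(ip (gK G.E G.a (s.size ^ 3) t) (xK G.E G.a (s.size ^ 3) t)
        (yK G.E G.a (s.size ^ 3) t) : ℚ) * 2 ^ (univ \ xK G.E G.a (s.size ^ 3) t).card -
        ip G.E univ univ| : ℚ)) : ℝ) ≤ (((ip G.E univ univ : ℚ) / (2 * t) : ℚ) : ℝ) := by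
      push_cast
      exact h1
    exact_mod_cast h2

/-- **The promise for the reduced graph.** -/
theorem pmin_redM {C1 c : ℕ} (hc17 : 17 ≤ c)
    (hc1 : ∀ s N t : ℕ, 1 ≤ s → 1 ≤ N → 1 ≤ t →
      2 * (8 * s.size ^ 3 * SP (s.size ^ 3) N t + 2 * LamP (s.size ^ 3) N t) + 1 ≤
          (s.size + (2 * N).size + t.size + 1) ^ c ∧
        (condP (s.size ^ 3) N t = false →
          2 * N + 1 ≤ (s.size + (2 * N).size + t.size + 1) ^ c))
    (h : Factor G d H) (hd : 1 ≤ d) (ha : 1 ≤ G.a)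
    (hX : G.a ≤ s.size ^ 3 * d) (hX1 : 1 ≤ s.size ^ 3) (ht : 1 ≤ t)
    (hs : (2 : ℝ) ^ (((16 * C1 * (c + 1) ^ 3 : ℕ) : ℝ) *
      expo ((G.a + G.b : ℕ) / (d : ℝ))) ≤ s) :
    PMin 5 C1 (redM G s t) (szP C1 c G s t) := by
  have hab := h.a_eq_b hd
  have hda := h.d_le hd ha
  have hd0 : (0 : ℝ) < d := by exact_mod_cast hd
  have hs1 : 1 ≤ s := by
    rcases Nat.eq_zero_or_pos s with h0 | h0
    · subst h0
      simp at hX1
    · exact h0
  have h2a : G.a + G.b = 2 * G.a := by omega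
  set y : ℝ := ((G.a + G.b : ℕ) : ℝ) / (d : ℝ) with hy
  have hy2 : 2 ≤ y := by
    rw [hy, le_div_iff₀ hd0, h2a]
    push_cast
    have : (d : ℝ) ≤ G.a := by exact_mod_cast hda
    linarith
  have hc17' : (17 : ℝ) ≤ c := by exact_mod_cast hc17
  obtain ⟨h3, h4⟩ := hc1 s G.a t hs1 ha ht
  have hnum : ∀ (n' : ℕ) (y' : ℝ), n' + 1 ≤ (s.size + (2 * G.a).size + t.size + 1) ^ c →
      0 ≤ y' → y' ≤ c * y → (2 : ℝ) ^ ((C1 : ℝ) * min y' (y' ^ (1 / 3 : ℝ) *
        Real.logb 2 ((n' : ℝ) + 1) ^ (5 / 3 : ℝ))) ≤ szP C1 c G s t := by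
    intro n' y' h5 h6 h7
    exact numK C1 c s (G.a + G.b) t n' y y' (by omega) ht (by linarith) h6 h7
      (by rw [h2a]; exact h5) hs
  rcases hc : condM G s t with _ | _
  · -- no kernel
    rw [redM_neg hc]
    have hc' : condP (s.size ^ 3) G.a t = false := by
      unfold condM at hc
      rw [decide_eq_true hab, Bool.and_true] at hc
      exact hc
    refine ⟨d, 0, H, hd, hda, ⟨h.1, fun i => (h.2.1 i).le, fun j => (h.2.2 j).le⟩,
      fun i => ?_, ?_⟩
    · rw [h.2.1 i]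
      exact Nat.le_add_right _ _
    · have e1 : (1 + ((0 : ℕ) : ℝ)) * ((G.a + G.b : ℕ) : ℝ) / d = y := by
        rw [Nat.cast_zero, add_zero, one_mul]
      rw [e1]
      have h5 := hnum (G.a + G.b) y (by rw [h2a]; exact h4 hc') (by linarith) (by nlinarith)
      simpa only [Nat.cast_ofNat] using h5
  · have hc' : condP (s.size ^ 3) G.a t = true := by
      unfold condM at hc
      rw [Bool.and_eq_true] at hc
      exact hc.1
    have hh := hyp_of (t := t) h hd ha hX hX1 hc'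
    obtain ⟨r, P, Q, hr1, hrd, hrX, hST, hB, hK⟩ := hh.exists_str
    have h5 := two_LamP_le (X := s.size ^ 3) (N := G.a) (t := t) hX1
    rw [redM_pos hc]
    refine pmin_kernel h.reg (fun v b hv => gh_of_adj (h.1 v b hv)) hB hST h5
      (by omega) hr1 hK ?_
    intro n' y' h6 h7 h8
    refine hnum n' y' (le_trans ?_ h3) h7 (h8.trans ?_)
    · have h9 : r * SP (s.size ^ 3) G.a t ≤ 8 * s.size ^ 3 * SP (s.size ^ 3) G.a t :=
        Nat.mul_le_mul_right _ hrX
      omega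
    · -- `4 r + 2 ≤ 17 y`
      have h9 : (r : ℝ) ≤ 4 * y := by
        rw [hy, h2a, mul_div_assoc', le_div_iff₀ hd0]
        have : ((r * d : ℕ) : ℝ) ≤ ((8 * G.a : ℕ) : ℝ) := by exact_mod_cast hrd
        push_cast at this ⊢
        linarith
      nlinarith

end correct

theorem expo_nonneg {y : ℝ} (hy : 0 ≤ y) : 0 ≤ expo y := by
  unfold expo
  exact mul_nonneg (Real.rpow_nonneg hy _)
    (Real.rpow_nonneg (Real.logb_nonneg (by norm_num) (by linarith)) _)

/-- **Theorem K.** -/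
theorem hasRTimeP_K : ∃ C : ℕ, HasRTimeP (PK C) := by
  obtain ⟨C1, hT⟩ := hasRTimeP_min
  obtain ⟨c, hc17, hc1⟩ := exists_c
  set Cf : ℕ := 16 * C1 * (c + 1) ^ 3 with hCf
  refine ⟨Cf + 1, ?_⟩
  have key : ∀ G s t, PK (Cf + 1) G s → 1 ≤ t →
      ∃ (d : ℕ) (H : Fin G.a → Fin G.b → Bool), 1 ≤ d ∧ 1 ≤ G.a ∧ Factor G d H ∧
        G.a ≤ s.size ^ 3 * d ∧ 1 ≤ s.size ^ 3 ∧
        (2 : ℝ) ^ ((Cf : ℝ) * expo ((G.a + G.b : ℕ) / (d : ℝ))) ≤ s := by
    rintro G s t ⟨d, H, hd, ha, hF, hs⟩ _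
    have hda := hF.d_le hd ha
    have hd0 : (0 : ℝ) < d := by exact_mod_cast hd
    have hy1 : 1 ≤ ((G.a + G.b : ℕ) : ℝ) / (d : ℝ) := by
      rw [le_div_iff₀ hd0, one_mul]
      exact_mod_cast (by omega : d ≤ G.a + G.b)
    have h1 := y_le_size (Cf + 1) (Nat.succ_pos _) hy1 hs
    have h2 : (((G.a + G.b : ℕ) : ℝ)) ≤ ((s.size ^ 3 * d : ℕ) : ℝ) := by
      rw [div_le_iff₀ hd0] at h1
      rw [Nat.cast_mul]
      exact h1
    have h3 : G.a + G.b ≤ s.size ^ 3 * d := by exact_mod_cast h2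
    refine ⟨d, H, hd, ha, hF, by omega, ?_, ?_⟩
    · by_contra h4
      have h5 : s.size ^ 3 = 0 := by omega
      rw [h5] at h3
      omega
    · refine le_trans (Real.rpow_le_rpow_of_exponent_le (by norm_num) ?_) hs
      have h4 := expo_nonneg (zero_le_one.trans hy1)
      have h5 : ((Cf + 1 : ℕ) : ℝ) = Cf + 1 := by push_cast; ring
      rw [h5, add_mul, one_mul]
      exact le_add_of_nonneg_right h4
  refine HasRTimeP.transferMul redM shK (szP C1 c) poly_redM.1 poly_redM.2 (poly_szM _)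
    (fun G s t h ht => ?_) (fun G s t h ht => ?_) hT
  · obtain ⟨d, H, hd, ha, hF, hX, hX1, hs⟩ := key G s t h ht
    exact pmin_redM hc17 hc1 hF hd ha hX hX1 ht hs
  · obtain ⟨d, H, hd, ha, hF, hX, hX1, _⟩ := key G s t h ht
    exact count_redM hF hd ha hX hX1 ht

end Pool.Agent.Lib.SubBisK
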