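import Pool.Agent.Lib.SubBisK.KonK
import Pool.Agent.Lib.SubBisK.KerPoly

/-!
# MP_a7c826_lc, Theorem K: the reduction is computable in polynomial time
-/

set_option autoImplicit false

namespace Pool.Agent.Lib.SubBisK

open Finset Pool.Agent.Lib.Pa7c826 Pool.Agent.Lib.Pa7c826t Pool.Agent.Lib.PolyTime

/-- The kernel of the completed graph if `c` is true, the graph itself otherwise. -/
noncomputable def redG (G : BGraph) (D S : ℕ) (c : Bool) : BGraph :=
  if c = true then subG (gh G.E D) (kept (gh G.E D) S) (kept (tr (gh G.E D)) S) else G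

theorem poly_redG {α : Type*} {Dom : α → Prop} {ctx : List (α → List Bool)} {G : α → BGraph}
    {s D S t : α → ℕ} {c : α → Bool}
    (hw : PolyC Dom ctx (fun x => inCode (G x) (s x))) (hc : PolyB Dom ctx c)
    (hab : ∀ x, Dom x → c x = true → (G x).a = (G x).b) (hD : PolyN Dom ctx D)
    (hS : PolyN Dom ctx S) (ht : PolyN Dom ctx t) :
    PolyC Dom ctx (fun x => inCode (redG (G x) (D x) (S x) (c x)) (t x)) := by
  have h1 : PolyC (fun x => Dom x ∧ c x = true) ctx (fun x => inCode
      (subG (gh (G x).E (D x)) (kept (gh (G x).E (D x)) (S x))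
        (kept (tr (gh (G x).E (D x))) (S x))) (t x)) :=
    poly_subG (F := fun x => ⟨(G x).a, (G x).b, gh (G x).E (D x)⟩)
      (poly_gh (fun x hx => hab x hx.1 hx.2) (hw.mono fun x hx => hx.1)
        (hD.mono fun x hx => hx.1) (hD.mono fun x hx => hx.1))
      (hS.mono fun x hx => hx.1) (ht.mono fun x hx => hx.1)
  have h2 : PolyC (fun x => Dom x ∧ c x = false) ctx (fun x => inCode (G x) (t x)) :=
    PolyC.mono ((PolyC.append ht (PolyC.cons false hw.afterTrue)).congr (fun x _ => by
      rw [inCode_eq (G x) (s x), afterTrue_un, inCode_eq])) (fun x hx => hx.1)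
  refine (PolyC.ite hc h1 h2).congr (fun x _ => ?_)
  unfold redG
  split_ifs <;> rfl

theorem polyN_redG {α : Type*} {Dom : α → Prop} {ctx : List (α → List Bool)} {G : α → BGraph}
    {s D S : α → ℕ} {c : α → Bool}
    (hw : PolyC Dom ctx (fun x => inCode (G x) (s x))) (hc : PolyB Dom ctx c)
    (hab : ∀ x, Dom x → c x = true → (G x).a = (G x).b) (hD : PolyN Dom ctx D)
    (hS : PolyN Dom ctx S) :
    PolyN Dom ctx (fun x => (G x).a - (redG (G x) (D x) (S x) (c x)).a) :=
  PolyN.sub ((poly_aOf hw).congr (fun x _ => aOf_inCode _ _))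
    ((poly_aOf (poly_redG hw hc hab hD hS (PolyN.const 0))).congr (fun x _ => aOf_inCode _ _))

end Pool.Agent.Lib.SubBisK
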