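import Pool.Agent.Lib.SubBisK.Defs

/-!
# SubBisK.SubK (MP_a7c826_lc, Theorem K): submodularity and edge counts

`N` = neighbours in `E`; degrees are those of the `d`-regular subgraph `H` of `E`.
-/

set_option autoImplicit false

namespace Pool.Agent.Lib.SubBisK

open Finset

variable {α β : Type} [Fintype α] [Fintype β] [DecidableEq α] [DecidableEq β]

/-- the neighbours of `v` -/
def nv (E : α → β → Bool) (v : α) : Finset β := univ.filter fun b => E v b = true

/-- the closed sets of deficiency at most `D` -/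
def fam (E : α → β → Bool) (D : ℕ) : Finset (Finset α) :=
  univ.filter fun U => clo E U = U ∧ df E U ≤ D

theorem mem_nb {E : α → β → Bool} {U : Finset α} {b : β} :
    b ∈ nb E U ↔ ∃ v ∈ U, E v b = true := by
  unfold nb
  rw [mem_filter]
  exact ⟨fun h => h.2, fun h => ⟨mem_univ _, h⟩⟩

theorem mem_nv {E : α → β → Bool} {v : α} {b : β} : b ∈ nv E v ↔ E v b = true := by
  unfold nv
  rw [mem_filter]
  exact ⟨fun h => h.2, fun h => ⟨mem_univ _, h⟩⟩

theorem mem_clo {E : α → β → Bool} {U : Finset α} {v : α} :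
    v ∈ clo E U ↔ ∀ b, E v b = true → b ∈ nb E U := by
  unfold clo
  rw [mem_filter]
  exact ⟨fun h => h.2, fun h => ⟨mem_univ _, h⟩⟩

theorem mem_fam {E : α → β → Bool} {D : ℕ} {U : Finset α} :
    U ∈ fam E D ↔ clo E U = U ∧ df E U ≤ D := by
  unfold fam
  rw [mem_filter]
  exact ⟨fun h => h.2, fun h => ⟨mem_univ _, h⟩⟩

theorem nb_mono {E : α → β → Bool} {U V : Finset α} (h : U ⊆ V) : nb E U ⊆ nb E V := by
  intro b hb
  obtain ⟨v, hv, h1⟩ := mem_nb.1 hb
  exact mem_nb.2 ⟨v, h hv, h1⟩

theorem nb_union (E : α → β → Bool) (U V : Finset α) : nb E (U ∪ V) = nb E U ∪ nb E V := by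
  ext b
  rw [mem_union, mem_nb, mem_nb, mem_nb]
  constructor
  · rintro ⟨v, hv, h⟩
    rcases mem_union.1 hv with h1 | h1
    · exact Or.inl ⟨v, h1, h⟩
    · exact Or.inr ⟨v, h1, h⟩
  · rintro (⟨v, hv, h⟩ | ⟨v, hv, h⟩)
    · exact ⟨v, mem_union_left _ hv, h⟩
    · exact ⟨v, mem_union_right _ hv, h⟩

theorem sub_clo (E : α → β → Bool) (U : Finset α) : U ⊆ clo E U := fun v hv =>
  mem_clo.2 fun _ hb => mem_nb.2 ⟨v, hv, hb⟩

theorem nb_clo (E : α → β → Bool) (U : Finset α) : nb E (clo E U) = nb E U := by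
  refine Subset.antisymm (fun b hb => ?_) (nb_mono (sub_clo E U))
  obtain ⟨v, hv, h1⟩ := mem_nb.1 hb
  exact mem_clo.1 hv b h1

theorem clo_clo (E : α → β → Bool) (U : Finset α) : clo E (clo E U) = clo E U := by
  ext v
  rw [mem_clo, mem_clo, nb_clo]

theorem df_clo_le (E : α → β → Bool) (U : Finset α) : df E (clo E U) ≤ df E U := by
  have h := card_le_card (sub_clo E U)
  unfold df
  rw [nb_clo]
  omega

theorem df_empty (E : α → β → Bool) : df E ∅ = 0 := by
  have h : nb E ∅ = ∅ := by
    ext b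
    simp [mem_nb]
  unfold df
  rw [h, card_empty, card_empty]
  rfl

theorem df_union_inter (E : α → β → Bool) (U V : Finset α) :
    df E (U ∪ V) + df E (U ∩ V) ≤ df E U + df E V := by
  have h1 := card_union_add_card_inter U V
  have h2 := card_union_add_card_inter (nb E U) (nb E V)
  have h3 : nb E (U ∩ V) ⊆ nb E U ∩ nb E V :=
    subset_inter (nb_mono inter_subset_left) (nb_mono inter_subset_right)
  have h4 := card_le_card h3
  unfold df
  rw [nb_union]
  omega

/-- edges of `H` at `U` and at a set of right vertices -/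
theorem sum_nv_inter' {H : α → β → Bool} {d : ℕ} (hH : Reg H d) (D : Finset β) :
    (∑ v, ((nv H v ∩ D).card : ℤ)) = d * D.card := by
  have h1 := sum_card_bipartiteAbove_eq_sum_card_bipartiteBelow
    (s := (univ : Finset α)) (t := D) (fun v b => H v b = true)
  have h2 : ∀ v : α, (bipartiteAbove (fun v b => H v b = true) D v) = nv H v ∩ D := fun v => by
    ext b
    simp only [mem_bipartiteAbove, mem_inter, mem_nv]
    tauto
  have h3 : ∀ b : β, (bipartiteBelow (fun v b => H v b = true) univ b).card = d := fun b =>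
    hH.2 b
  rw [sum_congr rfl fun v _ => by rw [h2 v], sum_congr rfl fun b _ => h3 b, sum_const,
    smul_eq_mul] at h1
  rw [mul_comm]
  exact_mod_cast h1

/-- edges leaving `N(U)`, counted at the left side -/
theorem sum_out {E H : α → β → Bool} {d : ℕ} (hH : Reg H d)
    (hle : ∀ v b, H v b = true → E v b = true) (U : Finset α) :
    ∑ v ∈ univ \ U, ((nv H v ∩ nb E U).card : ℤ) = d * df E U := by
  have h1 := sum_nv_inter' hH (nb E U)
  rw [← sum_sdiff (subset_univ U)] at h1
  have h2 : ∑ v ∈ U, ((nv H v ∩ nb E U).card : ℤ) = d * U.card := by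
    rw [sum_congr rfl (g := fun _ => (d : ℤ)) fun v hv => ?_, sum_const, nsmul_eq_mul, mul_comm]
    have h3 : nv H v ⊆ nb E U := fun b hb => mem_nb.2 ⟨v, hv, hle v b (mem_nv.1 hb)⟩
    rw [inter_eq_left.2 h3]
    exact_mod_cast hH.1 v
  unfold df
  linarith

theorem df_nonneg {E H : α → β → Bool} {d : ℕ} (hH : Reg H d)
    (hle : ∀ v b, H v b = true → E v b = true) (hd : 1 ≤ d) (U : Finset α) :
    0 ≤ df E U := by
  have h1 := sum_out hH hle U
  have h2 : (0 : ℤ) ≤ ∑ v ∈ univ \ U, ((nv H v ∩ nb E U).card : ℤ) :=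
    sum_nonneg fun v _ => by positivity
  rw [h1] at h2
  have h3 : (0 : ℤ) < d := by exact_mod_cast hd
  exact nonneg_of_mul_nonneg_right h2 h3

theorem df_inter_le {E H : α → β → Bool} {d : ℕ} (hH : Reg H d)
    (hle : ∀ v b, H v b = true → E v b = true) (hd : 1 ≤ d) (U V : Finset α) :
    df E (U ∩ V) ≤ df E U + df E V := by
  have h1 := df_union_inter E U V
  have h2 := df_nonneg hH hle hd (U ∪ V)
  linarith

theorem df_union_le {E H : α → β → Bool} {d : ℕ} (hH : Reg H d)
    (hle : ∀ v b, H v b = true → E v b = true) (hd : 1 ≤ d) (U V : Finset α) :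
    df E (U ∪ V) ≤ df E U + df E V := by
  have h1 := df_union_inter E U V
  have h2 := df_nonneg hH hle hd (U ∩ V)
  linarith

theorem card_eq {H : α → β → Bool} {d : ℕ} (hH : Reg H d) (hd : 1 ≤ d) :
    Fintype.card α = Fintype.card β := by
  have h1 := sum_card_bipartiteAbove_eq_sum_card_bipartiteBelow
    (s := (univ : Finset α)) (t := (univ : Finset β)) (fun v b => H v b = true)
  have h2 : ∀ v : α, (bipartiteAbove (fun v b => H v b = true) univ v).card = d := fun v =>
    hH.1 v
  have h3 : ∀ b : β, (bipartiteBelow (fun v b => H v b = true) univ b).card = d := fun b =>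
    hH.2 b
  rw [sum_congr rfl fun v _ => h2 v, sum_congr rfl fun b _ => h3 b, sum_const, sum_const,
    card_univ, card_univ, smul_eq_mul, smul_eq_mul] at h1
  exact Nat.eq_of_mul_eq_mul_right hd h1

theorem nb_univ {E H : α → β → Bool} {d : ℕ} (hH : Reg H d)
    (hle : ∀ v b, H v b = true → E v b = true) (hd : 1 ≤ d) : nb E univ = univ := by
  ext b
  simp only [mem_univ, iff_true]
  have h1 : 0 < (univ.filter fun v => H v b = true).card := by
    rw [hH.2 b]
    exact hd
  obtain ⟨v, hv⟩ := card_pos.1 h1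
  exact mem_nb.2 ⟨v, mem_univ v, hle v b (mem_filter.1 hv).2⟩

theorem df_univ {E H : α → β → Bool} {d : ℕ} (hH : Reg H d)
    (hle : ∀ v b, H v b = true → E v b = true) (hd : 1 ≤ d) :
    df E univ = 0 := by
  unfold df
  rw [nb_univ hH hle hd, card_univ, card_univ, card_eq hH hd, sub_self]

/-- the new neighbours -/
theorem card_nb_sdiff {E : α → β → Bool} {V V' : Finset α} (hV : V ⊆ V') :
    ((nb E V' \ nb E V).card : ℤ) = df E V' - df E V + (V' \ V).card := by
  have h1 := card_sdiff_add_card_eq_card hV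
  have h2 := card_sdiff_add_card_eq_card (nb_mono (E := E) hV)
  unfold df
  omega

end Pool.Agent.Lib.SubBisK
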