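import Pool.Agent.Lib.SubBisK.VS

/-!
# MODULE SubBisK.VA: the neighbourhoods of the completed graph have small defect (est. 1.5 h)

Section 1 (S1) and (3a) of /team-store/a7c826_V.md.

PROOF of `comp_iff`: `U` and `V = univ \ nb E U` form an independent set, `|U| + |V| = N - df E U`;
conversely for an independent `(U, V)`: `V ⊆ univ \ nb E U`. `gh_tr`: `comp_iff` is symmetric
(`card_eq`). `gh_clos`: `t ∉ nv Γ v` gives `(U, V)` large with `v ∈ U`, `t ∈ V`; all `V ∩ nv Γ v = ∅`
(the same `(U, V)`), so `nv E w ∩ V = ∅` and `(insert w U, V)` is a large independent set.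

PROOF of `rd_gh_le`. Fix `v`, `Vv = univ \ nv Γ v`. Among the independent sets `(U, V)` with `v ∈ U`,
`V ⊆ Vv` take `(U', V')` that maximises `4 D |V| + d (|U| + |V|)` (`Finset.exists_max_image`;
`(univ.filter ..)` of pairs, nonempty: `(univ, ∅)`). Let `def' = N - |U'| - |V'| ≥ 0` (`ind_card`).
(1) comparison with `(univ, ∅)`: `d def' ≤ 4 D |V'| ≤ 4 D N ≤ 4 D X d`: `def' ≤ 4 X D`.
(2) `(U, V)` large (`N ≤ |U| + |V| + D`), independent, `v ∈ U` (so `V ⊆ Vv`): `(U' ∩ U, V' ∪ V)` is
independent, `(U' ∪ U, V' ∩ V)` is independent, so its size is `≥ N - def' - D` (`ind_card` for the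
second). By maximality `4 D |V \ V'| ≤ d D`, so `4 |V \ V'| ≤ d`. `jump` for
`univ \ (V' ∪ V) ⊆ univ \ V'` (`rd E (univ \ V) ≤ N - |U| - |V|` for `(U, V)` independent, lemma
`rd_compl_le`), `R = (4 X + 1) D`: `|V \ V'| ≤ 3 R`. The neighbours in `U'` of `T = V \ V'` are in
`U' \ U`, and `|U' \ U| = |U'| - |U' ∩ U| ≤ |T| + R ≤ 4 R`.
(3) So every `t ∈ T' := Vv \ V'` (it is in such a `V`: `comp_iff`) has `≤ 4 R` neighbours in `U'`,
hence (`8 R ≤ d`) at least `d / 2` `H`-neighbours outside `U'`. `count_half` for the transposed graph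
`tr E`, `tr H` and the set `univ \ U'`: `V' ⊆ ins (tr E) (univ \ U')`, and
`rd (tr E) (univ \ U') ≤ def'` (`rd_compl_le` transposed); `T'` is not in `ins (tr E) (univ \ U')` or
... (if `t ∈ T'` has no `E`-neighbour in `U'` then `(U', insert t V')` is independent with a larger
value: contradiction to the maximality; so `t ∉ ins`). Hence `|T'| ≤ 2 def' ≤ 2 R`.
(4) `U'' = U' \ N(T')` has `≥ |U'| - 2 R * 4 R` elements, `U'' ⊆ ins E (nv Γ v)`, so
`rd E (nv Γ v) = N - |Vv| - |ins E (nv Γ v)| ≤ N - |V'| - |U'| + 8 R ^ 2 ≤ R + 8 R ^ 2`.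
-/

set_option autoImplicit false

namespace Pool.Agent.Lib.SubBisK.V

open Finset

variable {α β : Type} [Fintype α] [Fintype β] [DecidableEq α] [DecidableEq β]
variable {E H : α → β → Bool} {d : ℕ}

/-- `(U, V)` is an independent set of size at least `|α| - D` -/
structure Lrg (E : α → β → Bool) (D : ℕ) (U : Finset α) (V : Finset β) : Prop where
  ind : ∀ v ∈ U, ∀ b ∈ V, E v b = false
  big : Fintype.card α ≤ U.card + V.card + D

/-- `R = (4 X + 1) D` -/
def R1 (X D : ℕ) : ℕ := (4 * X + 1) * D

/-- `8 R ^ 2 + R` -/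
def R2 (X D : ℕ) : ℕ := 8 * R1 X D ^ 2 + R1 X D

theorem rd_compl_le {U : Finset α} {V : Finset β} (hE : Fintype.card α = Fintype.card β)
    (hUV : ∀ v ∈ U, ∀ b ∈ V, E v b = false) :
    rd E (univ \ V) ≤ (Fintype.card α : ℤ) - U.card - V.card := by
  have h1 : U ⊆ ins E (univ \ V) := by
    intro u hu
    rw [mem_ins]
    intro b hb
    rw [mem_nv] at hb
    rw [mem_sdiff]
    refine ⟨mem_univ _, fun hbV => ?_⟩
    rw [hUV u hu b hbV] at hb
    exact absurd hb (by decide)
  have h2 := card_le_card h1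
  have h3 : (univ \ V).card + V.card = Fintype.card β := by
    rw [card_sdiff_add_card_eq_card (subset_univ V), card_univ]
  unfold rd
  have h2' : (U.card : ℤ) ≤ ((ins E (univ \ V)).card : ℤ) := by exact_mod_cast h2
  have h3' : ((univ \ V).card : ℤ) + V.card = Fintype.card β := by exact_mod_cast h3
  have h4 : (Fintype.card α : ℤ) = Fintype.card β := by exact_mod_cast hE
  linarith

theorem comp_iff (h : HE E H d) {D : ℕ} {v : α} {b : β} :
    gh E D v b = false ↔ ∃ U V, Lrg E D U V ∧ v ∈ U ∧ b ∈ V := by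
  have hcard : (Fintype.card α : ℤ) = Fintype.card β := by exact_mod_cast card_eq h
  have h0 : gh E D v b = false ↔ Comp E D v b := by
    unfold gh
    rw [decide_eq_false_iff_not, not_not]
  rw [h0]
  constructor
  · rintro ⟨U, hv, hb, hdf⟩
    refine ⟨U, univ \ nb E U, ⟨?_, ?_⟩, hv, ?_⟩
    · intro u hu c hc
      rw [mem_sdiff] at hc
      by_contra hne
      refine hc.2 ?_
      unfold nb
      rw [mem_filter]
      exact ⟨mem_univ _, u, hu, by simpa using hne⟩
    · have h3 : (univ \ nb E U).card + (nb E U).card = Fintype.card β := by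
        rw [card_sdiff_add_card_eq_card (subset_univ _), card_univ]
      unfold df at hdf
      have h3' : ((univ \ nb E U).card : ℤ) + (nb E U).card = Fintype.card β := by
        exact_mod_cast h3
      have : (Fintype.card α : ℤ) ≤ U.card + (univ \ nb E U).card + D := by linarith
      exact_mod_cast this
    · rw [mem_sdiff]
      exact ⟨mem_univ _, hb⟩
  · rintro ⟨U, V, hL, hv, hb⟩
    refine ⟨U, hv, ?_, ?_⟩
    · unfold nb
      rw [mem_filter]
      rintro ⟨-, u, hu, hub⟩
      rw [hL.ind u hu b hb] at hub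
      exact absurd hub (by decide)
    · have h1 : nb E U ⊆ univ \ V := by
        intro c hc
        unfold nb at hc
        rw [mem_filter] at hc
        obtain ⟨-, u, hu, huc⟩ := hc
        rw [mem_sdiff]
        refine ⟨mem_univ _, fun hcV => ?_⟩
        rw [hL.ind u hu c hcV] at huc
        exact absurd huc (by decide)
      have h2 := card_le_card h1
      have h3 : (univ \ V).card + V.card = Fintype.card β := by
        rw [card_sdiff_add_card_eq_card (subset_univ V), card_univ]
      have h4 := hL.big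
      unfold df
      have h2' : ((nb E U).card : ℤ) ≤ ((univ \ V).card : ℤ) := by exact_mod_cast h2
      have h3' : ((univ \ V).card : ℤ) + V.card = Fintype.card β := by exact_mod_cast h3
      have h4' : (Fintype.card α : ℤ) ≤ U.card + V.card + D := by exact_mod_cast h4
      linarith

theorem le_gh (h : HE E H d) {D : ℕ} (v : α) (b : β) (hvb : E v b = true) : gh E D v b = true := by
  by_contra hne
  have hf : gh E D v b = false := by simpa using hne
  obtain ⟨U, V, hL, hv, hb⟩ := (comp_iff h).1 hf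
  rw [hL.ind v hv b hb] at hvb
  exact absurd hvb (by decide)

namespace VAAux

theorem lrg_tr (h : HE E H d) {D : ℕ} {U : Finset α} {V : Finset β} (hL : Lrg E D U V) :
    Lrg (tr E) D V U := by
  refine ⟨fun b hb u hu => hL.ind u hu b hb, ?_⟩
  have h1 := hL.big
  have h2 := card_eq h
  omega

theorem gh_tr_apply (h : HE E H d) (D : ℕ) (v : α) (b : β) :
    gh E D v b = false ↔ gh (tr E) D b v = false := by
  rw [comp_iff h, comp_iff h.tr']
  constructor
  · rintro ⟨U, V, hL, hv, hb⟩
    exact ⟨V, U, lrg_tr h hL, hb, hv⟩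
  · rintro ⟨V, U, hL, hb, hv⟩
    exact ⟨U, V, lrg_tr h.tr' hL, hv, hb⟩

end VAAux

theorem gh_tr (h : HE E H d) (D : ℕ) : tr (gh E D) = gh (tr E) D := by
  funext b v
  show gh E D v b = gh (tr E) D b v
  have h1 := VAAux.gh_tr_apply h D v b
  cases h2 : gh E D v b
  · exact (h1.1 h2).symm
  · cases h3 : gh (tr E) D b v
    · rw [h1.2 h3] at h2
      exact absurd h2 (by decide)
    · rfl

theorem gh_clos (h : HE E H d) {D : ℕ} {w v : α} (hw : nv E w ⊆ nv (gh E D) v) :
    nv (gh E D) w ⊆ nv (gh E D) v := by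
  intro t ht
  rw [mem_nv] at ht ⊢
  by_contra hne
  have hf : gh E D v t = false := by simpa using hne
  obtain ⟨U, V, hL, hv, htV⟩ := (comp_iff h).1 hf
  have hL' : Lrg E D (insert w U) V := by
    refine ⟨?_, ?_⟩
    · intro u hu b hb
      rw [mem_insert] at hu
      rcases hu with rfl | hu
      · by_contra hne2
        have h1 : b ∈ nv E u := by
          rw [mem_nv]
          simpa using hne2
        have h2 := hw h1
        rw [mem_nv] at h2
        have h3 : gh E D v b = false := (comp_iff h).2 ⟨U, V, hL, hv, hb⟩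
        rw [h3] at h2
        exact absurd h2 (by decide)
      · exact hL.ind u hu b hb
    · have h1 : U.card ≤ (insert w U).card := card_le_card (subset_insert w U)
      have h2 := hL.big
      omega
  have h1 : gh E D w t = false :=
    (comp_iff h).2 ⟨insert w U, V, hL', mem_insert_self w U, htV⟩
  rw [h1] at ht
  exact absurd ht (by decide)

namespace VAAux

/-- `(U', V')` is a maximiser -/
structure Mx (E : α → β → Bool) (d D : ℕ) (v : α) (Vv : Finset β) (U' : Finset α)
    (V' : Finset β) : Prop where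
  ind : ∀ u ∈ U', ∀ b ∈ V', E u b = false
  mem : v ∈ U'
  sub : V' ⊆ Vv
  max : ∀ (U : Finset α) (V : Finset β), (∀ u ∈ U, ∀ b ∈ V, E u b = false) → v ∈ U → V ⊆ Vv →
    4 * D * V.card + d * (U.card + V.card) ≤ 4 * D * V'.card + d * (U'.card + V'.card)

theorem exists_mx (E : α → β → Bool) (d D : ℕ) (v : α) (Vv : Finset β) :
    ∃ U' V', Mx E d D v Vv U' V' := by
  classical
  let P : Finset (Finset α × Finset β) := univ.filter fun x =>
    (∀ u ∈ x.1, ∀ b ∈ x.2, E u b = false) ∧ v ∈ x.1 ∧ x.2 ⊆ Vv
  have hne : P.Nonempty := ⟨(univ, ∅), by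
    refine mem_filter.2 ⟨mem_univ _, ?_, mem_univ _, empty_subset _⟩
    intro u _ b hb
    simp at hb⟩
  obtain ⟨x, hx, hmax⟩ := P.exists_max_image
    (fun x => 4 * D * x.2.card + d * (x.1.card + x.2.card)) hne
  obtain ⟨-, h1, h2, h3⟩ := mem_filter.1 hx
  exact ⟨x.1, x.2, h1, h2, h3, fun U V hi hv hV =>
    hmax (U, V) (mem_filter.2 ⟨mem_univ _, hi, hv, hV⟩)⟩

theorem card_inter_union {γ : Type} [DecidableEq γ] (A B : Finset γ) :
    (A ∩ B).card + (A ∪ B).card = A.card + B.card := by
  rw [add_comm, card_union_add_card_inter]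

variable {X D : ℕ} {v : α} {U' : Finset α} {V' : Finset β}

theorem Mx.card_le (h : HE E H d) {Vv : Finset β} (m : Mx E d D v Vv U' V') :
    U'.card + V'.card ≤ Fintype.card α := ind_card h m.ind

/-- step (1) -/
theorem Mx.dfc_le (h : HE E H d) {Vv : Finset β} (m : Mx E d D v Vv U' V')
    (hX : Fintype.card α ≤ X * d) :
    Fintype.card α ≤ U'.card + V'.card + 4 * X * D := by
  have h1 := m.max univ ∅ (fun u _ b hb => by simp at hb) (mem_univ _) (empty_subset _)
  rw [card_empty, card_univ] at h1
  have h2 : V'.card ≤ Fintype.card α := by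
    have := m.card_le h
    omega
  have hd := h.pos
  have h3 : 4 * D * V'.card ≤ 4 * D * (X * d) := Nat.mul_le_mul_left _ (h2.trans hX)
  have h4 : d * Fintype.card α ≤ d * (U'.card + V'.card + 4 * X * D) := by
    calc d * Fintype.card α = 4 * D * 0 + d * (Fintype.card α + 0) := by ring
      _ ≤ 4 * D * V'.card + d * (U'.card + V'.card) := h1
      _ ≤ 4 * D * (X * d) + d * (U'.card + V'.card) := Nat.add_le_add_right h3 _
      _ = d * (U'.card + V'.card + 4 * X * D) := by ring
  exact Nat.le_of_mul_le_mul_left h4 hd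

/-- step (2) -/
theorem Mx.sdiff_le (h : HE E H d) (m : Mx E d D v (univ \ nv (gh E D) v) U' V')
    (hX : Fintype.card α ≤ X * d) (hD : 1 ≤ D) {U : Finset α} {V : Finset β}
    (hL : Lrg E D U V) (hv : v ∈ U) : (U' \ U).card ≤ 4 * R1 X D := by
  have hVv : V ⊆ univ \ nv (gh E D) v := by
    intro b hb
    rw [mem_sdiff, mem_nv]
    refine ⟨mem_univ _, ?_⟩
    rw [(comp_iff h).2 ⟨U, V, hL, hv, hb⟩]
    decide
  have hi1 : ∀ u ∈ U' ∩ U, ∀ b ∈ V' ∪ V, E u b = false := by
    intro u hu b hb
    rw [mem_inter] at hu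
    rw [mem_union] at hb
    rcases hb with hb | hb
    · exact m.ind u hu.1 b hb
    · exact hL.ind u hu.2 b hb
  have hi2 : ∀ u ∈ U' ∪ U, ∀ b ∈ V' ∩ V, E u b = false := by
    intro u hu b hb
    rw [mem_inter] at hb
    rw [mem_union] at hu
    rcases hu with hu | hu
    · exact m.ind u hu b hb.1
    · exact hL.ind u hu b hb.2
  have h1 := m.max (U' ∩ U) (V' ∪ V) hi1 (mem_inter.2 ⟨m.mem, hv⟩) (union_subset m.sub hVv)
  have h2 := ind_card h hi2
  have h3 := card_inter_union U' U
  have h4 := card_inter_union V' V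
  have h5 := hL.big
  have h6 := m.card_le h
  have h7 := m.dfc_le h hX
  have h8 : (V' ∪ V).card = V'.card + (V \ V').card := by
    rw [union_comm V' V, ← card_sdiff_add_card V V', add_comm]
  have h9 : (U' \ U).card + (U' ∩ U).card = U'.card := by
    rw [add_comm]
    exact card_inter_add_card_sdiff U' U
  have h10 : U'.card + V'.card ≤ (U' ∩ U).card + (V' ∪ V).card + D := by omega
  -- `4 |V \ V'| ≤ d`
  have h11 : 4 * (V \ V').card ≤ d := by
    rw [h8] at h1 h10
    have h12 : d * (U'.card + V'.card) ≤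
        d * ((U' ∩ U).card + (V'.card + (V \ V').card)) + d * D := by
      rw [← mul_add]
      exact Nat.mul_le_mul_left _ h10
    have h13 : D * (4 * (V \ V').card) ≤ D * d := by nlinarith
    exact Nat.le_of_mul_le_mul_left h13 hD
  have hcard := card_eq h
  have h14 : rd E (univ \ (V' ∪ V)) ≤ (R1 X D : ℤ) := by
    refine (rd_compl_le hcard hi1).trans ?_
    have h15 : Fintype.card α ≤ (U' ∩ U).card + (V' ∪ V).card + R1 X D := by
      unfold R1
      have : (4 * X + 1) * D = 4 * X * D + D := by ring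
      omega
    have h16 : (Fintype.card α : ℤ) ≤ (U' ∩ U).card + (V' ∪ V).card + R1 X D := by
      exact_mod_cast h15
    linarith
  have h17 : rd E (univ \ V') ≤ (R1 X D : ℤ) := by
    refine (rd_compl_le hcard m.ind).trans ?_
    have h15 : Fintype.card α ≤ U'.card + V'.card + R1 X D := by
      unfold R1
      have : (4 * X + 1) * D = 4 * X * D + D := by ring
      omega
    have h16 : (Fintype.card α : ℤ) ≤ U'.card + V'.card + R1 X D := by exact_mod_cast h15
    linarith
  have h18 : (univ \ V') \ (univ \ (V' ∪ V)) = V \ V' := by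
    ext b
    simp only [mem_sdiff, mem_univ, true_and, mem_union, not_not]
    tauto
  have h19 : (((univ \ V') \ (univ \ (V' ∪ V))).card : ℤ) ≤ 3 * (R1 X D : ℤ) := by
    refine jump h (sdiff_subset_sdiff (subset_refl _) subset_union_left) h14 h17 ?_
    rw [h18]
    exact h11
  rw [h18] at h19
  have h20 : (V \ V').card ≤ 3 * R1 X D := by exact_mod_cast h19
  have h21 : D ≤ R1 X D := by
    unfold R1
    exact Nat.le_mul_of_pos_left _ (by omega)
  omega

end VAAux

theorem rd_gh_le (h : HE E H d) {X D : ℕ} (hX : Fintype.card α ≤ X * d) (hD : 1 ≤ D)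
    (hd : 8 * R1 X D ≤ d) (v : α) : rd E (nv (gh E D) v) ≤ R2 X D := by
  obtain ⟨U', V', m⟩ := VAAux.exists_mx E d D v (univ \ nv (gh E D) v)
  have hdf := m.dfc_le h hX
  have hle := m.card_le h
  have hcard := card_eq h
  -- the neighbours in `U'` of a vertex outside
  have hnb : ∀ t ∈ (univ \ nv (gh E D) v) \ V',
      (U'.filter fun u => E u t = true).card ≤ 4 * R1 X D := by
    intro t ht
    rw [mem_sdiff, mem_sdiff, mem_nv] at ht
    have hf : gh E D v t = false := by simpa using ht.1.2
    obtain ⟨U, V, hL, hv, htV⟩ := (comp_iff h).1 hf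
    refine (card_le_card ?_).trans (m.sdiff_le h hX hD hL hv)
    intro u hu
    rw [mem_filter] at hu
    rw [mem_sdiff]
    refine ⟨hu.1, fun huU => ?_⟩
    rw [hL.ind u huU t htV] at hu
    exact absurd hu.2 (by decide)
  -- few vertices outside
  have hT : (((univ \ nv (gh E D) v) \ V').card : ℤ) ≤ 2 * rd (tr E) (univ \ U') := by
    refine count_half h.tr' (univ \ U') ?_ ?_
    · intro t ht hins
      rw [mem_sdiff] at ht
      rw [mem_ins] at hins
      have hi : ∀ u ∈ U', ∀ b ∈ insert t V', E u b = false := by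
        intro u hu b hb
        rw [mem_insert] at hb
        rcases hb with rfl | hb
        · by_contra hne
          have h1 : u ∈ nv (tr E) b := by
            rw [mem_nv]
            show E u b = true
            simpa using hne
          have h2 := hins h1
          rw [mem_sdiff] at h2
          exact h2.2 hu
        · exact m.ind u hu b hb
      have h1 := m.max U' (insert t V') hi m.mem (insert_subset ht.1 m.sub)
      rw [card_insert_of_notMem ht.2] at h1
      have hd1 := h.pos
      nlinarith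
    · intro t ht
      refine half_of_sdiff h.tr' ?_
      have h1 : nv (tr H) t \ (univ \ U') ⊆ U'.filter fun u => E u t = true := by
        intro u hu
        rw [mem_sdiff, mem_nv] at hu
        rw [mem_filter]
        refine ⟨?_, h.le u t hu.1⟩
        by_contra hne
        exact hu.2 (mem_sdiff.2 ⟨mem_univ _, hne⟩)
      have h2 := (card_le_card h1).trans (hnb t ht)
      omega
  have hrt : rd (tr E) (univ \ U') ≤ 4 * X * D := by
    have h1 := rd_compl_le (E := tr E) (U := V') (V := U') hcard.symm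
      (fun b hb u hu => m.ind u hu b hb)
    have h2 : (Fintype.card α : ℤ) ≤ U'.card + V'.card + 4 * X * D := by exact_mod_cast hdf
    have h3 : (Fintype.card β : ℤ) = Fintype.card α := by exact_mod_cast hcard.symm
    linarith
  have hR1 : R1 X D = 4 * X * D + D := by
    unfold R1
    ring
  have hT2 : ((univ \ nv (gh E D) v) \ V').card ≤ 2 * R1 X D := by
    have h1 : (((univ \ nv (gh E D) v) \ V').card : ℤ) ≤ 2 * (4 * X * D) := by linarith
    have h2 : ((univ \ nv (gh E D) v) \ V').card ≤ 2 * (4 * X * D) := by exact_mod_cast h1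
    omega
  -- the set `U''`
  have hU : U'.filter (fun u => ∀ t ∈ (univ \ nv (gh E D) v) \ V', E u t = false) ⊆
      ins E (nv (gh E D) v) := by
    intro u hu
    rw [mem_filter] at hu
    rw [mem_ins]
    intro b hb
    rw [mem_nv] at hb
    by_contra hne
    by_cases hbV : b ∈ V'
    · rw [m.ind u hu.1 b hbV] at hb
      exact absurd hb (by decide)
    · rw [hu.2 b (mem_sdiff.2 ⟨mem_sdiff.2 ⟨mem_univ _, hne⟩, hbV⟩)] at hb
      exact absurd hb (by decide)
  have hU2 : U' \ U'.filter (fun u => ∀ t ∈ (univ \ nv (gh E D) v) \ V', E u t = false) ⊆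
      ((univ \ nv (gh E D) v) \ V').biUnion fun t => U'.filter fun u => E u t = true := by
    intro u hu
    rw [mem_sdiff, mem_filter] at hu
    rw [mem_biUnion]
    by_contra hne
    refine hu.2 ⟨hu.1, fun t ht => ?_⟩
    by_contra hne2
    refine hne ⟨t, ht, ?_⟩
    rw [mem_filter]
    exact ⟨hu.1, by simpa using hne2⟩
  have hU3 : (U' \ U'.filter
      (fun u => ∀ t ∈ (univ \ nv (gh E D) v) \ V', E u t = false)).card ≤ 8 * R1 X D ^ 2 := by
    calc _ ≤ _ := card_le_card hU2
      _ ≤ ((univ \ nv (gh E D) v) \ V').card * (4 * R1 X D) := card_biUnion_le_card_mul _ _ _ hnb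
      _ ≤ (2 * R1 X D) * (4 * R1 X D) := Nat.mul_le_mul_right _ hT2
      _ = 8 * R1 X D ^ 2 := by ring
  have h1 : (U' \ U'.filter
      (fun u => ∀ t ∈ (univ \ nv (gh E D) v) \ V', E u t = false)).card +
      (U'.filter (fun u => ∀ t ∈ (univ \ nv (gh E D) v) \ V', E u t = false)).card = U'.card :=
    card_sdiff_add_card_eq_card (filter_subset _ _)
  have h2 := card_le_card hU
  have h3 : (univ \ nv (gh E D) v).card + (nv (gh E D) v).card = Fintype.card β := by
    rw [card_sdiff_add_card_eq_card (subset_univ _), card_univ]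
  have h4 := card_le_card m.sub
  have h5 : (nv (gh E D) v).card ≤ (ins E (nv (gh E D) v)).card + R2 X D := by
    unfold R2
    omega
  unfold rd
  have h6 : ((nv (gh E D) v).card : ℤ) ≤ (ins E (nv (gh E D) v)).card + R2 X D := by
    exact_mod_cast h5
  linarith

end Pool.Agent.Lib.SubBisK.V
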