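import Pool.Agent.Lib.SubBisK.VS

/-!
# MODULE SubBisK.VB: the core classes cover the neighbourhoods (est. 1.5 h)

(3b) of /team-store/a7c826_V.md. `Γ` is the completed graph; only the properties `Str` are used.

PROOF of `card_cores`: the classes of distinct members of `cores` are disjoint and have `≥ d / 8`
elements. `rd_cov_le`: `rd_biUnion_le`, `card_cores`.
PROOF of `sdiff_cov`. First: `4 |nv Γ v \ cov Γ d (nv Γ v)| ≤ d` for all `v`; then `jump` with
`R = R3 = 8 X R`. Suppose not; take a counterexample `v` with `|nv Γ v|` minimal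
(`Nat.strong_induction_on` or `Finset.exists_min_image`), `Y = cov Γ d (nv Γ v)`,
`Q = ins E (nv Γ v) \ ins E Y`. `|Q| ≥ |nv Γ v| - R - |Y|`, so `4 |Q| > d - 4 R`. No `w ∈ Q` is core
(`nv Γ w ⊆ nv Γ v` by `clos`, so `nv E w ⊆ nv Γ w ⊆ Y`).
`Q1` = the `w ∈ Q` with `4 |nv Γ v \ nv Γ w| > d`: then `|nv Γ w| < |nv Γ v|` (`nv Γ w ⊆ nv Γ v`), so by
minimality and `jump` `|nv Γ w \ Y| ≤ |nv Γ w \ cov Γ d (nv Γ w)| ≤ 3 R3` and `w ∉ ins E Y`:
`|Q1| ≤ 2 R3` by `count_half` (`6 R3 ≤ d`). `Q2 = Q \ Q1`: `|nv Γ v \ nv Γ w| ≤ 3 R` (`jump`).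
`Q2` is not empty; `w0 ∈ Q2` with `|nv Γ w0|` minimal. The `w ∈ Q2` that are not in
`ins E (nv Γ w0)` are at most `2 R` (`count_half`, `|nv H w \ nv Γ w0| ≤ 3 R`); for the others
`nv Γ w ⊆ nv Γ w0` (`clos`), so `nv Γ w = nv Γ w0` by minimality. Hence
`|twn Γ w0| ≥ |Q2| - 2 R ≥ |Q| - 2 R3 - 2 R`, `8 |twn Γ w0| > d`: `w0` is core, contradiction.
-/

set_option autoImplicit false

namespace Pool.Agent.Lib.SubBisK.V

open Finset

variable {α β : Type} [Fintype α] [Fintype β] [DecidableEq α] [DecidableEq β]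

/-- The properties of the completed graph `Γ`. -/
structure Str (E H Γ : α → β → Bool) (d R : ℕ) : Prop where
  he : HE E H d
  le : ∀ v b, E v b = true → Γ v b = true
  clos : ∀ w v, nv E w ⊆ nv Γ v → nv Γ w ⊆ nv Γ v
  dfc : ∀ v, rd E (nv Γ v) ≤ R

/-- the left vertices with the same neighbours as `v` -/
def twn (Γ : α → β → Bool) (v : α) : Finset α := univ.filter fun w => nv Γ w = nv Γ v

/-- `v` is core if its class has at least `d / 8` elements -/
def Core (Γ : α → β → Bool) (d : ℕ) (v : α) : Prop := d ≤ 8 * (twn Γ v).card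

instance (Γ : α → β → Bool) (d : ℕ) (v : α) : Decidable (Core Γ d v) := by
  unfold Core; infer_instance

/-- the neighbourhoods of the core vertices -/
def cores (Γ : α → β → Bool) (d : ℕ) : Finset (Finset β) :=
  (univ.filter fun v => Core Γ d v).image (nv Γ)

/-- the union of the members of `cores` contained in `D` -/
def cov (Γ : α → β → Bool) (d : ℕ) (D : Finset β) : Finset β :=
  ((cores Γ d).filter fun D' => D' ⊆ D).biUnion id

/-- `8 X R` -/
def R3 (X R : ℕ) : ℕ := 8 * X * R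

variable {E H Γ : α → β → Bool} {d R X : ℕ}

theorem Str.nv_sub (h : Str E H Γ d R) (v : α) : nv E v ⊆ nv Γ v :=
  fun b hb => mem_nv.2 (h.le v b (mem_nv.1 hb))

/-- `ins E (nv Γ v) = {w : nv Γ w ⊆ nv Γ v}` -/
theorem Str.mem_ins_nv (h : Str E H Γ d R) {w v : α} :
    w ∈ ins E (nv Γ v) ↔ nv Γ w ⊆ nv Γ v := by
  rw [mem_ins]
  exact ⟨fun hw => h.clos w v hw, fun hw => (h.nv_sub w).trans hw⟩

theorem card_cores (Γ : α → β → Bool) (d : ℕ) :
    (cores Γ d).card * d ≤ 8 * Fintype.card α := by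
  have h1 : ∀ D ∈ cores Γ d, d ≤ 8 * (univ.filter fun w => nv Γ w = D).card := by
    intro D hD
    unfold cores at hD
    rw [mem_image] at hD
    obtain ⟨v, hv, rfl⟩ := hD
    rw [mem_filter] at hv
    exact hv.2
  have h2 : ((cores Γ d).biUnion fun D => univ.filter fun w => nv Γ w = D).card =
      ∑ D ∈ cores Γ d, (univ.filter fun w => nv Γ w = D).card := by
    refine card_biUnion fun D _ D' _ hne => ?_
    change Disjoint (univ.filter fun w => nv Γ w = D) (univ.filter fun w => nv Γ w = D')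
    rw [Finset.disjoint_left]
    intro w hw hw'
    rw [mem_filter] at hw hw'
    exact hne (hw.2.symm.trans hw'.2)
  have h3 : ((cores Γ d).biUnion fun D => univ.filter fun w => nv Γ w = D).card ≤
      Fintype.card α := by
    rw [← card_univ]
    exact card_le_card (subset_univ _)
  calc (cores Γ d).card * d = ∑ _D ∈ cores Γ d, d := by rw [sum_const, smul_eq_mul]
    _ ≤ ∑ D ∈ cores Γ d, 8 * (univ.filter fun w => nv Γ w = D).card := sum_le_sum h1
    _ = 8 * ∑ D ∈ cores Γ d, (univ.filter fun w => nv Γ w = D).card := by rw [mul_sum]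
    _ ≤ 8 * Fintype.card α := by rw [← h2]; exact Nat.mul_le_mul_left 8 h3

theorem card_cores_le (hd : 1 ≤ d) (hX : Fintype.card α ≤ X * d) : (cores Γ d).card ≤ 8 * X := by
  have h1 := card_cores Γ d
  have h2 : (cores Γ d).card * d ≤ (8 * X) * d := by
    calc (cores Γ d).card * d ≤ 8 * Fintype.card α := h1
      _ ≤ 8 * (X * d) := Nat.mul_le_mul_left 8 hX
      _ = (8 * X) * d := by ring
  exact Nat.le_of_mul_le_mul_right h2 hd

theorem cov_subset (Γ : α → β → Bool) (d : ℕ) (D : Finset β) : cov Γ d D ⊆ D := by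
  unfold cov
  refine biUnion_subset.2 fun D' hD' => ?_
  exact (mem_filter.1 hD').2

theorem cov_mono (Γ : α → β → Bool) (d : ℕ) {D D' : Finset β} (h : D ⊆ D') :
    cov Γ d D ⊆ cov Γ d D' := by
  unfold cov
  refine biUnion_subset_biUnion_of_subset_left _ fun D1 hD1 => ?_
  rw [mem_filter] at hD1 ⊢
  exact ⟨hD1.1, hD1.2.trans h⟩

theorem rd_cov_le (h : Str E H Γ d R) (hX : Fintype.card α ≤ X * d) (D : Finset β) :
    rd E (cov Γ d D) ≤ R3 X R := by
  have h1 : rd E (cov Γ d D) ≤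
      (((cores Γ d).filter fun D' => D' ⊆ D).card : ℤ) * (R : ℤ) := by
    unfold cov
    refine rd_biUnion_le h.he _ id fun D' hD' => ?_
    rw [mem_filter] at hD'
    have hD1 := hD'.1
    unfold cores at hD1
    rw [mem_image] at hD1
    obtain ⟨v, _, rfl⟩ := hD1
    exact h.dfc v
  have h2 : ((cores Γ d).filter fun D' => D' ⊆ D).card ≤ 8 * X :=
    (card_filter_le _ _).trans (card_cores_le h.he.pos hX)
  have h3 : ((cores Γ d).filter fun D' => D' ⊆ D).card * R ≤ 8 * X * R :=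
    Nat.mul_le_mul_right R h2
  refine h1.trans ?_
  unfold R3
  exact_mod_cast h3

namespace VBAux

/-- the far vertices -/
theorem far (h : Str E H Γ d R) (hX : Fintype.card α ≤ X * d)
    (hd : 40 * R3 X R ≤ d) (v : α)
    (ih : ∀ w, (nv Γ w).card < (nv Γ v).card →
      ((nv Γ w \ cov Γ d (nv Γ w)).card : ℤ) ≤ 3 * (R3 X R : ℤ)) (Q1 : Finset α)
    (hQ1 : ∀ w ∈ Q1, nv Γ w ⊆ nv Γ v ∧ w ∉ ins E (cov Γ d (nv Γ v)) ∧
      d < 4 * (nv Γ v \ nv Γ w).card) :
    (Q1.card : ℤ) ≤ 2 * (R3 X R : ℤ) := by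
  have h1 : (Q1.card : ℤ) ≤ 2 * rd E (cov Γ d (nv Γ v)) := by
    refine count_half h.he _ (fun w hw => (hQ1 w hw).2.1) fun w hw => half_of_sdiff h.he ?_
    obtain ⟨hsub, _, hfar⟩ := hQ1 w hw
    have hlt : (nv Γ w).card < (nv Γ v).card := by
      have := card_sdiff_add_card_eq_card hsub
      have : 0 < (nv Γ v \ nv Γ w).card := by
        have := h.he.pos
        omega
      omega
    have h2 := ih w hlt
    have h3 : nv H w \ cov Γ d (nv Γ v) ⊆ nv Γ w \ cov Γ d (nv Γ w) :=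
      sdiff_subset_sdiff ((h.he.nv_subset w).trans (h.nv_sub w)) (cov_mono Γ d hsub)
    have h4 := card_le_card h3
    have h5 : ((nv Γ w \ cov Γ d (nv Γ w)).card) ≤ 3 * R3 X R := by exact_mod_cast h2
    omega
  have h2 := rd_cov_le h hX (nv Γ v)
  linarith

/-- the first form of the statement -/
theorem quarter (h : Str E H Γ d R) (hX : Fintype.card α ≤ X * d) (hX1 : 1 ≤ X)
    (hR : 1 ≤ R) (hd : 40 * R3 X R ≤ d) :
    ∀ (n : ℕ) (v : α), (nv Γ v).card = n → 4 * (nv Γ v \ cov Γ d (nv Γ v)).card ≤ d := by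
  have hRR : 8 * R ≤ R3 X R := by
    unfold R3
    exact Nat.mul_le_mul_right R (by omega)
  intro n
  induction n using Nat.strong_induction_on with
  | _ n ih =>
    intro v hv
    by_contra hcon
    rw [not_le] at hcon
    have ih' : ∀ w, (nv Γ w).card < (nv Γ v).card →
        ((nv Γ w \ cov Γ d (nv Γ w)).card : ℤ) ≤ 3 * (R3 X R : ℤ) := by
      intro w hw
      refine jump h.he (cov_subset Γ d _) (rd_cov_le h hX _) ((h.dfc w).trans ?_)
        (ih _ (by omega) w rfl)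
      exact_mod_cast (show R ≤ R3 X R by omega)
    obtain ⟨Y, hY⟩ : ∃ Y, Y = cov Γ d (nv Γ v) := ⟨_, rfl⟩
    rw [← hY] at hcon
    have hYsub : Y ⊆ nv Γ v := hY ▸ cov_subset Γ d _
    obtain ⟨Q, hQ⟩ : ∃ Q, Q = ins E (nv Γ v) \ ins E Y := ⟨_, rfl⟩
    have hQsub : ∀ w ∈ Q, nv Γ w ⊆ nv Γ v ∧ w ∉ ins E Y := by
      intro w hw
      rw [hQ, mem_sdiff] at hw
      exact ⟨h.mem_ins_nv.1 hw.1, hw.2⟩
    have hQcard : d < 4 * Q.card + 4 * R := by
      have h1 := card_sdiff_add_card_eq_card (ins_mono E hYsub)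
      have h2 := card_sdiff_add_card_eq_card hYsub
      have h3 := rd_nonneg h.he Y
      have h4 := h.dfc v
      rw [hQ]
      unfold rd at h3 h4
      omega
    have hQcore : ∀ w ∈ Q, ¬ Core Γ d w := by
      intro w hw hc
      obtain ⟨h1, h2⟩ := hQsub w hw
      refine h2 (mem_ins.2 ((h.nv_sub w).trans ?_))
      rw [hY]
      unfold cov
      refine subset_biUnion_of_mem id (x := nv Γ w) ?_
      rw [mem_filter]
      refine ⟨?_, h1⟩
      unfold cores
      rw [mem_image]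
      exact ⟨w, mem_filter.2 ⟨mem_univ w, hc⟩, rfl⟩
    obtain ⟨Q1, hQ1⟩ : ∃ Q1, Q1 = Q.filter fun w => d < 4 * (nv Γ v \ nv Γ w).card := ⟨_, rfl⟩
    obtain ⟨Q2, hQ2⟩ : ∃ Q2, Q2 = Q.filter fun w => ¬ d < 4 * (nv Γ v \ nv Γ w).card := ⟨_, rfl⟩
    have hQ12 : Q1.card + Q2.card = Q.card := by
      rw [hQ1, hQ2]
      exact card_filter_add_card_filter_not _
    have hQ1card : (Q1.card : ℤ) ≤ 2 * (R3 X R : ℤ) := by
      refine far h hX hd v ih' Q1 fun w hw => ?_
      rw [hQ1, mem_filter] at hw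
      exact ⟨(hQsub w hw.1).1, hY ▸ (hQsub w hw.1).2, hw.2⟩
    have hQ1card' : Q1.card ≤ 2 * R3 X R := by exact_mod_cast hQ1card
    have hQ2near : ∀ w ∈ Q2, nv Γ w ⊆ nv Γ v ∧ w ∈ Q ∧ (nv Γ v \ nv Γ w).card ≤ 3 * R := by
      intro w hw
      rw [hQ2, mem_filter, not_lt] at hw
      refine ⟨(hQsub w hw.1).1, hw.1, ?_⟩
      have := jump h.he (hQsub w hw.1).1 (h.dfc w) (h.dfc v) hw.2
      exact_mod_cast this
    have hne : Q2.Nonempty := by
      rw [← card_pos]
      omega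
    obtain ⟨w0, hw0, hmin⟩ := exists_min_image Q2 (fun w => (nv Γ w).card) hne
    obtain ⟨B, hB⟩ : ∃ B, B = Q2.filter fun w => w ∉ ins E (nv Γ w0) := ⟨_, rfl⟩
    have hBcard : (B.card : ℤ) ≤ 2 * (R : ℤ) := by
      have h1 : (B.card : ℤ) ≤ 2 * rd E (nv Γ w0) := by
        refine count_half h.he _ (fun w hw => ?_) fun w hw => half_of_sdiff h.he ?_
        · rw [hB, mem_filter] at hw
          exact hw.2
        · rw [hB, mem_filter] at hw
          have h2 : nv H w \ nv Γ w0 ⊆ nv Γ v \ nv Γ w0 :=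
            sdiff_subset_sdiff (((h.he.nv_subset w).trans (h.nv_sub w)).trans
              (hQ2near w hw.1).1) le_rfl
          have h3 := card_le_card h2
          have h4 := (hQ2near w0 hw0).2.2
          omega
      have h2 := h.dfc w0
      linarith
    have hBcard' : B.card ≤ 2 * R := by exact_mod_cast hBcard
    have htw : Q2 ⊆ twn Γ w0 ∪ B := by
      intro w hw
      rw [mem_union]
      by_cases hwi : w ∈ ins E (nv Γ w0)
      · left
        have h1 := h.mem_ins_nv.1 hwi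
        have h2 := eq_of_subset_of_card_le h1 (hmin w hw)
        unfold twn
        exact mem_filter.2 ⟨mem_univ w, h2⟩
      · right
        rw [hB, mem_filter]
        exact ⟨hw, hwi⟩
    have h1 := card_le_card htw
    have h2 := card_union_le (twn Γ w0) B
    refine hQcore w0 (hQ2near w0 hw0).2.1 ?_
    unfold Core
    omega

end VBAux

theorem sdiff_cov (h : Str E H Γ d R) (hX : Fintype.card α ≤ X * d) (hX1 : 1 ≤ X) (hR : 1 ≤ R)
    (hd : 40 * R3 X R ≤ d) (v : α) : (nv Γ v \ cov Γ d (nv Γ v)).card ≤ 3 * R3 X R := by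
  have hRR : R ≤ R3 X R := by
    unfold R3
    calc R = 1 * R := (one_mul R).symm
      _ ≤ 8 * X * R := Nat.mul_le_mul_right R (by omega)
  have h1 := jump h.he (cov_subset Γ d (nv Γ v)) (rd_cov_le h hX (nv Γ v))
    ((h.dfc v).trans (by exact_mod_cast hRR)) (VBAux.quarter h hX hX1 hR hd _ v rfl)
  exact_mod_cast h1

end Pool.Agent.Lib.SubBisK.V
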