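import Pool.Agent.Lib.SubBisK.VB

/-!
# MODULE SubBisK.VC: the chain of the core neighbourhoods (est. 1.2 h)

(3c) of /team-store/a7c826_V.md.

PROOF of `exists_chn`: enumerate `cores Γ d` (`Finset.equivFin`), sort by cardinality
(`Tuple.sort`): `D i ⊆ D j` implies `|D i| ≤ |D j|`; if `j < i` then also `|D j| ≤ |D i|`
(monotone), so `D i = D j`, contradiction to injectivity.
PROOF of `exists_bad`. For `w` let `i` be the least number with `2 |nv H w \ ei D i| ≤ d`; `i ≤ k`
exists by `sdiff_cov` (`nv H w ⊆ nv Γ w`, `cov Γ d (nv Γ w) ⊆ ei D k`), `i ≥ 1` since `ei D 0 = ∅`.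
`Bad` = `⋃_{i ≤ k} {w ∉ ins E (ei D i) : d ≤ 2 |nv H w ∩ ei D i|} ∪
⋃_{j < k} {w ∉ ins E (D j) : d ≤ 2 |nv H w ∩ D j|}` (for `i = 0` the set is empty), `count_half`:
`|Bad| ≤ k (2 R3 + 2 R) ≤ 32 X R3`. For `w ∉ Bad`, `i` as above, `j = i - 1`:
`w ∈ ins E (ei D (j+1))`, so `nv H w \ ei D j ⊆ D j` has more than `d / 2` elements, so
`w ∈ ins E (D j)`, `nv Γ w ⊆ D j` (`clos`). If `nv Γ w ≠ D j`: every member of `cores` contained in
`nv Γ w` is a `D i'` with `i' ≤ j` (`ord`), `i' ≠ j`; so `cov Γ d (nv Γ w) ⊆ ei D j` and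
`|nv H w \ ei D j| ≤ 3 R3`, contradiction.
-/

set_option autoImplicit false

namespace Pool.Agent.Lib.SubBisK.V

open Finset

variable {α β : Type} [Fintype α] [Fintype β] [DecidableEq α] [DecidableEq β]

/-- The neighbourhoods of the core vertices in a linear order that extends inclusion. -/
structure Chn (Γ : α → β → Bool) (d : ℕ) {k : ℕ} (D : Fin k → Finset β) : Prop where
  inj : Function.Injective D
  ran : ∀ D' ∈ cores Γ d, ∃ i, D i = D'
  mem : ∀ i, D i ∈ cores Γ d
  ord : ∀ i j, D i ⊆ D j → i ≤ j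

/-- the union of the first `i` neighbourhoods -/
def ei {k : ℕ} (D : Fin k → Finset β) (i : ℕ) : Finset β :=
  (univ.filter fun j : Fin k => (j : ℕ) < i).biUnion D

/-- `32 X R3` -/
def R4 (X R : ℕ) : ℕ := 32 * X * R3 X R

variable {E H Γ : α → β → Bool} {d R X k : ℕ} {D : Fin k → Finset β}

theorem exists_chn (Γ : α → β → Bool) (d : ℕ) :
    ∃ D : Fin (cores Γ d).card → Finset β, Chn Γ d D := by
  classical
  set f : Fin (cores Γ d).card → Finset β :=
    fun i => (((cores Γ d).equivFin.symm i : {x // x ∈ cores Γ d}) : Finset β) with hf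
  set g : Fin (cores Γ d).card → ℕ := fun i => (f i).card with hg
  set σ : Equiv.Perm (Fin (cores Γ d).card) := Tuple.sort g with hσ
  have hmono : Monotone (g ∘ σ) := Tuple.monotone_sort g
  have hfi : Function.Injective f :=
    Subtype.val_injective.comp (cores Γ d).equivFin.symm.injective
  have hinj : Function.Injective (fun i => f (σ i)) := hfi.comp σ.injective
  refine ⟨fun i => f (σ i), hinj, ?_, ?_, ?_⟩
  · intro D' hD'
    refine ⟨σ.symm ((cores Γ d).equivFin ⟨D', hD'⟩), ?_⟩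
    simp [hf]
  · intro i
    exact ((cores Γ d).equivFin.symm (σ i)).2
  · intro i j hij
    by_contra hlt
    have hji : j ≤ i := le_of_lt (not_le.1 hlt)
    have hc : (f (σ j)).card ≤ (f (σ i)).card := hmono hji
    have heq : f (σ i) = f (σ j) := eq_of_subset_of_card_le hij hc
    exact hlt (le_of_eq (hinj heq))

theorem ei_mono (D : Fin k → Finset β) {i j : ℕ} (h : i ≤ j) : ei D i ⊆ ei D j := by
  unfold ei
  apply biUnion_subset_biUnion_of_subset_left
  intro x hx
  rw [mem_filter] at hx ⊢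
  exact ⟨hx.1, lt_of_lt_of_le hx.2 h⟩

theorem ei_zero (D : Fin k → Finset β) : ei D 0 = ∅ := by
  simp [ei]

theorem subset_ei (D : Fin k → Finset β) {i : ℕ} {j : Fin k} (h : (j : ℕ) < i) : D j ⊆ ei D i := by
  unfold ei
  exact subset_biUnion_of_mem D (mem_filter.2 ⟨mem_univ j, h⟩)

theorem ei_succ (D : Fin k → Finset β) (j : Fin k) : ei D ((j : ℕ) + 1) = ei D j ∪ D j := by
  apply Subset.antisymm
  · intro b hb
    rw [ei, mem_biUnion] at hb
    obtain ⟨a, ha, hab⟩ := hb
    rw [mem_filter] at ha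
    rcases Nat.lt_succ_iff_lt_or_eq.1 ha.2 with h | h
    · exact mem_union_left _ (subset_ei D h hab)
    · have : a = j := Fin.ext h
      subst this
      exact mem_union_right _ hab
  · exact union_subset (ei_mono D (Nat.le_succ _)) (subset_ei D (Nat.lt_succ_self _))

theorem VCAux.rd_D_le (h : Str E H Γ d R) (hD : Chn Γ d D) (i : Fin k) : rd E (D i) ≤ R := by
  have hm := hD.mem i
  rw [cores, mem_image] at hm
  obtain ⟨v, -, hv⟩ := hm
  rw [← hv]
  exact h.dfc v

theorem rd_ei_le (h : Str E H Γ d R) (hX : Fintype.card α ≤ X * d) (hk : k ≤ 8 * X)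
    (hD : Chn Γ d D) (i : ℕ) : rd E (ei D i) ≤ R3 X R := by
  have _ := hX
  have h1 := rd_biUnion_le h.he (univ.filter fun j : Fin k => (j : ℕ) < i) D
    (R := (R : ℤ)) (fun j _ => VCAux.rd_D_le h hD j)
  have h2 : ((univ.filter fun j : Fin k => (j : ℕ) < i).card) ≤ 8 * X := by
    refine le_trans (card_le_card (filter_subset _ _)) ?_
    simpa using hk
  have h3 : (((univ.filter fun j : Fin k => (j : ℕ) < i).card : ℕ) : ℤ) * (R : ℤ) ≤
      ((8 * X * R : ℕ) : ℤ) := by
    exact_mod_cast Nat.mul_le_mul_right R h2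
  calc rd E (ei D i) ≤ _ := h1
    _ ≤ ((8 * X * R : ℕ) : ℤ) := h3
    _ = R3 X R := rfl

/-- **(3c)** -/
theorem exists_bad (h : Str E H Γ d R) (hX : Fintype.card α ≤ X * d) (hX1 : 1 ≤ X) (hR : 1 ≤ R)
    (hd : 64 * R4 X R ≤ d) (hk : k ≤ 8 * X) (hD : Chn Γ d D) :
    ∃ Bad : Finset α, Bad.card ≤ R4 X R ∧
      ∀ w ∉ Bad, ∃ j, nv Γ w = D j ∧ d < 2 * (nv H w \ ei D j).card := by
  classical
  have hRR : R ≤ R3 X R := by
    unfold R3
    calc R = 1 * R := (one_mul R).symm
      _ ≤ 8 * X * R := Nat.mul_le_mul_right R (by omega)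
  have hR34 : 32 * R3 X R ≤ R4 X R := by
    unfold R4
    exact Nat.mul_le_mul_right _ (by omega)
  have hd3 : 40 * R3 X R ≤ d := by omega
  set B1 : Fin k → Finset α := fun j => univ.filter fun w =>
    w ∉ ins E (ei D ((j : ℕ) + 1)) ∧ d ≤ 2 * (nv H w ∩ ei D ((j : ℕ) + 1)).card with hB1
  set B2 : Fin k → Finset α := fun j => univ.filter fun w =>
    w ∉ ins E (D j) ∧ d ≤ 2 * (nv H w ∩ D j).card with hB2
  have hc1 : ∀ j, (B1 j).card ≤ 2 * R3 X R := by
    intro j
    have h1 : ((B1 j).card : ℤ) ≤ 2 * rd E (ei D ((j : ℕ) + 1)) :=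
      count_half h.he (ei D ((j : ℕ) + 1)) (fun v hv => (mem_filter.1 hv).2.1)
        (fun v hv => (mem_filter.1 hv).2.2)
    have h2 := rd_ei_le h hX hk hD ((j : ℕ) + 1)
    have h3 : ((B1 j).card : ℤ) ≤ ((2 * R3 X R : ℕ) : ℤ) := by
      push_cast
      linarith
    exact_mod_cast h3
  have hc2 : ∀ j, (B2 j).card ≤ 2 * R := by
    intro j
    have h1 : ((B2 j).card : ℤ) ≤ 2 * rd E (D j) :=
      count_half h.he (D j) (fun v hv => (mem_filter.1 hv).2.1)
        (fun v hv => (mem_filter.1 hv).2.2)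
    have h2 := VCAux.rd_D_le h hD j
    have h3 : ((B2 j).card : ℤ) ≤ ((2 * R : ℕ) : ℤ) := by
      push_cast
      linarith
    exact_mod_cast h3
  refine ⟨univ.biUnion fun j => B1 j ∪ B2 j, ?_, ?_⟩
  · have h1 : (univ.biUnion fun j => B1 j ∪ B2 j).card ≤ (univ : Finset (Fin k)).card *
        (4 * R3 X R) := by
      refine card_biUnion_le_card_mul _ _ _ ?_
      intro j _
      refine le_trans (card_union_le _ _) ?_
      have := hc1 j
      have := hc2 j
      omega
    refine le_trans h1 ?_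
    rw [card_univ, Fintype.card_fin]
    unfold R4
    calc k * (4 * R3 X R) ≤ 8 * X * (4 * R3 X R) := Nat.mul_le_mul_right _ hk
      _ = 32 * X * R3 X R := by ring
  · intro w hw
    have hw1 : ∀ j, w ∉ B1 j := by
      intro j hj
      exact hw (mem_biUnion.2 ⟨j, mem_univ j, mem_union_left _ hj⟩)
    have hw2 : ∀ j, w ∉ B2 j := by
      intro j hj
      exact hw (mem_biUnion.2 ⟨j, mem_univ j, mem_union_right _ hj⟩)
    have hcov := sdiff_cov h hX hX1 hR hd3 w
    have hHΓ : nv H w ⊆ nv Γ w := fun b hb =>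
      mem_nv.2 (h.le w b (h.he.le w b (mem_nv.1 hb)))
    have hex : ∃ i, 2 * (nv H w \ ei D i).card ≤ d := by
      refine ⟨k, ?_⟩
      have hsub : nv H w \ ei D k ⊆ nv Γ w \ cov Γ d (nv Γ w) := by
        refine sdiff_subset_sdiff hHΓ ?_
        intro b hb
        rw [cov, mem_biUnion] at hb
        obtain ⟨D', hD', hb'⟩ := hb
        obtain ⟨i, hi⟩ := hD.ran D' (mem_filter.1 hD').1
        rw [← hi] at hb'
        exact subset_ei D i.2 hb'
      have := card_le_card hsub
      omega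
    have hfk : Nat.find hex ≤ k := by
      apply Nat.find_min'
      have hsub : nv H w \ ei D k ⊆ nv Γ w \ cov Γ d (nv Γ w) := by
        refine sdiff_subset_sdiff hHΓ ?_
        intro b hb
        rw [cov, mem_biUnion] at hb
        obtain ⟨D', hD', hb'⟩ := hb
        obtain ⟨i, hi⟩ := hD.ran D' (mem_filter.1 hD').1
        rw [← hi] at hb'
        exact subset_ei D i.2 hb'
      have := card_le_card hsub
      omega
    have hf0 : Nat.find hex ≠ 0 := by
      intro h0
      have h1 := Nat.find_spec hex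
      rw [h0, ei_zero, sdiff_empty, nv_card h.he.reg] at h1
      have := h.he.pos
      omega
    obtain ⟨j, hj⟩ : ∃ j, Nat.find hex = j + 1 := Nat.exists_eq_succ_of_ne_zero hf0
    have hjk : j < k := by omega
    have hnot : ¬ 2 * (nv H w \ ei D j).card ≤ d := Nat.find_min hex (by omega)
    have hyes : 2 * (nv H w \ ei D (j + 1)).card ≤ d := by
      have := Nat.find_spec hex
      rwa [hj] at this
    refine ⟨⟨j, hjk⟩, ?_, not_le.1 hnot⟩
    have hin : w ∈ ins E (ei D (j + 1)) := by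
      by_contra hni
      exact hw1 ⟨j, hjk⟩ (mem_filter.2 ⟨mem_univ w, hni, half_of_sdiff h.he hyes⟩)
    have hsucc : ei D (j + 1) = ei D j ∪ D ⟨j, hjk⟩ := ei_succ D ⟨j, hjk⟩
    have hsub1 : nv H w \ ei D j ⊆ nv H w ∩ D ⟨j, hjk⟩ := by
      intro b hb
      rw [mem_sdiff] at hb
      have hb1 : b ∈ ei D (j + 1) := mem_ins.1 hin (h.he.nv_subset w hb.1)
      rw [hsucc, mem_union] at hb1
      rcases hb1 with hb1 | hb1
      · exact absurd hb1 hb.2
      · exact mem_inter.2 ⟨hb.1, hb1⟩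
    have hin2 : w ∈ ins E (D ⟨j, hjk⟩) := by
      by_contra hni
      refine hw2 ⟨j, hjk⟩ (mem_filter.2 ⟨mem_univ w, hni, ?_⟩)
      have := card_le_card hsub1
      omega
    have hsub2 : nv Γ w ⊆ D ⟨j, hjk⟩ := by
      have hm := hD.mem ⟨j, hjk⟩
      rw [cores, mem_image] at hm
      obtain ⟨v, -, hv⟩ := hm
      rw [← hv]
      apply h.clos
      rw [hv]
      exact mem_ins.1 hin2
    by_contra hne
    have hcs : cov Γ d (nv Γ w) ⊆ ei D j := by
      intro b hb
      rw [cov, mem_biUnion] at hb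
      obtain ⟨D', hD', hb'⟩ := hb
      rw [mem_filter] at hD'
      obtain ⟨i, hi⟩ := hD.ran D' hD'.1
      have hle : i ≤ ⟨j, hjk⟩ := hD.ord i ⟨j, hjk⟩ (by rw [hi]; exact hD'.2.trans hsub2)
      have hne2 : i ≠ ⟨j, hjk⟩ := by
        intro he
        apply hne
        apply Subset.antisymm hsub2
        rw [← he, hi]
        exact hD'.2
      have hlt : (i : ℕ) < j := lt_of_le_of_ne hle (fun he => hne2 (Fin.ext he))
      have hb2 : b ∈ D i := by rw [hi]; exact hb'
      exact subset_ei D hlt hb2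
    have hfin : nv H w \ ei D j ⊆ nv Γ w \ cov Γ d (nv Γ w) := sdiff_subset_sdiff hHΓ hcs
    have := card_le_card hfin
    omega

end Pool.Agent.Lib.SubBisK.V
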