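import Pool.Agent.Lib.SubBisK.VA
import Pool.Agent.Lib.SubBisK.VC

/-!
# MODULE SubBisK.VD: the blocks (est. 1.5 h)

(3d), (3e) of /team-store/a7c826_V.md.

PROOF. `Bad`, `D` from `exists_bad`; `C j = {w : nv Γ w = D j}`, `|C j| ≥ d / 8` (`mem`).
`mem_C`: `w ∉ Bad`, `w ∈ ins E (ei D (j+1))`, `w ∉ ins E (ei D j)` implies `nv Γ w = D j`
[`w ∈ C m`, `d < 2 |nv H w \ ei D m|`: `ei D (j+1) ⊄ ei D m`, so `m ≤ j`; if `m < j` then
`nv E w ⊆ D m ⊆ ei D j`]. `C j \ Bad ⊆ ins E (ei D (j+1)) \ ins E (ei D j)`. So (3d):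
`| |C j| - |ei D (j+1) \ ei D j| | ≤ R3 + R4` and `|ei D (j+1) \ ei D j| > d / 2`.
CLAIM `core_claim`: `t ∈ ei D (j+1) \ ei D j` with `d ≤ 8 |twn (tr Γ) t|` and `Γ v t` imply
`D j ⊆ nv Γ v`. [The twins of `t` are in `nv Γ v` and in `ei D (j+1) \ ei D j` (unions of
neighbourhoods). `|ins E (nv Γ v ∩ ei D (j+1))| - |ins E (nv Γ v ∩ ei D j)| ≥
|nv Γ v ∩ (ei D (j+1) \ ei D j)| - rd E (nv Γ v ∩ ei D (j+1)) ≥ d / 8 - R - R3 > R4 ≥ |Bad|`, `ins_inter`.]
Right side: `Str (tr E) (tr H) (tr Γ) d R` and `exists_bad` for it: all but `R4` of the `t` are core.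
`Q j` = the class of a core `t` in `ei D (j+1) \ ei D j`; by the claim two core `t`, `t'` there are
twins. `|univ \ ei D k| ≤ R4` since `rd E ≥ 0` and all `w ∉ Bad` are in `ins E (ei D k)`.
-/

set_option autoImplicit false

namespace Pool.Agent.Lib.SubBisK.V

open Finset

variable {α β : Type} [Fintype α] [Fintype β] [DecidableEq α] [DecidableEq β]
variable {E H Γ : α → β → Bool} {d R X k : ℕ} {D : Fin k → Finset β}

/-- The bound for the vertices outside the blocks and for the imbalance. -/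
def RL (X R : ℕ) : ℕ := 8 * X * (R3 X R + 2 * R4 X R) + 2 * R4 X R

namespace VDAux

theorem nv_eq_iff {Γ : α → β → Bool} {v v' : α} :
    nv Γ v = nv Γ v' ↔ ∀ b, Γ v b = Γ v' b := by
  constructor
  · intro h b
    have h1 := Finset.ext_iff.1 h b
    rw [mem_nv, mem_nv] at h1
    exact Bool.eq_iff_iff.2 h1
  · intro h
    ext b
    rw [mem_nv, mem_nv, h b]

theorem mem_twn {Γ : α → β → Bool} {v w : α} : w ∈ twn Γ v ↔ nv Γ w = nv Γ v := by
  simp [twn]

theorem core_congr {Γ : α → β → Bool} {d : ℕ} {v w : α} (h : nv Γ v = nv Γ w) :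
    Core Γ d v ↔ Core Γ d w := by
  unfold Core twn
  rw [h]

theorem mem_cores {Γ : α → β → Bool} {d : ℕ} {D' : Finset β} :
    D' ∈ cores Γ d ↔ ∃ v, Core Γ d v ∧ nv Γ v = D' := by
  simp [cores]

theorem mem_ei {D : Fin k → Finset β} {i : ℕ} {t : β} :
    t ∈ ei D i ↔ ∃ j : Fin k, (j : ℕ) < i ∧ t ∈ D j := by
  simp [ei]

/-- twins are in the same sets of the chain -/
theorem twin_ei (hD : Chn Γ d D) {t t' : β} (h : nv (tr Γ) t' = nv (tr Γ) t) (i : ℕ) :
    t' ∈ ei D i ↔ t ∈ ei D i := by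
  have h1 : ∀ j, t' ∈ D j ↔ t ∈ D j := by
    intro j
    obtain ⟨v, -, hv⟩ := mem_cores.1 (hD.mem j)
    rw [← hv, mem_nv, mem_nv]
    have h2 := nv_eq_iff.1 h v
    simp only [tr] at h2
    rw [h2]
  simp only [mem_ei, h1]

/-- the vertices outside `Bad` of a step of the chain are in the class -/
theorem mem_class (h : Str E H Γ d R) {Bad : Finset α}
    (hB : ∀ w ∉ Bad, ∃ j, nv Γ w = D j ∧ d < 2 * (nv H w \ ei D j).card) {w : α} (hw : w ∉ Bad)
    {j : Fin k} (h1 : w ∈ ins E (ei D ((j : ℕ) + 1))) (h2 : w ∉ ins E (ei D j)) :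
    nv Γ w = D j := by
  obtain ⟨m, hm1, hm2⟩ := hB w hw
  have h3 : m ≤ j := by
    by_contra h4
    push Not at h4
    have h5 : ei D ((j : ℕ) + 1) ⊆ ei D m := ei_mono D (Nat.succ_le_of_lt h4)
    have h6 : nv H w ⊆ ei D m := (h.he.nv_subset w).trans ((mem_ins.1 h1).trans h5)
    rw [sdiff_eq_empty_iff_subset.2 h6, card_empty] at hm2
    omega
  rcases lt_or_eq_of_le h3 with h4 | h4
  · exfalso
    apply h2
    rw [mem_ins]
    refine (h.nv_sub w).trans ?_
    rw [hm1]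
    exact subset_ei D h4
  · rw [hm1, h4]

theorem class_mem (h : Str E H Γ d R) (hD : Chn Γ d D) {Bad : Finset α}
    (hB : ∀ w ∉ Bad, ∃ j, nv Γ w = D j ∧ d < 2 * (nv H w \ ei D j).card) {w : α} (hw : w ∉ Bad)
    {j : Fin k} (hj : nv Γ w = D j) :
    w ∈ ins E (ei D ((j : ℕ) + 1)) ∧ w ∉ ins E (ei D j) ∧ d < 2 * (nv H w \ ei D j).card := by
  obtain ⟨m, hm1, hm2⟩ := hB w hw
  have h3 : m = j := hD.inj (hm1.symm.trans hj)
  subst h3
  refine ⟨?_, ?_, hm2⟩
  · rw [mem_ins]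
    refine (h.nv_sub w).trans ?_
    rw [hj]
    exact subset_ei D (Nat.lt_succ_self _)
  · intro h4
    rw [mem_ins] at h4
    rw [sdiff_eq_empty_iff_subset.2 ((h.he.nv_subset w).trans h4), card_empty] at hm2
    omega

theorem ar1 (hX1 : 1 ≤ X) (hR : 1 ≤ R) : 8 * R ≤ R3 X R ∧ 32 * R3 X R ≤ R4 X R ∧ 1 ≤ R4 X R := by
  have h1 : 8 * R ≤ R3 X R := by
    unfold R3
    nlinarith
  have h2 : 32 * R3 X R ≤ R4 X R := by
    unfold R4
    nlinarith
  exact ⟨h1, h2, by omega⟩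

end VDAux

open VDAux

/-- **(3e)**, the claim -/
theorem core_claim (h : Str E H Γ d R) (hX : Fintype.card α ≤ X * d) (hX1 : 1 ≤ X) (hR : 1 ≤ R)
    (hd : 64 * R4 X R ≤ d) (hk : k ≤ 8 * X) (hD : Chn Γ d D) (j : Fin k) {t : β}
    (ht : t ∈ ei D ((j : ℕ) + 1) \ ei D j) (ht2 : Core (tr Γ) d t) {v : α} (hv : Γ v t = true) :
    D j ⊆ nv Γ v := by
  obtain ⟨Bad, hB1, hB2⟩ := exists_bad h hX hX1 hR hd hk hD
  obtain ⟨hr1, hr2, hr3⟩ := ar1 (X := X) (R := R) hX1 hR
  have hT : twn (tr Γ) t ⊆ (nv Γ v ∩ ei D ((j : ℕ) + 1)) \ (nv Γ v ∩ ei D j) := by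
    intro t' ht'
    have h1 := mem_twn.1 ht'
    have h2 := mem_sdiff.1 ht
    have h3 : Γ v t' = true := by
      have h4 := nv_eq_iff.1 h1 v
      simp only [tr] at h4
      rw [h4, hv]
    rw [mem_sdiff, mem_inter, mem_inter, twin_ei hD h1, twin_ei hD h1, mem_nv]
    exact ⟨⟨h3, h2.1⟩, fun h5 => h2.2 h5.2⟩
  have hsub : nv Γ v ∩ ei D j ⊆ nv Γ v ∩ ei D ((j : ℕ) + 1) :=
    inter_subset_inter le_rfl (ei_mono D (Nat.le_succ _))
  have h1 := card_le_card hT
  have h2 := card_sdiff_add_card_eq_card hsub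
  have h3 : rd E (nv Γ v ∩ ei D ((j : ℕ) + 1)) ≤ R + R3 X R :=
    (rd_inter_le h.he _ _).trans (add_le_add (h.dfc v) (rd_ei_le h hX hk hD _))
  have h4 := rd_nonneg h.he (nv Γ v ∩ ei D j)
  have h5 : d ≤ 8 * (twn (tr Γ) t).card := ht2
  have h6 : Bad.card <
      (ins E (nv Γ v ∩ ei D ((j : ℕ) + 1)) \ ins E (nv Γ v ∩ ei D j)).card := by
    have h7 := le_card_sdiff (ins E (nv Γ v ∩ ei D j)) (ins E (nv Γ v ∩ ei D ((j : ℕ) + 1)))
    unfold rd at h3 h4
    omega
  obtain ⟨w, hw1, hw2⟩ := exists_mem_notMem_of_card_lt_card h6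
  rw [mem_sdiff, ins_inter, ins_inter, mem_inter, mem_inter] at hw1
  have h7 := mem_class h hB2 hw2 hw1.1.2 fun h8 => hw1.2 ⟨hw1.1.1, h8⟩
  rw [← h7]
  exact h.mem_ins_nv.1 hw1.1.1

namespace VDAux

/-- all but `R4` vertices are core -/
theorem exists_core_bad (h : Str E H Γ d R) (hX : Fintype.card α ≤ X * d) (hX1 : 1 ≤ X)
    (hR : 1 ≤ R) (hd : 64 * R4 X R ≤ d) :
    ∃ Bad : Finset α, Bad.card ≤ R4 X R ∧ ∀ w ∉ Bad, Core Γ d w := by
  obtain ⟨D, hD⟩ := exists_chn Γ d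
  obtain ⟨Bad, hB1, hB2⟩ := exists_bad h hX hX1 hR hd (card_cores_le h.he.pos hX) hD
  refine ⟨Bad, hB1, fun w hw => ?_⟩
  obtain ⟨j, hj, -⟩ := hB2 w hw
  obtain ⟨v, hv1, hv2⟩ := mem_cores.1 (hD.mem j)
  exact (core_congr (hv2.trans hj.symm)).1 hv1

/-- the step of the chain that contains `t` -/
theorem exists_step {t : β} (ht : t ∈ ei D k) :
    ∃ j : Fin k, t ∈ ei D ((j : ℕ) + 1) \ ei D j := by
  classical
  have h1 : ∃ m, t ∈ ei D m := ⟨k, ht⟩
  have h2 := Nat.find_spec h1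
  have h3 : Nat.find h1 ≤ k := Nat.find_min' h1 ht
  have h4 : Nat.find h1 ≠ 0 := by
    intro h5
    rw [h5, ei_zero] at h2
    simp at h2
  obtain ⟨m, hm⟩ := Nat.exists_eq_succ_of_ne_zero h4
  have h5 : m < k := by omega
  refine ⟨⟨m, h5⟩, mem_sdiff.2 ⟨?_, fun h6 => ?_⟩⟩
  · rw [hm] at h2
    exact h2
  · have h7 := Nat.find_min' h1 h6
    simp only at h7
    omega

end VDAux

/-- **Structure theorem** for graphs with the properties `Str` on both sides. -/
theorem exists_blk_of (h : Str E H Γ d R) (h' : Str (tr E) (tr H) (tr Γ) d R)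
    (hX : Fintype.card α ≤ X * d) (hX1 : 1 ≤ X) (hR : 1 ≤ R) (hd : 64 * R4 X R ≤ d) :
    ∃ (r : ℕ) (P : Fin r → Finset α) (Q : Fin r → Finset β),
      r * d ≤ 8 * Fintype.card α ∧ Blk Γ P Q (d / 8) (RL X R) := by
  obtain ⟨hr1, hr2, hr3⟩ := ar1 (X := X) (R := R) hX1 hR
  have hcard := card_eq h.he
  obtain ⟨D, hD⟩ := exists_chn Γ d
  have hk := card_cores_le (Γ := Γ) h.he.pos hX
  obtain ⟨Bad, hB1, hB2⟩ := exists_bad h hX hX1 hR hd hk hD
  obtain ⟨Bad', hC1, hC2⟩ := exists_core_bad h' (hcard ▸ hX) hX1 hR hd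
  -- the classes
  let P : Fin (cores Γ d).card → Finset α := fun j => univ.filter fun w => nv Γ w = D j
  have mP : ∀ j w, w ∈ P j ↔ nv Γ w = D j := fun j w => by simp [P]
  have bP : ∀ j, d ≤ 8 * (P j).card := by
    intro j
    obtain ⟨v, hv1, hv2⟩ := mem_cores.1 (hD.mem j)
    have h1 : P j = twn Γ v := by
      ext w
      rw [mP, mem_twn, hv2]
    rw [h1]
    exact hv1
  have stp : ∀ j : Fin (cores Γ d).card, ei D j ⊆ ei D ((j : ℕ) + 1) := fun j =>
    ei_mono D (Nat.le_succ _)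
  have big : ∀ j : Fin (cores Γ d).card, d < 2 * (ei D ((j : ℕ) + 1) \ ei D j).card := by
    intro j
    have h1 : Bad.card < (P j).card := by
      have := bP j
      omega
    obtain ⟨w, hw1, hw2⟩ := exists_mem_notMem_of_card_lt_card h1
    have h2 := class_mem h hD hB2 hw2 ((mP j w).1 hw1)
    refine h2.2.2.trans_le (Nat.mul_le_mul_left 2 (card_le_card ?_))
    exact sdiff_subset_sdiff ((h.he.nv_subset w).trans (mem_ins.1 h2.1)) le_rfl
  have tex : ∀ j : Fin (cores Γ d).card, ∃ t, t ∈ ei D ((j : ℕ) + 1) \ ei D j ∧ t ∉ Bad' := by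
    intro j
    have h1 := big j
    exact exists_mem_notMem_of_card_lt_card (by omega)
  choose t ht1 ht2 using tex
  let Q : Fin (cores Γ d).card → Finset β := fun j => twn (tr Γ) (t j)
  have mQ : ∀ j b, b ∈ Q j ↔ nv (tr Γ) b = nv (tr Γ) (t j) := fun j b => mem_twn
  have cQ : ∀ j b, b ∈ Q j → Core (tr Γ) d b := fun j b hb =>
    (core_congr ((mQ j b).1 hb)).2 (hC2 _ (ht2 j))
  have sQ : ∀ j : Fin (cores Γ d).card, Q j ⊆ ei D ((j : ℕ) + 1) \ ei D j := by
    intro j b hb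
    have h1 := (mQ j b).1 hb
    rw [mem_sdiff, twin_ei hD h1, twin_ei hD h1, ← mem_sdiff]
    exact ht1 j
  have sD : ∀ (j : Fin (cores Γ d).card) b, b ∈ ei D ((j : ℕ) + 1) \ ei D j → b ∈ D j := by
    intro j b hb
    rw [mem_sdiff, ei_succ, mem_union] at hb
    exact hb.1.resolve_left hb.2
  have inQ : ∀ (j : Fin (cores Γ d).card) b, b ∈ ei D ((j : ℕ) + 1) \ ei D j → b ∉ Bad' →
      b ∈ Q j := by
    intro j b hb hb'
    rw [mQ, nv_eq_iff]
    intro v
    rw [Bool.eq_iff_iff]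
    simp only [tr]
    constructor
    · intro hv
      have h1 := core_claim h hX hX1 hR hd hk hD j hb (hC2 b hb') hv
      exact mem_nv.1 (h1 (sD j _ (ht1 j)))
    · intro hv
      have h1 := core_claim h hX hX1 hR hd hk hD j (ht1 j) (hC2 _ (ht2 j)) hv
      exact mem_nv.1 (h1 (sD j _ hb))
  -- cardinalities
  have cd : ∀ j : Fin (cores Γ d).card,
      ((ins E (ei D ((j : ℕ) + 1)) \ ins E (ei D j)).card : ℤ) =
      ((ei D ((j : ℕ) + 1) \ ei D j).card : ℤ) - rd E (ei D ((j : ℕ) + 1)) + rd E (ei D j) := by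
    intro j
    have h1 := card_sdiff_add_card_eq_card (stp j)
    have h2 := card_sdiff_add_card_eq_card (ins_mono E (stp j))
    unfold rd
    omega
  have PI : ∀ j : Fin (cores Γ d).card,
      (P j).card ≤ (ins E (ei D ((j : ℕ) + 1)) \ ins E (ei D j)).card + R4 X R := by
    intro j
    have h1 : P j ⊆ (ins E (ei D ((j : ℕ) + 1)) \ ins E (ei D j)) ∪ Bad := by
      intro w hw
      rw [mem_union]
      by_cases hwB : w ∈ Bad
      · exact Or.inr hwB
      · have h2 := class_mem h hD hB2 hwB ((mP j w).1 hw)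
        exact Or.inl (mem_sdiff.2 ⟨h2.1, h2.2.1⟩)
    have h2 := (card_le_card h1).trans (card_union_le _ _)
    omega
  have IP : ∀ j : Fin (cores Γ d).card,
      (ins E (ei D ((j : ℕ) + 1)) \ ins E (ei D j)).card ≤ (P j).card + R4 X R := by
    intro j
    have h1 : (ins E (ei D ((j : ℕ) + 1)) \ ins E (ei D j)) ⊆ P j ∪ Bad := by
      intro w hw
      rw [mem_union]
      by_cases hwB : w ∈ Bad
      · exact Or.inr hwB
      · have h2 := mem_sdiff.1 hw
        exact Or.inl ((mP j w).2 (mem_class h hB2 hwB h2.1 h2.2))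
    have h2 := (card_le_card h1).trans (card_union_le _ _)
    omega
  have QI : ∀ j : Fin (cores Γ d).card,
      (ei D ((j : ℕ) + 1) \ ei D j).card ≤ (Q j).card + R4 X R := by
    intro j
    have h1 : (ei D ((j : ℕ) + 1) \ ei D j) ⊆ Q j ∪ Bad' := by
      intro b hb
      rw [mem_union]
      by_cases hbB : b ∈ Bad'
      · exact Or.inr hbB
      · exact Or.inl (inQ j b hb hbB)
    have h2 := (card_le_card h1).trans (card_union_le _ _)
    omega
  have QS : ∀ j : Fin (cores Γ d).card, (Q j).card ≤ (ei D ((j : ℕ) + 1) \ ei D j).card :=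
    fun j => card_le_card (sQ j)
  have rE : ∀ i, 0 ≤ rd E (ei D i) ∧ rd E (ei D i) ≤ R3 X R := fun i =>
    ⟨rd_nonneg h.he _, rd_ei_le h hX hk hD i⟩
  have bPQ : ∀ j, (P j).card ≤ (Q j).card + (R3 X R + 2 * R4 X R) := by
    intro j
    have h1 := cd j
    have h2 := PI j
    have h3 := QI j
    have h4 := rE ((j : ℕ) + 1)
    have h5 := rE j
    omega
  have bQP : ∀ j, (Q j).card ≤ (P j).card + (R3 X R + 2 * R4 X R) := by
    intro j
    have h1 := cd j
    have h2 := IP j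
    have h3 := QS j
    have h4 := rE ((j : ℕ) + 1)
    have h5 := rE j
    omega
  have bsum : ∀ (f g : Fin (cores Γ d).card → ℕ), (∀ j, f j ≤ g j + (R3 X R + 2 * R4 X R)) →
      ∀ I : Finset (Fin (cores Γ d).card), ∑ i ∈ I, f i ≤ ∑ i ∈ I, g i + RL X R := by
    intro f g hfg I
    have h1 : ∑ i ∈ I, f i ≤ ∑ i ∈ I, (g i + (R3 X R + 2 * R4 X R)) :=
      sum_le_sum fun i _ => hfg i
    rw [sum_add_distrib, sum_const, smul_eq_mul] at h1
    have h2 : I.card ≤ 8 * X := by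
      have h3 := card_le_univ I
      rw [Fintype.card_fin] at h3
      exact h3.trans hk
    have h3 := Nat.mul_le_mul_right (R3 X R + 2 * R4 X R) h2
    unfold RL
    omega
  have hRL : 2 * R4 X R ≤ RL X R := Nat.le_add_left _ _
  refine ⟨(cores Γ d).card, P, Q, card_cores Γ d, ?_⟩
  refine
    { twL := ?_
      twR := ?_
      bis := ?_
      disjL := ?_
      disjR := ?_
      bigL := ?_
      bigR := ?_
      outL := ?_
      outR := ?_
      balL := bsum _ _ bPQ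
      balR := bsum _ _ bQP }
  · intro i v hv v'
    rw [mP] at hv ⊢
    rw [← hv, ← nv_eq_iff]
    exact eq_comm
  · intro i b hb b'
    rw [mQ] at hb ⊢
    rw [← hb, eq_comm, nv_eq_iff]
    rfl
  · intro i v hv b hb
    rw [mP] at hv
    have h1 := sQ i hb
    refine ⟨?_, fun w b' hw hb' => ?_⟩
    · have h2 := sD i b h1
      rw [← hv, mem_nv] at h2
      exact h2
    · have h2 := core_claim h hX hX1 hR hd hk hD i h1 (cQ i b hb) hw
      rw [← hv] at h2
      exact mem_nv.1 (h2 (mem_nv.2 hb'))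
  · intro i j hij
    rw [disjoint_left]
    intro w hw hw'
    rw [mP] at hw hw'
    exact hij (hD.inj (hw.symm.trans hw'))
  · have key : ∀ i j : Fin (cores Γ d).card, i < j → Disjoint (Q i) (Q j) := by
      intro i j hij
      rw [disjoint_left]
      intro b hb hb'
      have h1 := mem_sdiff.1 (sQ i hb)
      have h2 := mem_sdiff.1 (sQ j hb')
      exact h2.2 (ei_mono D (Nat.succ_le_of_lt hij) h1.1)
    intro i j hij
    rcases lt_or_gt_of_ne hij with h1 | h1
    · exact key i j h1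
    · exact (key j i h1).symm
  · intro i
    have := bP i
    omega
  · intro i
    have h1 : d ≤ 8 * (Q i).card := hC2 _ (ht2 i)
    omega
  · have h1 : univ \ univ.biUnion P ⊆ Bad := by
      intro w hw
      by_contra hwB
      obtain ⟨j, hj, -⟩ := hB2 w hwB
      exact (mem_sdiff.1 hw).2 (mem_biUnion.2 ⟨j, mem_univ j, (mP j w).2 hj⟩)
    have h2 := card_le_card h1
    omega
  · have h1 : univ \ univ.biUnion Q ⊆ (univ \ ei D (cores Γ d).card) ∪ Bad' := by
      intro b hb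
      rw [mem_union]
      by_contra hcon
      push Not at hcon
      have h2 : b ∈ ei D (cores Γ d).card := by
        by_contra h3
        exact hcon.1 (mem_sdiff.2 ⟨mem_univ b, h3⟩)
      obtain ⟨j, hj⟩ := exists_step h2
      exact (mem_sdiff.1 hb).2 (mem_biUnion.2 ⟨j, mem_univ j, inQ j b hj hcon.2⟩)
    have h2 := (card_le_card h1).trans (card_union_le _ _)
    have h3 : (univ \ ei D (cores Γ d).card).card ≤ R4 X R := by
      have h4 : univ \ Bad ⊆ ins E (ei D (cores Γ d).card) := by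
        intro w hw
        obtain ⟨j, hj, -⟩ := hB2 w (mem_sdiff.1 hw).2
        rw [mem_ins]
        refine (h.nv_sub w).trans ?_
        rw [hj]
        exact subset_ei D j.2
      have h5 := card_le_card h4
      have h6 := card_sdiff_add_card_eq_card (subset_univ Bad)
      have h7 := card_sdiff_add_card_eq_card (subset_univ (ei D (cores Γ d).card))
      have h8 := rd_nonneg h.he (ei D (cores Γ d).card)
      unfold rd at h8
      rw [card_univ] at h6 h7
      omega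
    omega

/-- **Structure theorem**: blocks of the completed graph. -/
theorem exists_blk (h : HE E H d) {D : ℕ} (hX : Fintype.card α ≤ X * d) (hX1 : 1 ≤ X)
    (hD : 1 ≤ D) (hd : 64 * R4 X (R2 X D) ≤ d) :
    ∃ (r : ℕ) (P : Fin r → Finset α) (Q : Fin r → Finset β),
      r * d ≤ 8 * Fintype.card α ∧ Blk (gh E D) P Q (d / 8) (RL X (R2 X D)) := by
  have hcard := card_eq h
  have h1 : 1 ≤ R1 X D := by
    unfold R1
    nlinarith
  have h2 : 1 ≤ R2 X D := by
    unfold R2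
    omega
  obtain ⟨hr1, hr2, hr3⟩ := ar1 (X := X) (R := R2 X D) hX1 h2
  have h3 : R1 X D ≤ R2 X D := by
    unfold R2
    omega
  have h4 : 8 * R1 X D ≤ d := by omega
  have s1 : Str E H (gh E D) d (R2 X D) :=
    ⟨h, fun v b hvb => le_gh h v b hvb, fun w v hw => gh_clos h hw,
      fun v => rd_gh_le h hX hD h4 v⟩
  have s2 : Str (tr E) (tr H) (tr (gh E D)) d (R2 X D) := by
    rw [gh_tr h]
    exact ⟨HE.tr' h, fun v b hvb => le_gh (HE.tr' h) v b hvb, fun w v hw => gh_clos (HE.tr' h) hw,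
      fun v => rd_gh_le (HE.tr' h) (hcard ▸ hX) hD h4 v⟩
  exact exists_blk_of s1 s2 hX hX1 h2 hd

end Pool.Agent.Lib.SubBisK.V
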