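import Pool.Agent.Lib.SubBisK.Defs

/-!
# MODULE SubBisK.VS: the defect of a set of right vertices (section 0 of /team-store/a7c826_V.md)

`E` the graph, `H` a `d`-regular spanning subgraph. For a set `D` of right vertices `ins E D` is the
set of the left vertices all of whose neighbours are in `D`, `rd E D = |D| - |ins E D|`.
-/

set_option autoImplicit false

namespace Pool.Agent.Lib.SubBisK.V

open Finset

variable {α β : Type} [Fintype α] [Fintype β] [DecidableEq α] [DecidableEq β]

/-- `H` is a `d`-regular spanning subgraph of `E`. -/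
structure HE (E H : α → β → Bool) (d : ℕ) : Prop where
  le : ∀ v b, H v b = true → E v b = true
  reg : Reg H d
  pos : 1 ≤ d

/-- the neighbours of the left vertex `v` -/
def nv (Γ : α → β → Bool) (v : α) : Finset β := univ.filter fun b => Γ v b = true

/-- the left vertices all of whose neighbours are in `D` -/
def ins (E : α → β → Bool) (D : Finset β) : Finset α := univ.filter fun v => nv E v ⊆ D

/-- the defect `|D| - |ins E D|` -/
def rd (E : α → β → Bool) (D : Finset β) : ℤ := (D.card : ℤ) - ((ins E D).card : ℤ)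

@[simp] theorem mem_nv {Γ : α → β → Bool} {v : α} {b : β} : b ∈ nv Γ v ↔ Γ v b = true := by
  simp [nv]

@[simp] theorem mem_ins {E : α → β → Bool} {D : Finset β} {v : α} :
    v ∈ ins E D ↔ nv E v ⊆ D := by
  simp [ins]

theorem nv_card {H : α → β → Bool} {d : ℕ} (h : Reg H d) (v : α) : (nv H v).card = d := h.1 v

theorem Reg.tr' {H : α → β → Bool} {d : ℕ} (h : Reg H d) : Reg (tr H) d := ⟨h.2, h.1⟩

theorem HE.tr' {E H : α → β → Bool} {d : ℕ} (h : HE E H d) : HE (tr E) (tr H) d :=
  ⟨fun v b hv => h.le b v hv, Reg.tr' h.reg, h.pos⟩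

theorem HE.nv_subset {E H : α → β → Bool} {d : ℕ} (h : HE E H d) (v : α) : nv H v ⊆ nv E v :=
  fun b hb => mem_nv.2 (h.le v b (mem_nv.1 hb))

theorem ins_mono (E : α → β → Bool) {D D' : Finset β} (h : D ⊆ D') : ins E D ⊆ ins E D' :=
  fun _ hv => mem_ins.2 ((mem_ins.1 hv).trans h)

theorem ins_inter (E : α → β → Bool) (D D' : Finset β) : ins E (D ∩ D') = ins E D ∩ ins E D' := by
  ext v
  simp only [mem_ins, mem_inter, subset_inter_iff]

theorem ins_univ (E : α → β → Bool) : ins E univ = univ := by
  ext v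
  simp

variable {E H : α → β → Bool} {d : ℕ}

theorem card_eq (h : HE E H d) : Fintype.card α = Fintype.card β := by
  have h1 := sum_card_bipartiteAbove_eq_sum_card_bipartiteBelow
    (s := (univ : Finset α)) (t := (univ : Finset β)) (fun v b => H v b = true)
  have h2 : ∀ v : α, (bipartiteAbove (fun v b => H v b = true) univ v).card = d := fun v =>
    h.reg.1 v
  have h3 : ∀ b : β, (bipartiteBelow (fun v b => H v b = true) univ b).card = d := fun b =>
    h.reg.2 b
  rw [sum_congr rfl fun v _ => h2 v, sum_congr rfl fun b _ => h3 b, sum_const, sum_const,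
    card_univ, card_univ, smul_eq_mul, smul_eq_mul] at h1
  exact Nat.eq_of_mul_eq_mul_right h.pos h1

/-- `e_H(univ, D) = d |D|` -/
theorem sum_nv_inter (h : Reg H d) (D : Finset β) :
    (∑ v, ((nv H v ∩ D).card : ℤ)) = d * D.card := by
  have h1 := sum_card_bipartiteAbove_eq_sum_card_bipartiteBelow
    (s := (univ : Finset α)) (t := D) (fun v b => H v b = true)
  have h2 : ∀ v : α, (bipartiteAbove (fun v b => H v b = true) D v) = nv H v ∩ D := fun v => by
    ext b
    simp only [mem_bipartiteAbove, mem_inter, mem_nv]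
    tauto
  have h3 : ∀ b : β, (bipartiteBelow (fun v b => H v b = true) univ b).card = d := fun b =>
    h.2 b
  rw [sum_congr rfl fun v _ => by rw [h2 v], sum_congr rfl fun b _ => h3 b, sum_const,
    smul_eq_mul] at h1
  rw [mul_comm]
  exact_mod_cast h1

/-- `d |ins E D| + e_H(D, rest) = d |D|` -/
theorem sum_outside (h : HE E H d) (D : Finset β) :
    (∑ v ∈ univ \ ins E D, ((nv H v ∩ D).card : ℤ)) = d * rd E D := by
  have h1 := sum_nv_inter h.reg D
  rw [← sum_sdiff (subset_univ (ins E D))] at h1
  have h2 : ∑ v ∈ ins E D, ((nv H v ∩ D).card : ℤ) = d * (ins E D).card := by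
    rw [sum_congr rfl (g := fun _ => (d : ℤ)) fun v hv => ?_, sum_const, nsmul_eq_mul, mul_comm]
    rw [inter_eq_left.2 ((h.nv_subset v).trans (mem_ins.1 hv)), nv_card h.reg v]
  unfold rd
  linarith

theorem rd_nonneg (h : HE E H d) (D : Finset β) : 0 ≤ rd E D := by
  have h1 := sum_outside h D
  have h2 : (0 : ℤ) ≤ ∑ v ∈ univ \ ins E D, ((nv H v ∩ D).card : ℤ) :=
    sum_nonneg fun v _ => by positivity
  rw [h1] at h2
  have h3 : (0 : ℤ) < d := by exact_mod_cast h.pos
  exact nonneg_of_mul_nonneg_right h2 h3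

theorem rd_univ (h : HE E H d) : rd E (univ : Finset β) = 0 := by
  unfold rd
  rw [ins_univ, card_univ, card_univ, card_eq h, sub_self]

theorem rd_empty (h : HE E H d) : rd E (∅ : Finset β) = 0 := by
  refine le_antisymm ?_ (rd_nonneg h ∅)
  unfold rd
  simp

theorem rd_submod (E : α → β → Bool) (D D' : Finset β) :
    rd E (D ∩ D') + rd E (D ∪ D') ≤ rd E D + rd E D' := by
  have h1 := card_union_add_card_inter D D'
  have h2 := card_union_add_card_inter (ins E D) (ins E D')
  have h3 : ins E D ∪ ins E D' ⊆ ins E (D ∪ D') :=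
    union_subset (ins_mono E subset_union_left) (ins_mono E subset_union_right)
  have h4 := card_le_card h3
  unfold rd
  rw [ins_inter]
  omega

theorem rd_inter_le (h : HE E H d) (D D' : Finset β) : rd E (D ∩ D') ≤ rd E D + rd E D' := by
  have h1 := rd_submod E D D'
  have h2 := rd_nonneg h (D ∪ D')
  linarith

theorem rd_union_le (h : HE E H d) (D D' : Finset β) : rd E (D ∪ D') ≤ rd E D + rd E D' := by
  have h1 := rd_submod E D D'
  have h2 := rd_nonneg h (D ∩ D')
  linarith

/-- an upper bound for the defect of a union -/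
theorem rd_biUnion_le (h : HE E H d) {ι : Type} [DecidableEq ι] (s : Finset ι) (f : ι → Finset β)
    {R : ℤ} (hR : ∀ i ∈ s, rd E (f i) ≤ R) : rd E (s.biUnion f) ≤ s.card * R := by
  induction s using Finset.induction_on with
  | empty => simp [rd_empty h]
  | insert i s hi ih =>
    rw [biUnion_insert, card_insert_of_notMem hi]
    have h1 := rd_union_le h (f i) (s.biUnion f)
    have h2 := ih fun j hj => hR j (mem_insert_of_mem hj)
    have h3 := hR i (mem_insert_self i s)
    push_cast
    linarith

/-- **CL**: few vertices outside `ins E D` have half of their neighbours in `D`. -/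
theorem count_half (h : HE E H d) (D : Finset β) {W : Finset α} (h1 : ∀ v ∈ W, v ∉ ins E D)
    (h2 : ∀ v ∈ W, d ≤ 2 * (nv H v ∩ D).card) : (W.card : ℤ) ≤ 2 * rd E D := by
  have h3 : (0 : ℤ) < d := by exact_mod_cast h.pos
  have h4 : ∑ v ∈ W, ((nv H v ∩ D).card : ℤ) ≤ d * rd E D := by
    rw [← sum_outside h D]
    refine sum_le_sum_of_subset_of_nonneg (fun v hv => ?_) fun v _ _ => by positivity
    exact mem_sdiff.2 ⟨mem_univ v, h1 v hv⟩
  have h5 : (W.card : ℤ) * d ≤ 2 * ∑ v ∈ W, ((nv H v ∩ D).card : ℤ) := by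
    rw [mul_sum, ← nsmul_eq_mul, ← sum_const]
    exact sum_le_sum fun v hv => by exact_mod_cast h2 v hv
  have h6 : (W.card : ℤ) * d ≤ (2 * rd E D) * d := by linarith
  exact le_of_mul_le_mul_right h6 h3

/-- a form of the last condition -/
theorem half_of_sdiff (h : HE E H d) {D : Finset β} {v : α} (hv : 2 * (nv H v \ D).card ≤ d) :
    d ≤ 2 * (nv H v ∩ D).card := by
  have h1 := card_inter_add_card_sdiff (nv H v) D
  rw [nv_card h.reg v] at h1
  omega

/-- **DL**: the difference of two nested sets of small defect is small or large. -/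
theorem jump (h : HE E H d) {D D' : Finset β} (hD : D ⊆ D') {R : ℤ} (h1 : rd E D ≤ R)
    (h2 : rd E D' ≤ R) (h3 : 4 * (D' \ D).card ≤ d) : ((D' \ D).card : ℤ) ≤ 3 * R := by
  have h4 : ((ins E D' \ ins E D).card : ℤ) ≤ 2 * rd E D := by
    refine count_half h D (fun v hv => (mem_sdiff.1 hv).2) fun v hv => half_of_sdiff h ?_
    have h5 : nv H v \ D ⊆ D' \ D :=
      sdiff_subset_sdiff ((h.nv_subset v).trans (mem_ins.1 (mem_sdiff.1 hv).1)) le_rfl
    have h6 := card_le_card h5
    omega
  have h7 := card_sdiff_add_card_eq_card hD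
  have h8 := card_sdiff_add_card_eq_card (ins_mono E hD)
  have h9 := rd_nonneg h D
  unfold rd at *
  omega

/-- independent sets have size at most `card α` -/
theorem ind_card (h : HE E H d) {U : Finset α} {V : Finset β}
    (hUV : ∀ v ∈ U, ∀ b ∈ V, E v b = false) : U.card + V.card ≤ Fintype.card α := by
  have h1 := rd_nonneg h (univ \ V)
  have h2 : U ⊆ ins E (univ \ V) := fun v hv => mem_ins.2 fun b hb =>
    mem_sdiff.2 ⟨mem_univ b, fun hbV => by
      have h3 := hUV v hv b hbV
      rw [mem_nv] at hb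
      rw [hb] at h3
      exact Bool.noConfusion h3⟩
  have h4 := card_le_card h2
  have h5 := card_sdiff_add_card_eq_card (subset_univ V)
  rw [card_univ, ← card_eq h] at h5
  unfold rd at h1
  omega

end Pool.Agent.Lib.SubBisK.V
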